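import Pool.Agent.MP_2fc7fa_gt.Q.Defs
import Pool.Agent.Mg.F2fc7fa.Gf5525e

noncomputable section

namespace Pool.Agent.MP_2fc7fa_gt.N.Fp.Q

variable [PO]

section

open scoped ContDiff ComplexConjugate Topology

open Set Complex Filter Metric

theorem rt_mul_neg (k : Zp) : rt k * rt (-k) = 1 := by rw [← rt_add, add_neg_cancel, rt_zero]

theorem rt_ne (k : Zp) : rt k ≠ 0 := left_ne_zero_of_mul_eq_one (rt_mul_neg k)

theorem hat_zero (x : V) : hat 0 x = x := funext fun a => by simp [hat, rt_zero]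

theorem hat_add (k k' : Zp) (x : V) : hat (k + k') x = hat k (hat k' x) :=
  funext fun a => by simp only [hat, add_mul, rt_add, mul_assoc]

theorem hat_vec (k : Zp) (c : ℂ) (y : W) : hat k (vec c y) = vec c (rt k • y) := by
  ext a
  fin_cases a <;> simp [hat, vec, wt, rt_zero]

theorem hat_e0 (k : Zp) : hat k e0 = e0 := by rw [e0, hat_vec, smul_zero]

/-- The action of `k` as a complex linear automorphism. -/
def hatL (k : Zp) : V ≃L[ℂ] V :=
  LinearEquiv.toContinuousLinearEquiv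
    { toFun := hat k
      invFun := hat (-k)
      map_add' := fun x y => funext fun a => by simp [hat, mul_add]
      map_smul' := fun c x => funext fun a => by simp [hat, mul_left_comm]
      left_inv := fun x => by rw [← hat_add, neg_add_cancel, hat_zero]
      right_inv := fun x => by rw [← hat_add, add_neg_cancel, hat_zero] }

theorem hatL_apply (k : Zp) (x : V) : hatL k x = hat k x := rfl

theorem hat_ne (k : Zp) {x : V} (hx : x ≠ 0) : hat k x ≠ 0 := (hatL k).map_ne_zero_iff.2 hx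

section

variable {F F' : V → V} (h : HDiff F F')

include h

end

theorem hdiff_hat (k : Zp) : HDiff (hat k) (hat (-k)) :=
  ⟨((hatL k).contDiff.restrict_scalars ℝ).contDiffOn,
    ((hatL (-k)).contDiff.restrict_scalars ℝ).contDiffOn,
    (hatL k).left_inv, (hatL k).right_inv, (hatL k).map_smul⟩

theorem fderiv_hat (k : Zp) (x v : V) : fderiv ℝ (hat k) x v = hat k v :=
  congrArg (fun L : Op => L v) ((hatL k).hasFDerivAt (x := x).restrictScalars ℝ).fderiv

/-- The lift to `ℂ³` of a diffeomorphism `f` of the affine chart. -/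
structure Lf (f : W → W) (F F' : V → V) : Prop extends HDiff F F' where
  equiv : ∀ k x, F (hat k x) = hat k (F x)
  aff : ∀ y, F (vec 1 y) = vec 1 (f y)
  near : ∀ᶠ x in 𝓝 e0, F x = x
  near' : ∀ᶠ x in 𝓝 e0, F' x = x

/-- Job `LiftF`. -/
def LiftFStmt : Prop :=
  ∀ f f' : W → W, Sol f → ContDiff ℝ ∞ f → ContDiff ℝ ∞ f' → Function.LeftInverse f' f →
    Function.RightInverse f' f → ∃ F F', Lf f F F'

/-- The group action on forms and the two invariant forms. -/
structure Forms (F' : V → V) (ac : Zp → Symp 1 → Symp 1) (om0 om1 : Symp 1) : Prop where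
  cont : ∀ k, Continuous (ac k)
  zero : ∀ σ, ac 0 σ = σ
  add : ∀ k k' σ, ac (k + k') σ = ac k (ac k' σ)
  fix0 : ∀ k, ac k om0 = om0
  fix1 : ∀ k, ac k om1 = om1
  spec : ∀ k σ x, x ≠ 0 → ∀ u v, (ac k σ).form (hat k x) ![hat k u, hat k v] = σ.form x ![u, v]
  std : ∀ x, x ≠ 0 → ∀ u v, om1.form x ![u, v] = omS (g1 x) x u v
  pull : IsPull F' om1 om0

/-- Job `Forms`. -/
def FormsStmt : Prop := ∀ f F F', Lf f F F' → ∃ ac om0 om1, Forms F' ac om0 om1

/-- The path of metrics is smooth, vertical vectors have the standard length, and it is natural. -/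
structure Gs (F F' : V → V) : Prop where
  sm : Sm {0}ᶜ fun (s : UI) x => gs F' s x
  ok : ∀ (σ : Symp 1) (s : UI) x, x ≠ 0 → Ok (gs F' s x) (bilL (σ.form x)) x (I • x)
  scale : ∀ (s : UI) x, x ≠ 0 → ∀ c : ℂ, c ≠ 0 → ∀ u v,
    gs F' s (c • x) (c • u) (c • v) = gs F' s x u v
  equiv : ∀ (s : UI) k x, x ≠ 0 → ∀ u v, gs F' s (hat k x) (hat k u) (hat k v) = gs F' s x u v
  base : ∀ s : UI, gs F' s e0 = reB
  start : ∀ y, y ≠ 0 → ∀ u v, gs F' 0 (F y) (fderiv ℝ F y u) (fderiv ℝ F y v) = g1 y u v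
  stop : ∀ x, gs F' 1 x = g1 x

/-- Job `Gs`. -/
def GsStmt : Prop := ∀ f F F', Lf f F F' → Gs F F'

/-- A natural choice of tamed almost complex structures. -/
structure JFam (F : V → V) (ac : Zp → Symp 1 → Symp 1) (om0 om1 : Symp 1)
    (J : Symp 1 × UI → V → Op) : Prop where
  sm : Sm {0}ᶜ J
  sq : ∀ a x, x ≠ 0 → ∀ v, J a x (J a x v) = -v
  vert : ∀ a x, x ≠ 0 → ∀ c : ℂ, J a x (c • x) = I • c • x
  scale : ∀ a x, x ≠ 0 → ∀ c : ℂ, c ≠ 0 → ∀ v, J a (c • x) (c • v) = c • J a x v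
  tame : ∀ a, Tame (fun x v => J a x v) a.1
  base : ∀ a v, J a e0 v 0 = I * v 0
  equiv : ∀ k σ s x, x ≠ 0 → ∀ v, J (ac k σ, s) (hat k x) (hat k v) = hat k (J (σ, s) x v)
  start : ∀ y, y ≠ 0 → ∀ v, J (om0, 0) (F y) (fderiv ℝ F y v) = fderiv ℝ F y (I • v)
  stop : ∀ x, x ≠ 0 → ∀ v, J (om1, 1) x v = I • v

/-- Job `JFam`. -/
def JFamStmt : Prop :=
  ∀ f F F' ac om0 om1, Lf f F F' → Forms F' ac om0 om1 → ∃ J, JFam F ac om0 om1 J

/-- Job `Key`: naturality of the lines, and the two ends. -/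
def KeyStmt : Prop :=
  UniqStmt → LinStmt → ∀ (P : Type) [TopologicalSpace P] (φ : P × UI → Fr) (C : P × UI → Op)
    (Y : P × UI → W → W → V), Sys φ C Y →
    (∀ (p p' : P) (T : V ≃L[ℂ] V) (c : ℂ) (v v' : W), T e0 = e0 →
      (∀ s x, x ≠ 0 → ∀ u, (φ (p', s)).J (T x) (T u) = T ((φ (p, s)).J x u)) →
      (∀ s u, C (p', s) (T u) = T (C (p, s) u)) → c ≠ 0 → v ≠ 0 →
      vec 0 v' = T (vec 0 (c • v)) → ∀ s q, Y (p', s) v' q = T (Y (p, s) v (q.1, c * q.2))) ∧
    (∀ p f F F', Lf f F F' →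
      (∀ y, y ≠ 0 → ∀ u, (φ (p, 0)).J (F y) (fderiv ℝ F y u) = fderiv ℝ F y (I • u)) →
      ∀ v, v ≠ 0 → Y (p, 0) v (1, 1) = vec 1 (f v)) ∧
    ∀ p, ∃ L : W →ₗ[ℂ] W, Function.Injective L ∧ ∀ v, v ≠ 0 → Y (p, 1) v (1, 1) = vec 1 (L v)

/-- Job `Near0`. -/
def Near0Stmt : Prop :=
  ChordStmt → ∀ (P : Type) [TopologicalSpace P] [CompactSpace P] (Y : P → W → W → V), Ray Y →
    ∀ r : ℝ, 0 < r → ∃ τ : ℝ, 0 < τ ∧ ∀ p a x y (l : ℝ), a ≠ 0 → ‖a‖ ≤ τ → 1 < l →
      (∀ k, pr (Y p (rt k • a) (1, 1)) = pt (rt k • x)) →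
      pr (Y p ((l : ℂ) • a) (1, 1)) = pt y → ‖x‖ ≤ r ∧ ∀ μ, Chord μ → y ≠ μ • x

/-- Job `NearInf`. -/
def NearInfStmt : Prop :=
  ChordStmt → ∀ (P : Type) [TopologicalSpace P] [CompactSpace P] (Y : P → W → W → V), Ray Y →
    ∀ r : ℝ, ∃ R : ℝ, ∀ p b x y (l : ℝ), b ≠ 0 → R ≤ ‖b‖ → 0 < l → l < 1 →
      (∀ k, pr (Y p (rt k • b) (1, 1)) = pt (rt k • y)) →
      pr (Y p ((l : ℂ) • b) (1, 1)) = pt x → r ≤ ‖y‖ ∧ ∀ μ, Chord μ → y ≠ μ • x

/-- A point of a chord has real part at most `cos (2 π / pn)`. -/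
theorem Chord.re_le {μ : ℂ} (h : Chord μ) : μ.re ≤ Real.cos (2 * Real.pi / pn) := by
  have key : ∀ k : Zp, k ≠ 0 → (rt k).re ≤ Real.cos (2 * Real.pi / pn) := by
    intro k hk
    have h1 : rt k = exp ((2 * Real.pi * (k.val : ℝ) / pn : ℝ) * I) := by
      rw [rt, ZMod.stdAddChar_apply, ZMod.toCircle_apply]
      congr 1
      push_cast
      ring
    have h2 : (1 : ℝ) ≤ k.val := by exact_mod_cast Nat.pos_of_ne_zero (by simpa using hk)
    have h3 : (k.val : ℝ) + 1 ≤ pn := by exact_mod_cast Nat.succ_le_of_lt k.val_lt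
    have hp := Real.pi_pos
    have hq := pn_pos
    rw [h1, exp_ofReal_mul_I_re]
    rcases le_total (2 * Real.pi * (k.val : ℝ) / pn) Real.pi with h4 | h4
    · exact Real.cos_le_cos_of_nonneg_of_le_pi (by positivity) h4
        (div_le_div_of_nonneg_right (by nlinarith) hq.le)
    · rw [← Real.cos_two_pi_sub (2 * Real.pi * (k.val : ℝ) / pn)]
      exact Real.cos_le_cos_of_nonneg_of_le_pi (by positivity) (by linarith) (by
        rw [le_sub_iff_add_le, ← add_div, div_le_iff₀ hq]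
        nlinarith)
  obtain ⟨k₁, k₂, u, h1, h2, hu, rfl⟩ := h
  have e : ((1 - u) * rt k₁ + u * rt k₂ : ℂ).re = (1 - u) * (rt k₁).re + u * (rt k₂).re := by simp
  rw [e]
  nlinarith [key k₁ h1, key k₂ h2, hu.1, hu.2]

theorem cos_lt_one_37 : Real.cos (2 * Real.pi / pn) < 1 := by
  rw [← Real.cos_zero]
  have hp := Real.pi_pos
  have hq := pn_pos
  exact Real.cos_lt_cos_of_nonneg_of_le_pi le_rfl (by
    rw [div_le_iff₀ hq]
    nlinarith [pn_ge]) (by positivity)

end
section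

open scoped ContDiff ComplexConjugate Topology

open Set Complex Filter Metric

open Classical in
/-- The homogeneous lift. -/

theorem liftFS : LiftFStmt := by
  intro f f' hf sf sf' hl hr
  have hs : ∀ z, nsq z ≤ 1 / 100 ∨ 1000 ≤ nsq z → f' z = z := fun z hz => by
    conv_lhs => rw [← hf.supp z hz, hl]
  refine ⟨lift_ALift f, lift_ALift f', ⟨smooth_ALift sf fun z hz => hf.supp z (Or.inr hz),
    smooth_ALift sf' fun z hz => hs z (Or.inr hz), inv_ALift hl, inv_ALift hr, fun c x => ?_⟩,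
    fun k x => ?_, fun y => ?_, near_ALift fun z hz => hf.supp z (Or.inl hz),
    near_ALift fun z hz => hs z (Or.inl hz)⟩
  · rcases cases_ALift x with h0 | ⟨c', y, hc', rfl⟩
    · rw [lift_zero_ALift f h0, lift_zero_ALift f (by simp [h0])]
    · rcases eq_or_ne c 0 with rfl | hc
      · rw [zero_smul, zero_smul, lift_zero_ALift f rfl]
      · rw [smul_smul, lift_vec_ALift f (mul_ne_zero hc hc'), lift_vec_ALift f hc', smul_smul]
  · rcases cases_ALift x with h0 | ⟨c, y, hc, rfl⟩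
    · rw [lift_zero_ALift f h0, lift_zero_ALift f (by simp [hat, h0])]
    · rw [lift_vec_ALift f hc, (hdiff_hat k).hom, (hdiff_hat k).hom, hat_vec, hat_vec,
        lift_vec_ALift f hc, hf.equiv]
  · simpa using lift_vec_ALift f one_ne_zero y

end
section

open scoped ContDiff ComplexConjugate Topology

open Set Complex Filter Metric

theorem her_AForms (k : Zp) (u v : V) : her (hat k u) (hat k v) = her u v := by
  refine Finset.sum_congr rfl fun j _ => ?_
  simp only [hat, map_mul, conj_rt]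
  linear_combination (conj (u j) * v j) * rt_mul_neg (k * wt j)

theorem nn_AForms (k : Zp) (x : V) : nn (hat k x) = nn x := by
  simp [nn, hat, norm_rt]

theorem omS_AForms (k : Zp) (x u v : V) :
    omS (g1 (hat k x)) (hat k x) (hat k u) (hat k v) = omS (g1 x) x u v := by
  have h : ∀ u, I • hat k u = hat k (I • u) := fun u => ((hatL k).map_smul I u).symm
  simp only [omS, g1_apply, h, her_AForms, nn_AForms]

theorem formsS (hP : PullStmt) (hS : StdFStmt) : FormsStmt := by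
  intro f F F' hL
  obtain ⟨om1, h1⟩ := hS
  choose ac hc hac using fun k => hP _ _ (hdiff_hat (-k))
  obtain ⟨pb, -, hpb⟩ := hP _ _ hL.toHDiff.symm
  have h2 : ∀ k σ x, x ≠ 0 → ∀ u v, (ac k σ).form x ![u, v] =
      σ.form (hat (-k) x) ![hat (-k) u, hat (-k) v] := fun k σ x hx u v => by
    rw [hac k σ x hx, fderiv_hat, fderiv_hat]
  have h3 : ∀ k x, hat (-k) (hat k x) = x := fun k => (hdiff_hat k).left
  have h4 : ∀ k, ac k om1 = om1 := fun k => Symp.ext' fun x hx u v => by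
    rw [h2 _ _ _ hx, h1 _ hx, h1 _ (hat_ne _ hx), omS_AForms]
  refine ⟨ac, pb om1, om1, hc, fun σ => Symp.ext' fun x hx u v => ?_,
    fun k k' σ => Symp.ext' fun x hx u v => ?_, fun k => Symp.ext' fun x hx u v => ?_, h4,
    fun k σ x hx u v => ?_, h1, hpb om1⟩
  · simp only [h2 _ _ _ hx, neg_zero, hat_zero]
  · simp only [h2 _ _ _ hx, h2 _ _ _ (hat_ne _ hx), ← hat_add, neg_add_rev]
  · have e1 : ∀ x, F' (hat (-k) x) = hat (-k) (F' x) := fun x => by
      conv_lhs => rw [← hL.right x, ← hL.equiv, hL.left]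
    have e2 : ∀ u, fderiv ℝ F' (hat (-k) x) (hat (-k) u) = hat (-k) (fderiv ℝ F' x u) :=
      hL.toHDiff.symm.fderiv_comm
        ((hatL (-k)).toLinearEquiv.restrictScalars ℝ).toContinuousLinearEquiv e1 hx
    rw [h2 _ _ _ hx, hpb _ _ hx, hpb _ _ (hat_ne _ hx), e1, e2, e2,
      ← h2 _ _ _ (hL.toHDiff.symm.ne hx), h4]
  · rw [h2 _ _ _ (hat_ne _ hx), h3, h3, h3]

end
section

open scoped ContDiff ComplexConjugate Topology

open Set Complex Filter Metric

theorem her_hat_AGs (k : Zp) (u v : V) : her (hat k u) (hat k v) = her u v := by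
  refine Finset.sum_congr rfl fun j _ => ?_
  rw [hat, hat, map_mul, conj_rt]
  linear_combination (conj (u j) * v j) * rt_mul_neg (k * wt j)

theorem g1_hat_AGs (k : Zp) (x u v : V) : g1 (hat k x) (hat k u) (hat k v) = g1 x u v := by
  have h := her_hat_AGs k x x
  rw [her_self, her_self, ofReal_inj] at h
  rw [g1_apply, g1_apply, her_hat_AGs, h]

theorem gsS : GsStmt := by
  intro f F F' L
  have h : HDiff F F' := L.toHDiff
  have h' : HDiff F' F := h.symm
  have hU : UniqueDiffOn ℝ ({0}ᶜ : Set V) := isOpen_compl_singleton.uniqueDiffOn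
  have hcomm : ∀ k x, F' (hat k x) = hat k (F' x) := fun k x => by
    conv_lhs => rw [← h.right x, ← L.equiv, h.left]
  refine ⟨?_, fun σ s x hx => ?_, fun s x hx c hc u v => ?_, fun s k x hx u v => ?_, fun s => ?_,
    fun y hy u v => ?_, fun x => ?_⟩
  · exact ((sm_const (c := fun s : UI => 1 - (s : ℝ)) (by fun_prop)).smul
      (sm_of_contDiffOn hU (cd_pull_AGs h'))).add
      ((sm_const (c := fun s : UI => (s : ℝ)) (by fun_prop)).smul (sm_of_contDiffOn hU cd_g1_AGs))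
  · refine ⟨fun u v => ?_, fun v hv => ?_, fun u v => bilL_skew _ u v, fun v => ?_, fun v => ?_,
      ?_, ?_, ?_, ?_⟩
    · rw [gs_apply_AGs, gs_apply_AGs, g1_symm_AGs (F' x), g1_symm_AGs x]
    · have h1 : fderiv ℝ F' x v ≠ 0 := fun e => hv (by rw [← h'.chain hx v, e, map_zero])
      have h2 := g1_pos_AGs (h'.ne hx) h1
      have h3 := g1_pos_AGs hx hv
      rw [gs_apply_AGs]
      rcases s.2.1.eq_or_lt with e | e
      · rw [← e]
        simpa using h2
      · exact add_pos_of_nonneg_of_pos (mul_nonneg (sub_nonneg.2 s.2.2) h2.le) (mul_pos e h3)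
    · rw [bilL_apply]
      exact σ.isForm.horiz x _ 0 1 (by simp)
    · rw [bilL_apply]
      exact σ.isForm.horiz x _ 0 I (by simp)
    · simpa using gs_vert_AGs h' s hx 1 1
    · simpa using gs_vert_AGs h' s hx 1 I
    · simpa using gs_vert_AGs h' s hx I I
    · simpa only [bilL_apply] using σ.nondeg x hx
  · rw [gs_apply_AGs, gs_apply_AGs, h'.fderiv_scale hx hc, h'.fderiv_scale hx hc, h'.hom,
      g1_scale_AGs hc, g1_scale_AGs hc]
  · have e : ∀ w, fderiv ℝ F' (hat k x) (hat k w) = hat k (fderiv ℝ F' x w) := fun w =>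
      h'.fderiv_comm ((hatL k).restrictScalars ℝ) (hcomm k) hx w
    rw [gs_apply_AGs, gs_apply_AGs, e, e, hcomm, g1_hat_AGs, g1_hat_AGs]
  · have e1 : F' e0 = e0 := L.near'.self_of_nhds
    have e2 : fderiv ℝ F' e0 = ContinuousLinearMap.id ℝ V := by
      rw [EventuallyEq.fderiv_eq (f := id) L.near', fderiv_id]
    have e3 : nn e0 = 1 := by simp [nn, e0, vec, Fin.sum_univ_three]
    ext u v
    rw [gs_apply_AGs, e1, e2, g1_apply, g1_apply, e3, reB_apply]
    simp only [ContinuousLinearMap.id_apply]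
    ring
  · rw [gs_apply_AGs, h.chain hy, h.chain hy, h.left]
    ring
  · ext u v
    rw [gs_apply_AGs]
    ring

end
section

open scoped ContDiff ComplexConjugate Topology

open Set Complex Filter Metric

theorem jFamS (hI : JInvStmt) (hA : JAlgStmt) (hS : JSmStmt) (hG : GsStmt) : JFamStmt := by
  intro f F F' ac om0 om1 hL hF
  have G := hG f F F' hL
  have alg := fun (σ : Symp 1) (s : UI) (x : V) (hx : x ≠ 0) =>
    hA _ _ _ _ (G.ok σ s x hx) (hI.1 _ _ _ _ (G.ok σ s x hx)).2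
  have hstop : ∀ x, x ≠ 0 → ∀ v, Jp (g1 x, bilL (om1.form x), x, I • x) v = I • v :=
    fun x hx => hI.2.2 x _ hx fun u v => by rw [bilL_apply]; exact hF.std x hx u v
  refine ⟨fun a x => Jp (gs F' a.2 x, bilL (a.1.form x), x, I • x), ?_, ?_, ?_, ?_, ?_, ?_, ?_,
    ?_, ?_⟩
  · have h1 : Sm {0}ᶜ fun (a : Symp 1 × UI) x => gs F' a.2 x := G.sm.param continuous_snd
    have h2 : Sm {0}ᶜ fun (a : Symp 1 × UI) x => bilL (a.1.form x) :=
      Sm.clm (G := V →L[ℝ] V →L[ℝ] ℝ) (continuous_symp_iff.1 continuous_fst) bilL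
    have h3 : Sm {0}ᶜ fun (_ : Symp 1 × UI) (x : V) => I • x :=
      sm_of_contDiff (contDiff_id.const_smul I)
    refine (h1.prod (h2.prod (sm_id.prod h3))).post hS.1 hS.2 fun a x hx => ?_
    obtain ⟨k1, k2, -⟩ := alg a.1 a.2 x hx
    refine ⟨(hI.1 _ _ _ _ (G.ok a.1 a.2 x hx)).1, k1, ?_⟩
    have := Real.sqrt_pos.2 k1
    linarith
  · exact fun a x hx => (alg a.1 a.2 x hx).2.2.1
  · intro a x hx c
    obtain ⟨-, -, -, k1, k2, -⟩ := alg a.1 a.2 x hx
    have e : c • x = c.re • x + c.im • (I • x) := by rw [split_AJFam, re_add_im]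
    have e' : I • c • x = (-c.im) • x + c.re • (I • x) := by
      rw [split_AJFam, smul_smul]
      congr 1
      apply Complex.ext <;> simp
    rw [e']
    conv_lhs => rw [e]
    rw [map_add, map_smul, map_smul, k1, k2, smul_neg, neg_smul, add_comm]
  · intro a x hx c hc v
    have key := hI.2.1
      (((LinearEquiv.smulOfNeZero ℂ V c hc).restrictScalars ℝ).toContinuousLinearEquiv)
      _ _ _ _ (gs F' a.2 (c • x)) (bilL (a.1.form (c • x))) (G.ok a.1 a.2 x hx)
      (fun u w => G.scale a.2 x hx c hc u w) (fun u w => by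
        rw [bilL_apply, bilL_apply, ← a.1.isForm.scale c hc x ![u, w]]
        congr 1
        ext1 i
        fin_cases i <;> rfl) v
    rw [smul_comm I c x]
    exact key
  · intro a x hx v hv
    have := (alg a.1 a.2 x hx).2.2.2.2.2.1 v fun p q => by rw [split_AJFam]; exact hv _
    rwa [bilL_apply] at this
  · intro a v
    obtain ⟨k1, k2⟩ := (alg a.1 a.2 e0 e0_ne).2.2.2.2.2.2 v
    generalize Jp (gs F' a.2 e0, bilL (a.1.form e0), e0, I • e0) v = w at k1 k2 ⊢
    rw [G.base, reB_e0_AJFam, reB_Ie0_AJFam] at k1 k2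
    apply Complex.ext
    · simpa using k1
    · simpa using k2
  · intro k σ s x hx v
    have key := hI.2.1 (((hatL k).toLinearEquiv.restrictScalars ℝ).toContinuousLinearEquiv)
      _ _ _ _ (gs F' s (hat k x)) (bilL ((ac k σ).form (hat k x))) (G.ok σ s x hx)
      (fun u w => G.equiv s k x hx u w) (fun u w => by
        rw [bilL_apply, bilL_apply]
        exact hF.spec k σ x hx u w) v
    have e : I • hat k x = hat k (I • x) := ((hatL k).map_smul I x).symm
    rw [e]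
    exact key
  · intro y hy v
    have hD := hL.toHDiff
    have ok := G.ok om1 1 y hy
    rw [show ((1 : UI) : ℝ) = 1 from rfl, G.stop] at ok
    have key := hI.2.1 (ContinuousLinearEquiv.equivOfInverse (fderiv ℝ F y) (fderiv ℝ F' (F y))
      (hD.chain hy) (hD.chain' hy)) _ _ _ _ (gs F' 0 (F y)) (bilL (om0.form (F y))) ok
      (fun u w => G.start y hy u w) (fun u w => by
        rw [bilL_apply, bilL_apply]
        refine (hF.pull (F y) (hD.ne hy) _ _).trans ?_
        rw [ContinuousLinearEquiv.equivOfInverse_apply, ContinuousLinearEquiv.equivOfInverse_apply,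
          hD.chain hy, hD.chain hy, hD.left]) v
    have e1 : fderiv ℝ F y y = F y := by simpa using hD.fderiv_vert hy 1
    simp only [ContinuousLinearEquiv.equivOfInverse_apply] at key
    rw [hstop y hy, e1, hD.fderiv_vert hy I] at key
    exact key
  · intro x hx v
    rw [← hstop x hx v, ← G.stop]
    rfl

end
section

open scoped ContDiff ComplexConjugate Topology

open Set Complex Filter Metric

theorem keyS : KeyStmt := by
  intro hU hL P _ φ C Y hS
  refine ⟨fun p p' T c v v' hT hJ hC hc hv hvv s q => ?_, fun p f F F' hF hJ v hv => ?_,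
    fun p => ?_⟩
  · have hv' : v' ≠ 0 := by
      rintro rfl
      have h0 : vec 0 (0 : W) = 0 := by simpa using vec_smul_AKey 0 0
      rw [h0] at hvv
      exact smul_ne_zero hc hv (vec_eq_zero_AKey (T.map_eq_zero_iff.1 hvv.symm))
    let g : W ≃L[ℂ] W := (ContinuousLinearEquiv.refl ℂ ℂ).prodCongr
      (ContinuousLinearEquiv.unitsEquivAut ℂ (Units.mk0 c hc))
    have hg : ∀ q : W, g q = (q.1, c * q.2) := fun q => by
      obtain ⟨a, b⟩ := q
      simp [g, mul_comm]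
    have hfam : ∀ (p : P) (v : W), v ≠ 0 → Fam {0}ᶜ 1 V fun s : UI => Y (p, s) v :=
      fun p v hv => hS.fam.param
        (g := fun s : UI => (((p, s), ⟨v, hv⟩) : (P × UI) × ({0}ᶜ : Set W))) (by fun_prop)
    have hline : ∀ s, IsLine (φ (p', s)).J fun q => T (Y (p, s) v (g q)) := fun s =>
      line_AKey (hdiffL_AKey T) g (hS.line _ v hv).1 fun x hx u => by
        rw [fderivL_AKey, fderivL_AKey, hJ s x hx]
    have hjet : ∀ s, jet (Y (p', s) v') = jet fun q => T (Y (p, s) v (g q)) := by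
      intro s
      obtain ⟨h1, -, h3⟩ := hS.line (p, s) v hv
      have a1 : Y (p, s) v (1, 0) = e0 := (Prod.ext_iff.1 h3).1
      have a2 : fderiv ℝ (Y (p, s) v) (1, 0) (0, 1) = C (p, s) (vec 0 v) := (Prod.ext_iff.1 h3).2
      have g1 : g (1, 0) = (1, 0) := by simp [hg]
      have g2 : g (0, 1) = c • ((0, 1) : W) := by simp [hg]
      rw [(hS.line (p', s) v' hv').2.2, jet, fd_AKey (hdiffL_AKey T) g h1 e1_AKey, g1, g2, a1, hT,
        fderivL_AKey, hvv, hC, split_AKey, h1.hol _ e1_AKey, a1, a2, vec_smul_AKey, split_AKey,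
        hS.cJ]
    have key := hU (fun s => φ (p', s)) (fun s => Y (p', s) v')
      (fun s q => T (Y (p, s) v (g q)))
      (fun n => ⟨(hS.fr n).1.param (g := fun s : UI => (p', s)) (by fun_prop),
        (hS.fr n).2.param (g := fun s : UI => (p', s)) (by fun_prop)⟩)
      (hfam p' v' hv')
      (((hfam p v hv).comp (fam_id.clm ((g : W →L[ℂ] W).restrictScalars ℝ))
        fun _ q hq => g.map_ne_zero_iff.2 hq).clm ((T : V →L[ℂ] V).restrictScalars ℝ))
      (fun s => ⟨(hS.line _ v' hv').1, (hS.line _ v' hv').2.1, hline s, hjet s⟩)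
      (funext fun q => by
        rw [hL _ _ (hS.std p') (hS.line _ v' hv').1 q, hjet 1,
          ← hL _ _ (hS.std p') (hline 1) q])
    rw [← hg]
    exact congrFun (congrFun key s) q
  · obtain ⟨h1, -, h3⟩ := hS.line (p, 0) v hv
    have a1 : Y (p, 0) v (1, 0) = e0 := (Prod.ext_iff.1 h3).1
    have a2 : fderiv ℝ (Y (p, 0) v) (1, 0) (0, 1) = vec 0 v :=
      (Prod.ext_iff.1 h3).2.trans (hS.c0 p _)
    have hD := hF.toHDiff
    have h4 : IsLine (fun _ u => I • u)
        fun q => F' (Y (p, 0) v (ContinuousLinearEquiv.refl ℂ W q)) :=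
      line_AKey hD.symm _ h1 fun x hx u => by
        have hy := hD.symm.ne hx
        have := hJ _ hy (fderiv ℝ F' x u)
        rw [hD.right, hD.symm.chain hx] at this
        rw [this, hD.symm.chain' hx]
    have h5 := hL _ _ (fun _ _ _ => rfl) h4 (1, 1)
    have h6 : fderiv ℝ F' e0 = ContinuousLinearMap.id ℝ V := by
      rw [← fderiv_id (x := e0)]
      exact Filter.EventuallyEq.fderiv_eq hF.near'
    rw [jet, fd_AKey hD.symm _ h1 e1_AKey] at h5
    simp only [ContinuousLinearEquiv.refl_apply, a1, a2, h6, hF.near'.self_of_nhds, one_smul,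
      ContinuousLinearMap.id_apply] at h5
    rw [← hF.aff, ← hD.right (Y (p, 0) v (1, 1)), h5]
    congr 1
    ext a
    fin_cases a <;> simp [vec, e0]
  · have hc : ∀ (c : ℂ) u, C (p, 1) (c • u) = c • C (p, 1) u := fun c u => by
      rw [split_AKey, hS.cJ, hS.std p _ e0_ne]
      exact (split_AKey (ContinuousLinearMap.id ℝ V) c _).symm
    have hv : ∀ v, vec 0 (C (p, 1) (vec 0 v) 1, C (p, 1) (vec 0 v) 2) = C (p, 1) (vec 0 v) := by
      intro v
      ext a
      fin_cases a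
      · simp [vec, hS.cb]
      · simp [vec]
      · simp [vec]
    refine ⟨⟨⟨fun v => (C (p, 1) (vec 0 v) 1, C (p, 1) (vec 0 v) 2), fun v w => ?_⟩,
      fun c v => ?_⟩, ?_, fun v hv0 => ?_⟩
    · simp [vec_add_AKey]
    · simp [vec_smul_AKey, hc]
    · rw [injective_iff_map_eq_zero]
      intro v h0
      have h1 : (C (p, 1) (vec 0 v) 1, C (p, 1) (vec 0 v) 2) = 0 := h0
      have h2 := hv v
      have h3 : vec 0 (0 : W) = 0 := by simpa using vec_smul_AKey 0 0
      rw [h1, h3] at h2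
      exact vec_eq_zero_AKey (hS.cinj _ (h2.symm.trans (map_zero _).symm))
    · obtain ⟨h1, -, h3⟩ := hS.line (p, 1) v hv0
      rw [hL _ _ (hS.std p) h1 (1, 1), h3]
      ext a
      fin_cases a
      · simp [vec, e0, hS.cb]
      · simp [vec, e0]
      · simp [vec, e0]

end
section

open scoped ContDiff ComplexConjugate Topology

open Set Complex Filter Metric

theorem near0S : Near0Stmt := by
  intro hC P _ _ Y hY r hr
  have hs : ∀ u : sphere (0 : W) 1, (u : W) ≠ 0 := fun u => ne_zero_of_mem_unit_sphere u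
  have hF : Fam {0}ᶜ 1 V fun b : P × sphere (0 : W) 1 => Y b.1 b.2 :=
    hY.fam.param (g := fun b : P × sphere (0 : W) 1 => (b.1, (⟨b.2, hs b.2⟩ : ({0}ᶜ : Set W))))
      (by fun_prop)
  have hcos := cos_lt_one_37
  obtain ⟨δ, hδ, hch⟩ := hC (P × sphere (0 : W) 1) (fun b => Y b.1 b.2) (1, 0) (0, 1) hF
    (fun b => hY.emb b.1 b.2 (hs b.2)) (by simp [det2])
    ((1 - Real.cos (2 * Real.pi / pn)) / 4) (by linarith) 1 one_pos
  obtain ⟨τ, hτ, ht⟩ := tube_ANear0 hF.jc (fun b => hY.base b.1 b.2 (hs b.2))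
    (lt_min one_half_pos (half_pos hr))
  refine ⟨min δ τ, lt_min hδ hτ, fun p a x y l ha haτ hl hk hy => ?_⟩
  have hρ : 0 < ‖a‖ := norm_pos_iff.2 ha
  have hρ' : ((‖a‖ : ℝ) : ℂ) ≠ 0 := ofReal_ne_zero.2 hρ.ne'
  obtain ⟨u, hu⟩ : ∃ u : sphere (0 : W) 1, a = ((‖a‖ : ℝ) : ℂ) • (u : W) :=
    ⟨⟨((‖a‖ : ℝ) : ℂ)⁻¹ • a, by
      rw [mem_sphere_zero_iff_norm, norm_smul, norm_inv, norm_real, norm_norm,
        inv_mul_cancel₀ hρ.ne']⟩, (smul_inv_smul₀ hρ' a).symm⟩
  generalize ‖a‖ = ρ at haτ hρ hρ' hu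
  subst hu
  have hpar : ∀ c : ℂ, c ≠ 0 → Y p (c • (ρ : ℂ) • (u : W)) (1, 1) = Y p u (1, c * ρ) :=
    fun c hc => by rw [smul_smul, hY.par p u _ (hs u) (mul_ne_zero hc hρ')]
  have hne : ∀ z : ℂ, Y p u (1, z) ≠ 0 := fun z =>
    (hY.emb p u (hs u)).2.2 _ fun e => one_ne_zero (congrArg Prod.fst e)
  have hn : ∀ k, ‖rt k * (ρ : ℂ)‖ = ρ := fun k => by
    rw [norm_mul, norm_rt, one_mul, norm_real, Real.norm_of_nonneg hρ.le]
  have hk' := fun k => norm_ANear0 (hne (rt k * ρ)) ((congrArg pr (hpar _ (rt_ne k))).symm.trans (hk k))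
  have hl0 : (l : ℂ) ≠ 0 := ofReal_ne_zero.2 (by linarith)
  have hy' := norm_ANear0 (hne (l * ρ)) ((congrArg pr (hpar _ hl0)).symm.trans hy)
  refine ⟨?_, fun μ hμ e => ?_⟩
  · have h1 := small_ANear0 (hk' 0).2 (ht _ (p, u) ((hn 0).trans_le (haτ.trans (min_le_right _ _))))
    rwa [rt_zero, one_smul] at h1
  · have hre := hμ.re_le
    obtain ⟨k₁, k₂, s, -, -, hs', hμ⟩ := hμ
    have eq : ∀ z : ℂ, ((1, 0) : W) + z • ((0, 1) : W) = (1, z) := fun z => by simp
    have h1 := hch (p, u) (ContinuousLinearMap.proj 0) (l * ρ) (rt k₁ * ρ) (rt k₂ * ρ) s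
      (ContinuousLinearMap.opNorm_le_bound _ zero_le_one fun v => by
        simpa using norm_le_pi_norm v 0)
      (by simp [hY.base p u (hs u), e0, vec]) ((hn k₁).trans_le (haτ.trans (min_le_left _ _)))
      ((hn k₂).trans_le (haτ.trans (min_le_left _ _))) hs' ⟨(Y p u (1, l * ρ) 0)⁻¹, by
        simp only [eq, ContinuousLinearMap.proj_apply]
        rw [hy'.1, (hk' k₁).1, (hk' k₂).1, e, hμ]
        ext i
        fin_cases i <;> simp [vec] <;> ring⟩
    have e1 : (l : ℂ) * ρ - (((1 - s : ℝ) : ℂ) * (rt k₁ * ρ) + s * (rt k₂ * ρ)) = (l - μ) * ρ := by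
      rw [hμ]
      push_cast
      ring
    have h2 : ‖rt k₁ * (ρ : ℂ) - rt k₂ * ρ‖ ≤ 2 * ρ := by
      have := norm_sub_le (rt k₁ * (ρ : ℂ)) (rt k₂ * ρ)
      rw [hn, hn] at this
      linarith
    have h3 : l - μ.re ≤ ‖(l : ℂ) - μ‖ := by
      simpa using re_le_norm ((l : ℂ) - μ)
    rw [e1, norm_mul, norm_real, Real.norm_of_nonneg hρ.le] at h1
    have h4 := mul_le_mul_of_nonneg_left h2
      (by linarith : 0 ≤ (1 - Real.cos (2 * Real.pi / pn)) / 4)
    have h5 := mul_le_mul_of_nonneg_right h3 hρ.le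
    nlinarith

end
section

open scoped ContDiff ComplexConjugate Topology

open Set Complex Filter Metric

theorem one_sub_rt_ANearInf : 0 < ‖1 - rt 1‖ := by
  refine norm_pos_iff.2 fun h => ?_
  have h1 : Chord (rt 1) := ⟨1, 1, 0, one_ne_zero, one_ne_zero, ⟨le_rfl, zero_le_one⟩, by simp⟩
  have h2 := h1.re_le.trans_lt cos_lt_one_37
  rw [← sub_eq_zero.1 h] at h2
  simp at h2

theorem nearInfS : NearInfStmt := by
  intro hC P _ _ Y hY r
  have hne : ∀ u : sphere (0 : W) 1, (u : W) ≠ 0 := fun u => ne_zero_of_mem_unit_sphere u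
  have hF : Fam {0}ᶜ 1 V fun a : P × sphere (0 : W) 1 => Y a.1 a.2 :=
    hY.fam.param (g := fun a : P × sphere (0 : W) 1 => (a.1, (⟨a.2, hne a.2⟩ : ({0}ᶜ : Set W))))
      (by fun_prop)
  have hU := fun a : P × sphere (0 : W) 1 => hY.emb a.1 a.2 (hne a.2)
  obtain ⟨m, hm, hlow⟩ := low_ANearInf hF.jc hU fun a => hY.base a.1 a.2 (hne a.2)
  have hs := one_sub_rt_ANearInf
  have hcos := cos_lt_one_37
  obtain ⟨ε, hε, hεm, hεr⟩ : ∃ ε : ℝ, 0 < ε ∧ ε < m ∧ ε * (2 + 2 * |r|) < ‖1 - rt 1‖ * m := by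
    have h1 : 0 < 2 + 2 * |r| := by positivity
    refine ⟨min (m / 2) (‖1 - rt 1‖ * m / 2 / (2 + 2 * |r|)), by positivity,
      (min_le_left _ _).trans_lt (half_lt_self hm), ?_⟩
    refine (mul_le_mul_of_nonneg_right (min_le_right _ _) h1.le).trans_lt ?_
    rw [div_mul_cancel₀ _ h1.ne']
    exact half_lt_self (by positivity)
  obtain ⟨δ₁, hδ₁, H₁⟩ := hC _ _ (0, 1) (1, 0) hF hU (by simp [det2])
    ((1 - Real.cos (2 * Real.pi / pn)) / 4) (by linarith) m hm
  obtain ⟨δ₂, hδ₂, H₂⟩ := tube_ANearInf hF.jc hε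
  refine ⟨(min δ₁ δ₂)⁻¹, fun p b x y l hb hR hl0 hl1 hk hx => ?_⟩
  have ht : 0 < ‖b‖ := norm_pos_iff.2 hb
  have htc : (‖b‖ : ℂ) ≠ 0 := ofReal_ne_zero.2 ht.ne'
  have hδ : ‖b‖⁻¹ ≤ min δ₁ δ₂ := inv_le_of_inv_le₀ (lt_min hδ₁ hδ₂) hR
  obtain ⟨u, hu⟩ : ∃ u : sphere (0 : W) 1, b = (‖b‖ : ℂ) • (u : W) :=
    ⟨⟨(‖b‖ : ℂ)⁻¹ • b, by
      rw [mem_sphere_zero_iff_norm, norm_smul, norm_inv, norm_real, norm_norm,
        inv_mul_cancel₀ ht.ne']⟩, (smul_inv_smul₀ htc b).symm⟩
  generalize ‖b‖ = t at ht htc hδ hu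
  subst hu
  have key : ∀ (c : ℂ) (v : W), c ≠ 0 → pr (Y p (c • (t : ℂ) • (u : W)) (1, 1)) = pt v →
      ∃ e : ℂ, e ≠ 0 ∧ Y p u ((c * t)⁻¹, 1) = e • vec 1 v := by
    intro c v hc h
    have hct := mul_ne_zero hc htc
    have e : ((1, c * t) : W) = (c * t) • (((c * t)⁻¹, 1) : W) := by
      rw [Prod.smul_mk, smul_eq_mul, smul_eq_mul, mul_inv_cancel₀ hct, mul_one]
    rw [smul_smul, hY.par p u _ (hne u) hct, e, (hU (p, u)).1.2, pr_smul hct] at h
    exact exists_smul_of_pr_eq ((hU (p, u)).2.2 _ (ne_ANearInf _)) (vec_ne_ANearInf v) h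
  choose e he hek using fun k => key (rt k) _ (rt_ne k) (hk k)
  obtain ⟨e', he', hex⟩ := key l x (ofReal_ne_zero.2 hl0.ne') hx
  obtain ⟨j, π, hj, hπ, hw⟩ := hlow (p, u)
  have hz : ∀ k, ‖(rt k * t)⁻¹‖ ≤ min δ₁ δ₂ := fun k => by
    rwa [norm_inv, norm_mul, norm_rt, one_mul, norm_real, Real.norm_of_nonneg ht.le]
  have hcl : ∀ k i, ‖e k * vec 1 (rt k • y) i - Y p u (0, 1) i‖ ≤ ε := fun k i => by
    have := H₂ (p, u) _ ((hz k).trans (min_le_right _ _))
    rw [hek] at this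
    exact (norm_le_pi_norm (e k • vec 1 (rt k • y) - Y p u (0, 1)) i).trans this
  have hc0 : ∀ k, ‖e k - Y p u (0, 1) 0‖ ≤ ε := fun k => by simpa [vec] using hcl k 0
  have hcj : ∀ k, ‖e k * (rt k * π y) - Y p u (0, 1) j‖ ≤ ε := fun k => by
    have := hcl k j
    rwa [hj, map_smul, smul_eq_mul] at this
  change m ≤ ‖Y p u (0, 1) j‖ at hw
  constructor
  · by_contra hr
    have h1 : ‖π y‖ ≤ |r| := (hπ y).trans ((not_le.1 hr).le.trans (le_abs_self r))
    have h2 : (1 - rt 1) * Y p u (0, 1) j = rt 1 * (e 0 * (rt 0 * π y) - Y p u (0, 1) j) -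
        (e 1 * (rt 1 * π y) - Y p u (0, 1) j) +
        rt 1 * ((e 1 - Y p u (0, 1) 0) - (e 0 - Y p u (0, 1) 0)) * π y := by
      rw [rt_zero]
      ring
    have h3 : ‖(1 - rt 1) * Y p u (0, 1) j‖ ≤ ε + ε + (ε + ε) * |r| := by
      rw [h2]
      refine norm_add_le_of_le (norm_sub_le_of_le ?_ (hcj 1)) ?_
      · rw [norm_mul, norm_rt, one_mul]
        exact hcj 0
      · rw [norm_mul, norm_mul, norm_rt, one_mul]
        exact mul_le_mul (norm_sub_le_of_le (hc0 1) (hc0 0)) h1 (norm_nonneg _) (by positivity)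
    rw [norm_mul] at h3
    have h4 := mul_le_mul_of_nonneg_left hw hs.le
    linarith
  · intro μ hμ hy
    have hre := hμ.re_le
    obtain ⟨k₁, k₂, v, -, -, hv, hμ⟩ := hμ
    have hπy : π y ≠ 0 := fun h0 => by
      have := hcj 0
      rw [h0, mul_zero, mul_zero, zero_sub, norm_neg] at this
      linarith
    have hq : ∀ z : ℂ, ((0, 1) : W) + z • ((1, 0) : W) = (z, 1) := fun z => by simp
    have hn : ∀ k, ((ContinuousLinearMap.proj j : V →L[ℂ] ℂ) (Y p u ((rt (-k) * t)⁻¹, 1)))⁻¹ •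
        Y p u ((rt (-k) * t)⁻¹, 1) = (π y)⁻¹ • vec (rt k) y := fun k => by
      have h1 : vec 1 (rt (-k) • y) = rt (-k) • vec (rt k) y := by
        funext i
        fin_cases i <;> simp [vec, mul_comm (rt (-k)) (rt k), rt_mul_neg]
      rw [hek, ContinuousLinearMap.proj_apply, Pi.smul_apply, hj, map_smul, h1, smul_smul,
        smul_smul, smul_eq_mul, smul_eq_mul]
      congr 1
      have := he (-k)
      have := rt_ne (-k)
      field_simp
    have h1 := H₁ (p, u) (ContinuousLinearMap.proj j) (l * t)⁻¹ (rt (-k₁) * t)⁻¹ (rt (-k₂) * t)⁻¹ v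
      (ContinuousLinearMap.opNorm_le_bound _ zero_le_one fun a => by
        rw [one_mul]
        exact norm_le_pi_norm a j) hw ((hz _).trans (min_le_left _ _))
      ((hz _).trans (min_le_left _ _)) hv ⟨(π y)⁻¹ * μ * e'⁻¹, by
        rw [hq, hq, hq]
        change _ • Y p u _ = _ • _ • Y p u _ + _ • _ • Y p u _
        rw [hn, hn, hex, smul_smul, mul_assoc, inv_mul_cancel₀ he', mul_one, smul_comm _ (π y)⁻¹,
          smul_comm _ (π y)⁻¹, ← smul_add, mul_smul]
        congr 1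
        rw [hy]
        funext i
        fin_cases i
        · simp [vec, hμ]
        · simp [vec]
          ring
        · simp [vec]
          ring⟩
    have hi : ∀ k, (rt (-k) * t)⁻¹ = rt k * (t : ℂ)⁻¹ := fun k => by
      rw [mul_inv, inv_eq_of_mul_eq_one_left (rt_mul_neg k)]
    have h2 : ((l : ℂ) * t)⁻¹ - (((1 - v : ℝ) : ℂ) * (rt k₁ * (t : ℂ)⁻¹) + v * (rt k₂ * (t : ℂ)⁻¹)) =
        (((l⁻¹ : ℝ) : ℂ) - μ) * (t : ℂ)⁻¹ := by
      rw [hμ]
      push_cast
      ring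
    rw [hi, hi, h2, ← sub_mul, norm_mul, norm_mul, ← mul_assoc] at h1
    have h3 := le_of_mul_le_mul_right h1 (norm_pos_iff.2 (inv_ne_zero htc))
    have h4 : ‖rt k₁ - rt k₂‖ ≤ 1 + 1 := norm_sub_le_of_le (norm_rt k₁).le (norm_rt k₂).le
    have h5 := re_le_norm (((l⁻¹ : ℝ) : ℂ) - μ)
    rw [sub_re, ofReal_re] at h5
    have h6 : 1 < l⁻¹ := (one_lt_inv₀ hl0).2 hl1
    have h7 := mul_le_mul_of_nonneg_left h4
      (show 0 ≤ (1 - Real.cos (2 * Real.pi / pn)) / 4 by linarith)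
    linarith

end
section

open scoped ContDiff ComplexConjugate Topology

open Set Complex Filter Metric

theorem pr_hat_Glue (k : Zp) (x : V) : pr (hat k x) = actM k (pr x) := by
  funext a b
  have h : ∀ j, ‖hat k x j‖ = ‖x j‖ := fun j => by rw [hat, norm_mul, norm_rt, one_mul]
  simp only [pr, actM, h]
  rw [hat, hat, map_mul, conj_rt, mul_sub, sub_eq_add_neg, rt_add]
  ring

theorem sys_Glue (hG : GromovStmt) (hFr : FrameStmt) {f : W → W} {F F' : V → V} (hL : Lf f F F')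
    {ac : Zp → Symp 1 → Symp 1} {om0 om1 : Symp 1} {J : Symp 1 × UI → V → Op}
    (hJ : JFam F ac om0 om1 J) {P : Type} [TopologicalSpace P] [CompactSpace P]
    {om : P × UI → Symp 1} (hom : Continuous om) (h0 : ∀ p, om (p, 0) = om0)
    (h1 : ∀ p, om (p, 1) = om1) :
    ∃ (φ : P × UI → Fr) (C : P × UI → Op) (Y : P × UI → W → W → V), Sys φ C Y ∧
      (∀ a x, x ≠ 0 → ∀ v, (φ a).J x v = J (om a, a.2) x v) ∧
      ∀ p p' k, (∀ s, om (p', s) = ac k (om (p, s))) →
        ∀ s u, C (p', s) (hat k u) = hat k (C (p, s) u) := by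
  obtain ⟨φ, hφ, hφJ, hnat⟩ := hFr P (fun a => J (om a, a.2))
    (hJ.sm.param (hom.prodMk continuous_snd)) (fun a => hJ.sq _) (fun a => hJ.vert _)
    (fun a => hJ.scale _) (fun p x hx v => by simpa only [h1] using hJ.stop x hx v)
  have hstd : ∀ p x, x ≠ 0 → ∀ v, (φ (p, 1)).J x v = I • v := fun p x hx v => by
    rw [hφJ _ x hx]
    simpa only [h1] using hJ.stop x hx v
  obtain ⟨U, hU, hU'⟩ := hG P φ om hφ hom
    (fun a x hx v hv => by rw [hφJ a x hx]; exact hJ.tame (om a, a.2) x hx v hv) hstd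
  let C : P × UI → Op := fun a => ((φ a).B e0).comp ((φ (a.1, 0)).A e0)
  have hC : ∀ a v, C a v = (φ a).B e0 ((φ (a.1, 0)).A e0 v) := fun _ _ => rfl
  have hF0 : F e0 = e0 := hL.near.self_of_nhds
  have hdF : fderiv ℝ F e0 = ContinuousLinearMap.id ℝ V :=
    (EventuallyEq.fderiv_eq (f := id) hL.near).trans fderiv_id
  have hJ0 : ∀ p v, (φ (p, 0)).J e0 v = I • v := fun p v => by
    have := hJ.start e0 e0_ne v
    rw [hF0, hdF] at this
    rw [hφJ _ _ e0_ne, h0]
    exact this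
  have hB0 : ∀ a v, (φ a).B e0 v 0 = v 0 := by
    rintro ⟨p, s⟩ v
    have h := hnat p p e0 e0
      (((ContinuousLinearMap.proj 0 : V →L[ℂ] ℂ).smulRight e0).restrictScalars ℝ)
      (fun s v => by
        change J _ e0 (v 0 • e0) = J _ e0 v 0 • e0
        rw [hJ.vert _ _ e0_ne, hJ.base, mul_smul]) s v
    change (φ (p, s)).B e0 (v 0 • e0) = (φ (p, s)).B e0 v 0 • e0 at h
    rw [(φ (p, s)).vert _ e0_ne] at h
    simpa [e0, vec] using (congrFun h 0).symm
  have hCb : ∀ a v, C a v 0 = v 0 := fun a v => by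
    rw [hC, hB0, ← hB0 (a.1, 0) ((φ (a.1, 0)).A e0 v), (φ (a.1, 0)).BA _ e0_ne]
  have hCi : ∀ a, Function.Injective (C a) := fun a =>
    (Function.LeftInverse.injective ((φ a).AB _ e0_ne)).comp
      (Function.LeftInverse.injective ((φ (a.1, 0)).BA _ e0_ne))
  have hCv : ∀ a (c : ℂ), C a (c • e0) = c • e0 := fun a c => by
    rw [hC]
    conv_lhs => rw [← (φ (a.1, 0)).vert _ e0_ne c, (φ (a.1, 0)).AB _ e0_ne]
    exact (φ a).vert _ e0_ne c
  have hjet : ∀ a (v : W), v ≠ 0 → (e0, C a (vec 0 v)) ∈ Jet := fun a v hv =>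
    ⟨e0_ne, fun c hc => vec_zero_ne_Glue hv c (hCi a (hc.trans (hCv a c).symm))⟩
  have hCc : Continuous C := by
    have b1 : Continuous fun a => (φ a).B e0 :=
      (hφ 0).1.comp_continuous (f := fun a : P × UI => (a, e0)) (by fun_prop)
        fun _ => ⟨mem_univ _, e0_ne⟩
    have b2 : Continuous fun a => (φ a).A e0 :=
      (hφ 0).2.comp_continuous (f := fun a : P × UI => (a, e0)) (by fun_prop)
        fun _ => ⟨mem_univ _, e0_ne⟩
    exact b1.clm_comp (b2.comp (f := fun a : P × UI => (a.1, (0 : UI))) (by fun_prop))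
  classical
  refine ⟨φ, C, fun a v => if h : v ≠ 0 then U (a, ⟨_, hjet a v h⟩) else 0,
    ⟨hφ, hstd, fun a v => ?_, fun p v => (φ (p, 0)).BA _ e0_ne v, hCb, hCi, ?_, fun a v hv => ?_⟩,
    hφJ, fun p p' k h s u => ?_⟩
  · have e : (φ (a.1, 0)).A e0 (I • v) = I • (φ (a.1, 0)).A e0 v := by
      rw [← hJ0 a.1 v, Fr.J, (φ (a.1, 0)).AB _ e0_ne]
    rw [hC, hC, e, Fr.J, (φ a).AB _ e0_ne]
  · refine (hU.param (g := fun b : (P × UI) × ({0}ᶜ : Set W) => (b.1, ⟨_, hjet b.1 b.2 b.2.2⟩))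
      (continuous_fst.prodMk (Continuous.subtype_mk (continuous_const.prodMk
        ((hCc.comp continuous_fst).clm_apply (continuous_vec_Glue.comp
          (continuous_subtype_val.comp continuous_snd)))) _))).congr fun b x _ => ?_
    rw [dif_pos (show (b.2 : W) ≠ 0 from b.2.2)]
  · simp only [dif_pos hv]
    exact hU' (a, ⟨_, hjet a v hv⟩)
  · have hB := hnat p p' e0 e0 ((hatL k : V →L[ℂ] V).restrictScalars ℝ) fun s v => by
      change J (om (p', s), s) e0 (hat k v) = hat k (J (om (p, s), s) e0 v)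
      rw [h, ← hJ.equiv k _ s e0 e0_ne v, hat_e0]
    change ∀ s v, (φ (p', s)).B e0 (hat k v) = hat k ((φ (p, s)).B e0 v) at hB
    have hA : (φ (p', 0)).A e0 (hat k u) = hat k ((φ (p, 0)).A e0 u) := by
      conv_lhs => rw [← (φ (p, 0)).BA _ e0_ne u, ← hB, (φ (p', 0)).AB _ e0_ne]
    rw [hC, hC, hA, hB]

end
end Pool.Agent.MP_2fc7fa_gt.N.Fp.Q
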