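import Pool.Agent.MP_2fc7fa_gt.Q.Defs
import Pool.Agent.MP_2fc7fa_gt.I.Start

noncomputable section

namespace Pool.Agent.MP_2fc7fa_gt.N.Fp.Q

variable [PO]

section

open scoped ComplexConjugate Topology

open Set Complex Filter

section

variable {D D' R : Type} [CommRing R]

end

/-- The number of the sector that contains `z`. -/
def sec (z : ℂ) : Zp := ((⌊pn * arg z / (2 * Real.pi)⌋ : ℤ) : Zp)

/-- The integral cocycle of degree two on `ZMod pn`. -/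
def tc : Co Zp ℤ := fun x =>
  ((x 1 - x 0).valMinAbs + (x 2 - x 1).valMinAbs - (x 2 - x 0).valMinAbs) / pn

/-- The Thom cochain on `ℂ × ℝ`. -/
def th3 : Co (ℂ × ℝ) ℤ := cup 2 (pb (fun e => sec e.1) tc) (pb Prod.snd dH)

/-- The Thom cochain on `ℂ × ℝ × ℂ × ℝ`. -/
def th6 : Co (ℂ × ℝ × ℂ × ℝ) ℤ :=
  cup 3 (pb (fun e => (e.1, e.2.1)) th3) (pb (fun e => e.2.2) th3)

/-- `l = sa m l * ee m + sb m l * ee (m + 1)`. -/
def sa (m : ℤ) (l : ℂ) : ℝ := -(l * conj (ee (m + 1))).im / Real.sin (2 * Real.pi / pn)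

def sb (m : ℤ) (l : ℂ) : ℝ := (l * conj (ee m)).im / Real.sin (2 * Real.pi / pn)

/-- The function that cuts out the arc (`κ = 1`) or the chord (`κ = 0`). -/
def FF (κ : W × W → ℝ) (m : ℤ) (e : W × W) : ℝ :=
  κ e * (nsq e.2 - nsq e.1) + (1 - κ e) * (sa m (lam e) + sb m (lam e) - 1)

def inS (m : ℤ) (e : W × W) : Prop := 0 < sa m (lam e) ∧ 0 < sb m (lam e)

open Classical in
def eta (κ : W × W → ℝ) (m : ℤ) : Co (W × W) ℤ :=
  fun x => if inS m (x 0) ∧ inS m (x 1) then pb (FF κ m) dH x else 0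

def phm (e : (W × W) × Zp) : Zp := if det2 e.1.1 e.1.2 = 0 then 2 * e.2 else sec (det2 e.1.1 e.1.2)

/-- The cochain of degree three dual to an arc. -/
def yy (κ : W × W → ℝ) (m : ℤ) : Co ((W × W) × Zp) ℤ :=
  cup 2 (pb phm tc) (pb Prod.fst (eta κ m))

/-- The support of `yy`. -/
def CC (κ : W × W → ℝ) (m : ℤ) (e : W × W) : Prop :=
  ∃ a b : ℝ, 0 ≤ a ∧ 0 ≤ b ∧ e.2 = (a * ee m + b * ee (m + 1)) • e.1 ∧
    κ e * (nsq e.2 - nsq e.1) + (1 - κ e) * (a + b - 1) = 0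

def vv (z₀ : W) (k : Zp) (p : Fin 6 → ℝ) : W :=
  ((2 * (1 - p 0) : ℝ) * ee (p 1 - 1 / 2) * z₀.1, (2 * p 0 : ℝ) * rt k * ee (p 2 - 1 / 2) * z₀.2)

def aa (z₀ : W) (T δ : ℝ) (k : Zp) (p : Fin 6 → ℝ) (i : Fin 3) : W :=
  Real.exp (hh T δ p i) • vv z₀ k p

def bb (k : Zp) (p : Fin 6 → ℝ) : Zp :=
  if p 0 = 1 then k + (if p 2 = 1 then 1 else 0) else if p 1 = 1 then 1 else 0

end
section

open scoped ComplexConjugate Topology

open Set Complex Filter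

theorem ee_eq_CSec (u : ℝ) : ee u = exp ((2 * Real.pi * u / pn : ℝ) * I) := by
  rw [ee]
  congr 1
  push_cast
  ring

theorem rt_ne_zero (k : Zp) : rt k ≠ 0 := by
  intro h
  have h1 := norm_rt k
  rw [h, norm_zero] at h1
  exact zero_ne_one h1

theorem rt_injective : Function.Injective rt := ZMod.injective_stdAddChar

theorem rt_intCast (j : ℤ) : rt (j : Zp) = ee j := by
  rw [rt, ZMod.stdAddChar_coe, ee]
  simp

theorem ee_add (u v : ℝ) : ee (u + v) = ee u * ee v := by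
  rw [ee, ee, ee, ← Complex.exp_add]
  congr 1
  push_cast
  ring

theorem ee_zero : ee 0 = 1 := by simp [ee]

theorem norm_ee (u : ℝ) : ‖ee u‖ = 1 := by
  rw [ee_eq_CSec, Complex.norm_exp_ofReal_mul_I]

theorem ee_ne_zero (u : ℝ) : ee u ≠ 0 := Complex.exp_ne_zero _

theorem conj_ee (u : ℝ) : conj (ee u) = ee (-u) := by
  apply mul_left_cancel₀ (ee_ne_zero u)
  rw [← ee_add, add_neg_cancel, ee_zero, Complex.mul_conj', norm_ee]
  simp

theorem ee_re (u : ℝ) : (ee u).re = Real.cos (2 * Real.pi * u / pn) := by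
  rw [ee_eq_CSec, Complex.exp_ofReal_mul_I_re]

theorem ee_im (u : ℝ) : (ee u).im = Real.sin (2 * Real.pi * u / pn) := by
  rw [ee_eq_CSec, Complex.exp_ofReal_mul_I_im]

theorem continuous_ee : Continuous ee := by
  unfold ee
  fun_prop

theorem hasDerivAt_ee (u : ℝ) : HasDerivAt ee (2 * Real.pi * I / pn * ee u) u := by
  have h1 : HasDerivAt (fun v : ℝ => (v : ℂ)) 1 u := Complex.ofRealCLM.hasDerivAt
  have h2 := ((h1.const_mul (2 * Real.pi * I : ℂ)).div_const pn).cexp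
  have h3 : 2 * Real.pi * I / pn * ee u =
      exp (2 * Real.pi * I * u / pn) * (2 * Real.pi * I * 1 / pn) := by
    rw [ee]
    ring
  rw [h3]
  exact h2

/-- A number of modulus less than one that gives a root of unity is zero. -/
theorem ee_eq_rt {u : ℝ} {k : Zp} (hu : |u| < 1) (h : ee u = rt k) : u = 0 ∧ k = 0 := by
  obtain ⟨j, rfl⟩ := ZMod.intCast_surjective k
  have h' := h
  rw [rt_intCast, ee, ee, Complex.exp_eq_exp_iff_exists_int] at h'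
  obtain ⟨n, hn⟩ := h'
  have h2 : (2 * Real.pi * I : ℂ) ≠ 0 := Complex.two_pi_I_ne_zero
  have h3 : (u : ℂ) = ((j + pn * n : ℤ) : ℂ) := by
    apply mul_left_cancel₀ h2
    push_cast at hn ⊢
    linear_combination pn * hn + 2 * Real.pi * I * (j - u) * mul_inv_cancel₀ pn_neC
  have h4 : u = ((j + pn * n : ℤ) : ℝ) := by exact_mod_cast h3
  have h5 : j + pn * n = 0 := by
    rw [h4] at hu
    exact Int.abs_lt_one_iff.1 (by exact_mod_cast hu)
  have h6 : u = 0 := by rw [h4, h5, Int.cast_zero]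
  refine ⟨h6, rt_injective ?_⟩
  rw [← h, h6, ee_zero, rt_zero]

theorem sec_zero : sec 0 = 0 := by simp [sec]

/-- Write `z = r * ee u`; `arg` differs from `2 π u / pn` by an integer multiple of `2 π`. -/
theorem sec_ee {r : ℝ} (hr : 0 < r) (u : ℝ) : sec (r * ee u) = ((⌊u⌋ : ℤ) : Zp) := by
  have hpi : (2 * Real.pi) ≠ 0 := by positivity
  obtain ⟨n, hn⟩ : ∃ n : ℤ, arg (r * ee u) = 2 * Real.pi * u / pn + 2 * Real.pi * n := by
    refine ⟨⌊(Real.pi - 2 * Real.pi * u / pn) / (2 * Real.pi)⌋, ?_⟩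
    rw [ee_eq_CSec, Complex.exp_mul_I, ← Complex.arg_mul_cos_add_sin_mul_I_sub hr]
    ring
  have h1 : pn * arg (r * ee u) / (2 * Real.pi) = u + ((pn * n : ℤ) : ℝ) := by
    rw [hn]
    have := pn_ne
    push_cast
    field_simp
  rw [sec, h1, Int.floor_add_intCast, Int.cast_add, Int.cast_mul]
  have h2 : ((pn : ℤ) : Zp) = 0 := (Int.cast_natCast _).trans cast_pn
  rw [h2, zero_mul, add_zero]

theorem polar_CSec (z : ℂ) : z = (‖z‖ : ℝ) * ee (pn * arg z / (2 * Real.pi)) := by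
  have hpi : (2 * Real.pi) ≠ 0 := by positivity
  have h1 : 2 * Real.pi * (pn * arg z / (2 * Real.pi)) / pn = arg z := by
    have := pn_ne
    field_simp
  rw [ee_eq_CSec, h1, Complex.norm_mul_exp_arg_mul_I]

theorem sec_rt_mul (k : Zp) {z : ℂ} (hz : z ≠ 0) : sec (rt k * z) = sec z + k := by
  obtain ⟨j, rfl⟩ := ZMod.intCast_surjective k
  have h1 : rt (j : Zp) * z = (‖z‖ : ℝ) * ee (pn * arg z / (2 * Real.pi) + j) := by
    rw [ee_add, ← mul_assoc, ← polar_CSec, rt_intCast, mul_comm]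
  rw [h1, sec_ee (norm_pos_iff.2 hz), Int.floor_add_intCast, Int.cast_add, sec]

/-- The numerator of `tc` is divisible by `pn`. -/
theorem tc_mul (x : ℕ → Zp) : pn * tc x =
    (x 1 - x 0).valMinAbs + (x 2 - x 1).valMinAbs - (x 2 - x 0).valMinAbs := by
  apply Int.mul_ediv_cancel'
  apply (ZMod.intCast_zmod_eq_zero_iff_dvd _ pn).1
  push_cast
  ring

theorem tc_dg : Dg 2 tc := by
  intro x y h
  simp only [tc, h 0 (by norm_num), h 1 (by norm_num), h 2 le_rfl]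

theorem tc_nm : Nm 2 tc := by
  intro x j hj h
  obtain rfl | rfl : j = 0 ∨ j = 1 := by omega
  · have h' : x 0 = x 1 := h
    simp [tc, h']
  · have h' : x 1 = x 2 := h
    simp [tc, h']

theorem tc_dd : dd 3 tc = 0 := by
  funext x
  have h0 := tc_mul (skip 0 x)
  have h1 := tc_mul (skip 1 x)
  have h2 := tc_mul (skip 2 x)
  have h3 := tc_mul (skip 3 x)
  have e0 : skip 0 x 0 = x 1 ∧ skip 0 x 1 = x 2 ∧ skip 0 x 2 = x 3 := ⟨rfl, rfl, rfl⟩
  have e1 : skip 1 x 0 = x 0 ∧ skip 1 x 1 = x 2 ∧ skip 1 x 2 = x 3 := ⟨rfl, rfl, rfl⟩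
  have e2 : skip 2 x 0 = x 0 ∧ skip 2 x 1 = x 1 ∧ skip 2 x 2 = x 3 := ⟨rfl, rfl, rfl⟩
  have e3 : skip 3 x 0 = x 0 ∧ skip 3 x 1 = x 1 ∧ skip 3 x 2 = x 2 := ⟨rfl, rfl, rfl⟩
  rw [e0.1, e0.2.1, e0.2.2] at h0
  rw [e1.1, e1.2.1, e1.2.2] at h1
  rw [e2.1, e2.2.1, e2.2.2] at h2
  rw [e3.1, e3.2.1, e3.2.2] at h3
  simp only [dd, Finset.sum_range_succ, Finset.sum_range_zero, Pi.zero_apply]
  apply mul_left_cancel₀ pn_neZ
  linear_combination h0 - h1 + h2 - h3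

theorem tc_add (x : ℕ → Zp) (k : Zp) : tc (fun j => x j + k) = tc x := by
  simp only [tc, add_sub_add_right_eq_sub]

theorem tc_two_CSec (k : Zp) (x : ℕ → Zp) (h : ∀ j, x j = k ∨ x j = k + 1) : tc x = 0 := by
  have hp := pn_le
  have v0 : (0 : Zp).valMinAbs = 0 := ZMod.valMinAbs_zero _
  have v1 : (1 : Zp).valMinAbs = 1 :=
    (ZMod.valMinAbs_spec _ _).2 ⟨Int.cast_one.symm, by omega, by omega⟩
  have v2 : (-1 : Zp).valMinAbs = -1 :=
    (ZMod.valMinAbs_spec _ _).2 ⟨by push_cast; rfl, by omega, by omega⟩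
  have s1 : k + 1 - k = 1 := by ring
  have s2 : k - (k + 1) = -1 := by ring
  have h1 := tc_mul x
  rcases h 0 with a | a <;> rcases h 1 with b | b <;> rcases h 2 with c | c <;>
    rw [a, b, c] at h1 <;> simp only [sub_self, s1, s2, v0, v1, v2] at h1 <;>
    exact (mul_eq_zero.1 (h1.trans (by norm_num))).resolve_left pn_neZ

/-- Near `z ≠ 0` the function `sec` takes two adjacent values `k`, `k + 1`. -/
theorem sec_lz {z : ℂ} (hz : z ≠ 0) : LZ (pb sec tc) (𝓝 z) := by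
  have hc : ContinuousAt (fun w : ℂ => pn * arg (w / z) / (2 * Real.pi)) z := by
    have h1 : ContinuousAt (fun w : ℂ => arg (w / z)) z := by
      refine ContinuousAt.comp (g := arg) (f := fun w : ℂ => w / z) ?_ (by fun_prop)
      apply Complex.continuousAt_arg
      rw [div_self hz]
      exact Complex.one_mem_slitPlane
    exact (h1.const_mul pn).div_const _
  have h0 : pn * arg (z / z) / (2 * Real.pi) = 0 := by simp [div_self hz]
  have hU : ∀ᶠ w in 𝓝 z, pn * arg (w / z) / (2 * Real.pi) ∈ Ioo (-(1 / 2) : ℝ) (1 / 2) := by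
    apply hc.eventually_mem
    rw [h0]
    exact Ioo_mem_nhds (by norm_num) (by norm_num)
  refine ⟨_, hU.and (eventually_ne_nhds hz), fun x hx => ?_⟩
  set u := pn * arg z / (2 * Real.pi) with hu
  refine tc_two_CSec ((⌊u - 1 / 2⌋ : ℤ) : Zp) _ fun j => ?_
  obtain ⟨⟨ha, hb⟩, hw⟩ := hx j
  set v := pn * arg (x j / z) / (2 * Real.pi) with hv
  have h1 : x j = ((‖z‖ * ‖x j / z‖ : ℝ) : ℂ) * ee (u + v) := by
    rw [ee_add, Complex.ofReal_mul, mul_mul_mul_comm, ← polar_CSec, ← polar_CSec]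
    field_simp
  have h2 : sec (x j) = ((⌊u + v⌋ : ℤ) : Zp) := by
    rw [← sec_ee (mul_pos (norm_pos_iff.2 hz) (norm_pos_iff.2 (div_ne_zero hw hz))), ← h1]
  have h3 : ⌊u - 1 / 2⌋ ≤ ⌊u + v⌋ := Int.floor_le_floor (by linarith)
  have h4 : ⌊u + v⌋ ≤ ⌊u - 1 / 2⌋ + 1 := by
    rw [← Int.floor_add_one]
    exact Int.floor_le_floor (by linarith)
  rw [h2]
  obtain h5 | h5 : ⌊u + v⌋ = ⌊u - 1 / 2⌋ ∨ ⌊u + v⌋ = ⌊u - 1 / 2⌋ + 1 := by omega
  · left
    rw [h5]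
  · right
    rw [h5, Int.cast_add, Int.cast_one]

end
section

open scoped ComplexConjugate Topology

open Set Complex Filter

theorem sin_pos_CGeo {u : ℝ} (h0 : 0 < u) (h1 : u < pn / 2) :
    0 < Real.sin (2 * Real.pi * u / pn) := by
  have hpi := Real.pi_pos
  have hq := pn_pos
  apply Real.sin_pos_of_pos_of_lt_pi
  · positivity
  · have h2 := mul_lt_mul_of_pos_left h1 hpi
    rw [div_lt_iff₀ hq]
    linarith

theorem s_pos_CGeo : 0 < Real.sin (2 * Real.pi / pn) := by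
  have h := sin_pos_CGeo (u := 1) one_pos (by linarith [pn_ge])
  rwa [mul_one] at h

theorem im_pos_CGeo {u : ℝ} (h0 : 0 < u) (h1 : u < pn / 2) : 0 < (ee u).im := by
  rw [ee_im]
  exact sin_pos_CGeo h0 h1

theorem im_neg_CGeo (u : ℝ) : (ee (-u)).im = -(ee u).im := by
  rw [← conj_ee, Complex.conj_im]

theorem im_one_CGeo : (ee 1).im = Real.sin (2 * Real.pi / pn) := by
  rw [ee_im, mul_one]

theorem mul_conj_CGeo (u v : ℝ) : ee u * conj (ee v) = ee (u - v) := by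
  rw [conj_ee, ← ee_add, sub_eq_add_neg]

theorem im_comb_CGeo (a b u v : ℝ) :
    ((a : ℂ) * ee u + b * ee v).im = a * (ee u).im + b * (ee v).im := by
  rw [Complex.add_im, Complex.im_ofReal_mul, Complex.im_ofReal_mul]

theorem nsq_rt_CGeo (k : Zp) (x : W) : nsq (rt k • x) = nsq x := by
  rw [nsq_smul, norm_rt, one_pow, one_mul]

theorem sa_sb (m : ℤ) (l : ℂ) : l = sa m l * ee m + sb m l * ee (m + 1) := by
  have hs := s_pos_CGeo.ne'
  have h1 : conj (ee m) * ee m = 1 := by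
    rw [mul_comm, mul_conj_CGeo, sub_self, ee_zero]
  have h2 : ∀ w : ℂ, w = ((-(w * conj (ee 1)).im / Real.sin (2 * Real.pi / pn) : ℝ) : ℂ) +
      ((w.im / Real.sin (2 * Real.pi / pn) : ℝ) : ℂ) * ee 1 := by
    intro w
    apply Complex.ext
    · rw [Complex.add_re, Complex.ofReal_re, Complex.re_ofReal_mul, Complex.mul_im,
        Complex.conj_im, Complex.conj_re, im_one_CGeo]
      field_simp
      ring
    · rw [Complex.add_im, Complex.ofReal_im, Complex.im_ofReal_mul, im_one_CGeo]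
      field_simp
      ring
  have h3 := h2 (l * conj (ee m))
  rw [sa, sb, ee_add, map_mul, ← mul_assoc l]
  linear_combination ee m * h3 - l * h1

theorem sa_comb (m : ℤ) (a b : ℝ) : sa m (a * ee m + b * ee (m + 1)) = a := by
  have hs := s_pos_CGeo.ne'
  have h1 : (m : ℝ) - (m + 1) = -1 := by ring
  rw [sa, add_mul, mul_assoc, mul_assoc, mul_conj_CGeo, mul_conj_CGeo, im_comb_CGeo, sub_self,
    ee_zero, h1, im_neg_CGeo, im_one_CGeo, Complex.one_im]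
  field_simp
  ring

theorem sb_comb (m : ℤ) (a b : ℝ) : sb m (a * ee m + b * ee (m + 1)) = b := by
  have hs := s_pos_CGeo.ne'
  have h1 : (m : ℝ) + 1 - m = 1 := by ring
  rw [sb, add_mul, mul_assoc, mul_assoc, mul_conj_CGeo, mul_conj_CGeo, im_comb_CGeo, sub_self,
    ee_zero, h1, im_one_CGeo, Complex.one_im]
  field_simp
  ring

theorem continuous_sa (m : ℤ) : Continuous (sa m) := by
  unfold sa
  fun_prop

theorem continuous_sb (m : ℤ) : Continuous (sb m) := by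
  unfold sb
  fun_prop

theorem sa_sb_pos {m : ℤ} {D : ℝ} (hD : D ∈ Ioo (m : ℝ) (m + 1)) :
    0 < sa m (ee D) ∧ 0 < sb m (ee D) := by
  obtain ⟨h1, h2⟩ := hD
  have h3 : D - (m + 1) = -(m + 1 - D) := by ring
  rw [sa, sb, mul_conj_CGeo, mul_conj_CGeo, h3, im_neg_CGeo, neg_neg]
  have := pn_ge
  exact ⟨div_pos (im_pos_CGeo (by linarith) (by linarith)) s_pos_CGeo,
    div_pos (im_pos_CGeo (by linarith) (by linarith)) s_pos_CGeo⟩

theorem lam_rt (k : Zp) (e : W × W) : lam (rt k • e) = lam e := by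
  have h1 : rt k * conj (rt k) = 1 := by rw [conj_rt, ← rt_add, add_neg_cancel, rt_zero]
  rw [lam, lam, Prod.smul_fst, nsq_rt_CGeo]
  congr 1
  simp only [Prod.smul_fst, Prod.smul_snd, smul_eq_mul, map_mul]
  linear_combination (e.2.1 * conj e.1.1 + e.2.2 * conj e.1.2) * h1

theorem CC_le {κ : W × W → ℝ} {m : ℤ} {e : W × W} (hκ : κ e ∈ Icc (0 : ℝ) 1) (h : CC κ m e) :
    nsq e.2 ≤ nsq e.1 := by
  obtain ⟨a, b, ha, hb, h1, h2⟩ := h
  by_contra hc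
  rw [not_le] at hc
  have h3 : ‖(a : ℂ) * ee m + b * ee (m + 1)‖ ≤ a + b := by
    refine (norm_add_le _ _).trans (le_of_eq ?_)
    rw [norm_mul, norm_mul, norm_ee, norm_ee, mul_one, mul_one, Complex.norm_real,
      Complex.norm_real, Real.norm_of_nonneg ha, Real.norm_of_nonneg hb]
  have h4 : 1 < a + b := by
    by_contra h5
    rw [not_lt] at h5
    have h6 : ‖(a : ℂ) * ee m + b * ee (m + 1)‖ ^ 2 ≤ 1 :=
      pow_le_one₀ (norm_nonneg _) (h3.trans h5)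
    have h7 := mul_le_mul_of_nonneg_right h6 (nsq_nonneg e.1)
    rw [← nsq_smul, ← h1] at h7
    linarith
  have h8 : 0 ≤ κ e * (nsq e.2 - nsq e.1) := mul_nonneg hκ.1 (by linarith)
  have h9 : 0 ≤ (1 - κ e) * (a + b - 1) := mul_nonneg (by linarith [hκ.2]) (by linarith)
  have h10 : κ e = 0 := by
    rcases mul_eq_zero.1 (show κ e * (nsq e.2 - nsq e.1) = 0 by linarith) with h | h
    · exact h
    · linarith
  rw [h10] at h2
  linarith

theorem CC_chord {κ : W × W → ℝ} {m : ℤ} {e : W × W} (hκ : κ e = 0) (hm : m = -3 ∨ m = 6)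
    (h : CC κ m e) : ∃ μ, Chord μ ∧ e.2 = μ • e.1 := by
  obtain ⟨a, b, ha, hb, h1, h2⟩ := h
  rw [hκ] at h2
  refine ⟨_, ⟨(m : Zp), ((m + 1 : ℤ) : Zp), b, ?_, ?_, ⟨hb, by linarith⟩, ?_⟩, h1⟩
  · rcases hm with rfl | rfl <;> exact intCast_ne (by norm_num) (by norm_num)
  · rcases hm with rfl | rfl <;> exact intCast_ne (by norm_num) (by norm_num)
  · have h3 : a = 1 - b := by linarith
    rw [rt_intCast, rt_intCast, h3]
    push_cast
    rfl

theorem CC_arc {κ : W × W → ℝ} {m : ℤ} {e : W × W} (hκ : κ e = 1) (hx : e.1 ≠ 0) (h : CC κ m e) :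
    ∃ D ∈ Icc (m : ℝ) (m + 1), e.2 = ee D • e.1 := by
  obtain ⟨a, b, ha, hb, h1, h2⟩ := h
  rw [hκ] at h2
  have hpi := Real.pi_pos
  set w : ℂ := a * ee 0 + b * ee 1 with hw
  have h3 : (a : ℂ) * ee m + b * ee (m + 1) = ee m * w := by
    rw [hw, ee_zero, ee_add]
    ring
  rw [h3] at h1
  have h4 : ‖w‖ = 1 := by
    have h5 : nsq e.2 = ‖w‖ ^ 2 * nsq e.1 := by
      rw [h1, nsq_smul, norm_mul, norm_ee, one_mul]
    have h6 : ‖w‖ ^ 2 = 1 := by
      apply mul_right_cancel₀ (nsq_pos hx).ne'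
      linarith
    exact (pow_eq_one_iff_of_nonneg (norm_nonneg _) two_ne_zero).1 h6
  have h7 := polar_CSec w
  rw [h4, Complex.ofReal_one, one_mul] at h7
  set u : ℝ := pn * arg w / (2 * Real.pi) with hu
  have h8 : 0 ≤ u := by
    have h9 : 0 ≤ arg w := by
      rw [Complex.arg_nonneg_iff, hw, im_comb_CGeo, ee_zero, Complex.one_im, mul_zero, zero_add,
        im_one_CGeo]
      exact mul_nonneg hb s_pos_CGeo.le
    positivity
  have h10 : u ≤ pn / 2 := by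
    have h11 := Complex.arg_le_pi w
    rw [hu, div_le_iff₀ (by positivity)]
    nlinarith [pn_pos]
  have h12 : u ≤ 1 := by
    by_contra h13
    rw [not_le] at h13
    have h14 : 0 < (ee (u - 1)).im := im_pos_CGeo (by linarith) (by linarith)
    rw [← mul_conj_CGeo, ← h7, hw, add_mul, mul_assoc, mul_assoc, mul_conj_CGeo, mul_conj_CGeo,
      im_comb_CGeo, sub_self, zero_sub, im_neg_CGeo, ee_zero, Complex.one_im, im_one_CGeo] at h14
    have h15 := mul_nonneg ha s_pos_CGeo.le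
    linarith
  refine ⟨m + u, ⟨by linarith, by linarith⟩, ?_⟩
  rw [ee_add, ← h7]
  exact h1

theorem neg3_CGeo {a b : ℝ} (ha : 0 ≤ a) (hb : 0 ≤ b)
    (h : 0 ≤ ((a : ℂ) * ee ((-3 : ℤ) : ℝ) + b * ee (((-3 : ℤ) : ℝ) + 1)).im) :
    (a : ℂ) * ee ((-3 : ℤ) : ℝ) + b * ee (((-3 : ℤ) : ℝ) + 1) = 0 := by
  have e1 : ((-3 : ℤ) : ℝ) + 1 = -2 := by norm_num
  have e2 : ((-3 : ℤ) : ℝ) = -3 := by norm_num
  have p2 : 0 < (ee 2).im := im_pos_CGeo (by norm_num) (by linarith [pn_ge])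
  have p3 : 0 < (ee 3).im := im_pos_CGeo (by norm_num) (by linarith [pn_ge])
  rw [e1, e2, im_comb_CGeo, im_neg_CGeo, im_neg_CGeo] at h
  have h1 := mul_nonneg ha p3.le
  have h2 := mul_nonneg hb p2.le
  have h3 : a = 0 := (mul_eq_zero.1 (show a * (ee 3).im = 0 by linarith)).resolve_right p3.ne'
  have h4 : b = 0 := (mul_eq_zero.1 (show b * (ee 2).im = 0 by linarith)).resolve_right p2.ne'
  rw [h3, h4, Complex.ofReal_zero, zero_mul, zero_mul, add_zero]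

theorem pos6_CGeo {a b : ℝ} (ha : 0 ≤ a) (hb : 0 ≤ b) :
    0 ≤ ((a : ℂ) * ee ((6 : ℤ) : ℝ) + b * ee (((6 : ℤ) : ℝ) + 1)).im ∧
      (((a : ℂ) * ee ((6 : ℤ) : ℝ) + b * ee (((6 : ℤ) : ℝ) + 1)).im = 0 →
        (a : ℂ) * ee ((6 : ℤ) : ℝ) + b * ee (((6 : ℤ) : ℝ) + 1) = 0) := by
  have p6 : 0 < (ee ((6 : ℤ) : ℝ)).im := im_pos_CGeo (by norm_num) (by norm_num; linarith [pn_ge])
  have p7 : 0 < (ee (((6 : ℤ) : ℝ) + 1)).im := im_pos_CGeo (by norm_num) (by norm_num; linarith [pn_ge])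
  have h1 := mul_nonneg ha p6.le
  have h2 := mul_nonneg hb p7.le
  rw [im_comb_CGeo]
  refine ⟨add_nonneg h1 h2, fun h => ?_⟩
  have h3 : a = 0 :=
    (mul_eq_zero.1 (show a * (ee ((6 : ℤ) : ℝ)).im = 0 by linarith)).resolve_right p6.ne'
  have h4 : b = 0 :=
    (mul_eq_zero.1 (show b * (ee (((6 : ℤ) : ℝ) + 1)).im = 0 by linarith)).resolve_right p7.ne'
  rw [h3, h4, Complex.ofReal_zero, zero_mul, zero_mul, add_zero]

theorem CC_real {κ : W × W → ℝ} {m : ℤ} (hm : m = -3 ∨ m = 6) {x : W} (hx : x ≠ 0) {l : ℝ}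
    (hl : 0 < l) : ¬ CC κ m (x, (l : ℂ) • x) := by
  rintro ⟨a, b, ha, hb, h1, -⟩
  have h2 : (l : ℂ) = a * ee m + b * ee (m + 1) := smul_left_injective ℂ hx h1
  have h3 : ((a : ℂ) * ee m + b * ee (m + 1)).im = 0 := by rw [← h2, Complex.ofReal_im]
  have h4 : (a : ℂ) * ee m + b * ee (m + 1) = 0 := by
    rcases hm with rfl | rfl
    · exact neg3_CGeo ha hb h3.ge
    · exact (pos6_CGeo ha hb).2 h3
  rw [h4] at h2
  exact hl.ne' (Complex.ofReal_eq_zero.1 h2)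

theorem CC_disj {κ κ' : W × W → ℝ} {x y : W} (hy : y ≠ 0) (h : CC κ (-3) (x, y))
    (h' : CC κ' 6 (x, y)) : False := by
  obtain ⟨a, b, ha, hb, h1, -⟩ := h
  obtain ⟨a', b', ha', hb', h2, -⟩ := h'
  dsimp only at h1 h2
  have hx : x ≠ 0 := by
    rintro rfl
    exact hy (h1.trans (smul_zero _))
  have h3 := smul_left_injective ℂ hx (h1.symm.trans h2)
  have h4 := (pos6_CGeo ha' hb').1
  rw [← h3] at h4
  rw [neg3_CGeo ha hb h4, zero_smul] at h1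
  exact hy h1

theorem CC_diag (κ : W × W → ℝ) {x : W} (hx : x ≠ 0) : ∀ᶠ e in 𝓝 (x, x), ¬ CC κ 6 e := by
  have h1 : ContinuousAt (fun e => sb 6 (lam e)) (x, x) :=
    (continuous_sb 6).continuousAt.comp (continuousAt_lam hx)
  have h2 : lam (x, x) = 1 := by
    have h := lam_smul hx 1
    rwa [one_smul] at h
  have h3 : sb 6 (lam (x, x)) < 0 := by
    rw [h2, sb, one_mul, Complex.conj_im]
    exact div_neg_of_neg_of_pos (neg_lt_zero.2 (im_pos_CGeo (by norm_num) (by norm_num; linarith [pn_ge])))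
      s_pos_CGeo
  have h4 : ∀ᶠ e : W × W in 𝓝 (x, x), e.1 ≠ 0 :=
    continuous_fst.continuousAt.eventually_ne hx
  filter_upwards [h1.eventually_lt continuousAt_const h3, h4] with e he he1
  rintro ⟨a, b, -, hb, h5, -⟩
  have h6 : lam e = a * ee ((6 : ℤ) : ℝ) + b * ee (((6 : ℤ) : ℝ) + 1) := by
    rw [← lam_smul he1 (a * ee ((6 : ℤ) : ℝ) + b * ee (((6 : ℤ) : ℝ) + 1)), ← h5]
  rw [h6, sb_comb] at he
  linarith

theorem k1_rt (k : Zp) (e : W × W) : k1 (rt k • e) = k1 e := by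
  rw [k1, k1, Prod.smul_fst, nsq_rt_CGeo]

theorem k2_rt (k : Zp) (e : W × W) : k2 (rt k • e) = k2 e := by
  rw [k2, k2, Prod.smul_snd, nsq_rt_CGeo]

end
section

open scoped ComplexConjugate Topology

open Set Complex Filter

theorem eta_dg_CPair (κ : W × W → ℝ) (m : ℤ) : Dg 1 (eta κ m) := by
  intro x y h
  simp only [eta]
  rw [h 0 (by omega), h 1 le_rfl, dH_dg.pb (FF κ m) x y h]

theorem eta_nm_CPair (κ : W × W → ℝ) (m : ℤ) : Nm 1 (eta κ m) := by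
  intro x j hj hx
  simp only [eta]
  rw [dH_nm.pb (FF κ m) x j hj hx, ite_self]

theorem phm_rt_CPair (k : Zp) (e : (W × W) × Zp) :
    phm (rt k • e.1, e.2 + k) = phm e + (k + k) := by
  have h : det2 (rt k • e.1).1 (rt k • e.1).2 = rt (k + k) * det2 e.1.1 e.1.2 := by
    rw [rt_add]
    exact det2_smul _ _ _ _
  simp only [phm]
  rw [h]
  by_cases h0 : det2 e.1.1 e.1.2 = 0
  · rw [if_pos h0, if_pos (by rw [h0, mul_zero])]
    ring
  · rw [if_neg h0, if_neg (mul_ne_zero (rt_ne_zero _) h0), sec_rt_mul _ h0]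

theorem FF_rt_CPair {κ : W × W → ℝ} (hκ : ∀ k e, κ (rt k • e) = κ e) (m : ℤ) (k : Zp)
    (e : W × W) : FF κ m (rt k • e) = FF κ m e := by
  simp only [FF, hκ, lam_rt, Prod.smul_fst, Prod.smul_snd, nsq_smul, norm_rt, one_pow, one_mul]

theorem eta_rt_CPair {κ : W × W → ℝ} (hκ : ∀ k e, κ (rt k • e) = κ e) (m : ℤ) (k : Zp)
    (x : ℕ → W × W) : eta κ m (fun j => rt k • x j) = eta κ m x := by
  have h : ∀ e, inS m (rt k • e) ↔ inS m e := fun e => by simp only [inS, lam_rt]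
  simp only [eta, pb, FF_rt_CPair hκ]
  by_cases h0 : inS m (x 0) ∧ inS m (x 1)
  · rw [if_pos h0, if_pos ⟨(h _).2 h0.1, (h _).2 h0.2⟩]
  · rw [if_neg h0, if_neg fun h' => h0 ⟨(h _).1 h'.1, (h _).1 h'.2⟩]

theorem FF_cont_CPair {κ : W × W → ℝ} (hκ : Continuous κ) (m : ℤ) {e : W × W} (hx : e.1 ≠ 0) :
    ContinuousAt (FF κ m) e := by
  have h1 := (continuous_sa m).continuousAt.comp (continuousAt_lam hx)
  have h2 := (continuous_sb m).continuousAt.comp (continuousAt_lam hx)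
  have h3 : Continuous fun e : W × W => nsq e.2 - nsq e.1 :=
    (continuous_nsq.comp continuous_snd).sub (continuous_nsq.comp continuous_fst)
  exact (hκ.continuousAt.mul h3.continuousAt).add
    ((continuousAt_const.sub hκ.continuousAt).mul ((h1.add h2).sub continuousAt_const))

theorem eta_out_CPair (κ : W × W → ℝ) {m : ℤ} {e : W × W} (hx : e.1 ≠ 0)
    (h : sa m (lam e) < 0 ∨ sb m (lam e) < 0) : LZ (eta κ m) (𝓝 e) := by
  refine ⟨{e' | ¬ inS m e'}, ?_, fun x hx' => if_neg fun h' => hx' 0 h'.1⟩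
  rcases h with h | h
  · have h1 := (continuous_sa m).continuousAt.comp (continuousAt_lam hx)
    filter_upwards [h1.eventually (gt_mem_nhds h)] with e' he' h'
    exact lt_asymm he' h'.1
  · have h1 := (continuous_sb m).continuousAt.comp (continuousAt_lam hx)
    filter_upwards [h1.eventually (gt_mem_nhds h)] with e' he' h'
    exact lt_asymm he' h'.2

theorem eta_in_CPair (κ : W × W → ℝ) {m : ℤ} {e : W × W} (hx : e.1 ≠ 0) (h : inS m e) :
    LZ (eta κ m - pb (FF κ m) dH) (𝓝 e) := by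
  have h1 := (continuous_sa m).continuousAt.comp (continuousAt_lam hx)
  have h2 := (continuous_sb m).continuousAt.comp (continuousAt_lam hx)
  refine ⟨{e' | inS m e'}, ?_, fun x hx' => ?_⟩
  · filter_upwards [h1.eventually (lt_mem_nhds h.1), h2.eventually (lt_mem_nhds h.2)]
      with e' a b
    exact ⟨a, b⟩
  · simp only [Pi.sub_apply, eta]
    rw [if_pos ⟨hx' 0, hx' 1⟩, sub_self]

theorem phm_lz_CPair {e : W × W} (h : det2 e.1 e.2 ≠ 0) :
    LZ (pb phm tc) (comap Prod.fst (𝓝 e)) := by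
  have t : Tendsto (fun d : (W × W) × Zp => det2 d.1.1 d.1.2) (comap Prod.fst (𝓝 e))
      (𝓝 (det2 e.1 e.2)) := (continuous_det2.tendsto e).comp tendsto_comap
  have h1 : LZ (pb (fun d : (W × W) × Zp => sec (det2 d.1.1 d.1.2)) tc)
      (comap Prod.fst (𝓝 e)) := by
    have := (sec_lz h).pb t
    rwa [pb_pb] at this
  have h2 : LZ (pb phm tc - pb (fun d : (W × W) × Zp => sec (det2 d.1.1 d.1.2)) tc)
      (comap Prod.fst (𝓝 e)) := by
    refine LZ.pb_congr tc ?_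
    filter_upwards [t.eventually_ne h] with d hd
    simp only [phm]
    exact if_neg hd
  exact h2.of_sub h1

theorem ray_CPair {κ b : ℝ} (hκ : κ ∈ Icc (0 : ℝ) 1) (hb : 0 ≤ b) {x y : W} (hx : x ≠ 0) (n : ℤ)
    (h1 : y = ((b : ℂ) * ee n) • x) (h : κ * (nsq y - nsq x) + (1 - κ) * (b - 1) = 0) :
    y = rt (n : Zp) • x := by
  have h2 : nsq y = b ^ 2 * nsq x := by
    rw [h1, nsq_smul, norm_mul, norm_ee, mul_one, Complex.norm_real, Real.norm_eq_abs, sq_abs]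
  rw [h2] at h
  rw [h1, one_CPair hκ hb (nsq_pos hx) h, rt_intCast]
  simp

theorem tend_CPair' (x : Fin 3 → W) (i : Fin 3) :
    Tendsto (fun e : (Fin 3 → W) × Zp => ((e.1 i, e.1 2), e.2)) (comap Prod.fst (𝓝 x))
      (comap Prod.fst (𝓝 (x i, x 2))) :=
  tendsto_comap_iff.2 ((tend_CPair x i).comp tendsto_comap)

theorem yy_dg (κ : W × W → ℝ) (m : ℤ) : Dg 3 (yy κ m) :=
  (tc_dg.pb phm).cup ((eta_dg_CPair κ m).pb Prod.fst)

theorem yy_nm (κ : W × W → ℝ) (m : ℤ) : Nm 3 (yy κ m) :=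
  (tc_nm.pb phm).cup ((eta_nm_CPair κ m).pb Prod.fst)

theorem yy_inv {κ : W × W → ℝ} (hκ : ∀ k e, κ (rt k • e) = κ e) (m : ℤ) (k : Zp) :
    pb (fun e : (W × W) × Zp => (rt k • e.1, e.2 + k)) (yy κ m) = yy κ m := by
  funext x
  have h1 : tc (fun j => phm (rt k • (x j).1, (x j).2 + k)) = tc fun j => phm (x j) := by
    simp only [phm_rt_CPair]
    exact tc_add _ _
  have h2 := eta_rt_CPair hκ m k fun j => (shift 2 x j).1
  exact congrArg₂ (· * ·) h1 h2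

/-- If `det2 ≠ 0` the factor `pb phm tc` is locally zero (`sec_lz`). Otherwise `e.2 = lam e • e.1`;
either `sa` or `sb` is negative, so `inS` fails near `e`, or `FF ≠ 0` and `dH_lz` applies. -/
theorem yy_lz {κ : W × W → ℝ} (hκ : Continuous κ) {m : ℤ} {e : W × W} (hx : e.1 ≠ 0)
    (h : ¬ CC κ m e) : LZ (yy κ m) (comap Prod.fst (𝓝 e)) := by
  by_cases h0 : det2 e.1 e.2 = 0
  swap
  · exact (phm_lz_CPair h0).cup_left _ _
  refine LZ.cup_right (LZ.pb ?_ tendsto_comap) _ _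
  by_cases h1 : sa m (lam e) < 0 ∨ sb m (lam e) < 0
  · exact eta_out_CPair κ hx h1
  rw [not_or, not_lt, not_lt] at h1
  have h2 : FF κ m e ≠ 0 := fun h2 =>
    h ⟨_, _, h1.1, h1.2, by rw [← sa_sb]; exact eq_lam hx h0, h2⟩
  obtain ⟨U, hU, h3⟩ := (dH_lz h2).pb (FF_cont_CPair hκ m hx)
  refine ⟨U, hU, fun x hx' => ?_⟩
  simp only [eta]
  rw [h3 x hx', ite_self]

/-- If `CC` holds with `a, b > 0` then `eta` is `pb (FF κ m) dH` near `e`, which is closed. If `a = 0`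
then `FF = (b - 1) (κ (b + 1) nsq x + 1 - κ)`, so `b = 1` and `e.2 = rt (m + 1) • e.1`. -/
theorem yy_dd {κ : W × W → ℝ} (hκ : Continuous κ) (hκ' : ∀ e, κ e ∈ Icc (0 : ℝ) 1) {m : ℤ}
    {e : W × W} (hx : e.1 ≠ 0) (h : ∀ k, e.2 ≠ rt k • e.1) :
    LZ (dd 4 (yy κ m)) (comap Prod.fst (𝓝 e)) := by
  by_cases hc : CC κ m e
  swap
  · exact (yy_lz hκ hx hc).dd 4
  obtain ⟨a, b, ha, hb, h1, h2⟩ := hc
  rcases ha.eq_or_lt with rfl | ha'
  · refine absurd (ray_CPair (hκ' e) hb hx (m + 1) ?_ (by simpa using h2)) (h _)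
    rw [h1]
    simp
  rcases hb.eq_or_lt with rfl | hb'
  · refine absurd (ray_CPair (hκ' e) ha hx m ?_ (by simpa using h2)) (h _)
    rw [h1]
    simp
  have h3 : lam e = a * ee m + b * ee (m + 1) := by
    rw [← lam_smul hx (a * ee m + b * ee (m + 1)), ← h1]
  have h4 : inS m e := ⟨by rw [h3, sa_comb]; exact ha', by rw [h3, sb_comb]; exact hb'⟩
  have h5 : LZ (dd 2 (eta κ m)) (𝓝 e) := by
    have := (eta_in_CPair κ hx h4).dd 2
    rw [dd_sub, ← pb_dd, dH_dd] at this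
    exact this.of_sub (LZ.zero _)
  refine LZ.dd_cup (n := 2) (m := 1) (tc_dg.pb phm) ?_ ?_
  · rw [← pb_dd, tc_dd]
    exact LZ.zero _
  · rw [← pb_dd]
    exact h5.pb tendsto_comap

theorem yy_near {κ : W × W → ℝ} {m : ℤ} {e : W × W} (hx : e.1 ≠ 0) {D : ℝ}
    (hD : D ∈ Ioo (m : ℝ) (m + 1)) (h : e.2 = ee D • e.1) (hκ : ∀ᶠ e' in 𝓝 e, κ e' = 1) :
    LZ (pb (fun e' => (e', 0)) (yy κ m) -
      pb (fun e' : W × W => (det2 e'.1 e'.2, nsq e'.2 - nsq e'.1)) th3) (𝓝 e) := by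
  have h3 : lam e = ee D := by rw [← lam_smul hx (ee D), ← h]
  have h4 : inS m e := by
    unfold inS
    rw [h3]
    exact sa_sb_pos hD
  have h5 : LZ (pb (FF κ m) dH - pb (fun e' : W × W => nsq e'.2 - nsq e'.1) dH) (𝓝 e) := by
    refine LZ.pb_congr dH ?_
    filter_upwards [hκ] with e' he'
    simp [FF, he']
  have h6 : LZ (eta κ m - pb (fun e' : W × W => nsq e'.2 - nsq e'.1) dH) (𝓝 e) := by
    simpa using (eta_in_CPair κ hx h4).add h5
  have h7 : LZ (pb (fun e' : W × W => phm (e', 0)) tc -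
      pb (fun e' : W × W => sec (det2 e'.1 e'.2)) tc) (𝓝 e) := by
    refine LZ.pb_congr tc (Eventually.of_forall fun e' => ?_)
    simp only [phm]
    split_ifs with h0
    · rw [h0, sec_zero, mul_zero]
    · rfl
  exact LZ.cup_sub h7 h6 2

end
section

open scoped ComplexConjugate Topology

open Set Complex Filter

theorem actM_pt (k : Zp) (y : W) : actM k (pt y) = pt (rt k • y) := by
  have h : ∀ a, vec 1 (rt k • y) a = rt (k * wt a) * vec 1 y a := fun a => by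
    fin_cases a <;> simp [vec, wt, rt_zero]
  funext a b
  simp only [actM, pt, pr, h, norm_mul, norm_rt, one_mul, map_mul, conj_rt, mul_sub,
    sub_eq_add_neg (k * wt a), rt_add]
  ring

/-- A point that is not fixed lies in the affine chart and is not the origin. -/
theorem exists_pt {x : V} (hx : x ≠ 0) (h : actM 1 (pr x) ≠ pr x) : ∃ y, y ≠ 0 ∧ pr x = pt y := by
  have h0 : x 0 ≠ 0 := fun h0 => h (by
    funext a b
    fin_cases a <;> fin_cases b <;> simp [actM, pr, wt, rt_zero, h0])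
  have h1 : pr x = pt (x 1 / x 0, x 2 / x 0) := by
    rw [pt, ← pr_smul_CData h0 (vec 1 _)]
    congr 1
    funext a
    fin_cases a <;> simp [vec, mul_div_cancel₀ _ h0]
  refine ⟨_, fun e => h ?_, h1⟩
  rw [h1, e, actM_pt, smul_zero]

end
section

open scoped ComplexConjugate Topology

open Set Complex Filter

/-- The cochain of degree one whose coboundary is `pn * tc`. -/
def sv_CWind : Co Zp ℤ := fun x => (x 1 - x 0).valMinAbs

theorem sv_dg_CWind : Dg 1 sv_CWind := fun x y h => by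
  simp only [sv_CWind, h 0 (by omega), h 1 le_rfl]

theorem dd_sv_CWind (x : ℕ → Zp) : dd 2 sv_CWind x = pn * tc x := by
  rw [tc_mul]
  simp [dd, Finset.sum_range_succ, sv_CWind, skip]
  ring

theorem lift_CWind {z : Pt → ℂ} {r u : ℝ → ℝ} (hu : Continuous u) (hr : ∀ t, 0 < r t)
    (hz : ∀ q, z q = r (q 0) * ee (u (q 0))) :
    ∀ᶠ M in atTop, II M 1 (pb (fun q => sec (z q)) sv_CWind) = ⌊u 1⌋ - ⌊u 0⌋ := by
  let g : Co Pt ℤ := fun x => ⌊u (x 0 0)⌋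
  have hg : Dg 0 g := fun x y h => by simp only [g, h 0 le_rfl]
  have hl : ∀ q ∈ cube, LZ (pb (fun q => sec (z q)) sv_CWind - dd 1 g) (𝓝[cube] q) := by
    intro q _
    have hc : Continuous fun p : Pt => u (p 0) := hu.comp (continuous_apply 0)
    refine ⟨{p | u (p 0) ∈ Ioo (u (q 0) - 1) (u (q 0) + 1)},
      mem_nhdsWithin_of_mem_nhds (hc.continuousAt.preimage_mem_nhds
        (Ioo_mem_nhds (by linarith) (by linarith))), fun x hx => ?_⟩
    have e : dd 1 g x = ⌊u (x 1 0)⌋ - ⌊u (x 0 0)⌋ := by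
      simp [dd, Finset.sum_range_succ, g, skip, sub_eq_add_neg]
    rw [Pi.sub_apply, e, sub_eq_zero]
    simp only [pb, sv_CWind, hz, sec_ee (hr _)]
    rw [ZMod.valMinAbs_spec]
    obtain ⟨a1, a2⟩ := hx 0
    obtain ⟨b1, b2⟩ := hx 1
    have c1 := Int.floor_le (u (x 0 0))
    have c2 := Int.lt_floor_add_one (u (x 0 0))
    have d1 := Int.floor_le (u (x 1 0))
    have d2 := Int.lt_floor_add_one (u (x 1 0))
    have f1 : ((⌊u (x 1 0)⌋ - ⌊u (x 0 0)⌋ : ℤ) : ℝ) < (3 : ℤ) := by push_cast; linarith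
    have f2 : ((-3 : ℤ) : ℝ) < (⌊u (x 1 0)⌋ - ⌊u (x 0 0)⌋ : ℤ) := by push_cast; linarith
    rw [Int.cast_lt] at f1 f2
    have := pn_le
    refine ⟨by push_cast; rfl, ?_, ?_⟩ <;> omega
  filter_upwards [II_lz 1 hl, eventually_gt_atTop 0] with M h1 hM
  rw [II_sub, sub_eq_zero] at h1
  rw [h1, stokes hM 0 hg]
  simp [II, pb, g, ins]

theorem polar_CWind (s : ℝ) :
    1 + (s : ℂ) * I = (√(1 + s ^ 2) : ℝ) * ee (pn * Real.arctan s / (2 * Real.pi)) := by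
  have e : 2 * Real.pi * (pn * Real.arctan s / (2 * Real.pi)) / pn = Real.arctan s := by
    have := pn_ne
    field_simp
  have h : √(1 + s ^ 2) ≠ 0 := by positivity
  apply Complex.ext
  · rw [re_ofReal_mul, ee_re, e, Real.cos_arctan]
    simp [h]
  · rw [im_ofReal_mul, ee_im, e, Real.sin_arctan]
    simp [mul_div_cancel₀ _ h]

theorem edge_CWind {z : Pt → ℂ} (a : ℝ) {ε : ℝ} (hε : ε = 1 ∨ ε = -1)
    (hz : ∀ q, z q = ee a * (1 + (ε * (2 * q 0 - 1) : ℝ) * I) / 2) :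
    ∀ᶠ M in atTop, II M 1 (pb (fun q => sec (z q)) sv_CWind) =
      ⌊a + ε * (pn / 8)⌋ - ⌊a - ε * (pn / 8)⌋ := by
  have h := lift_CWind (z := z) (r := fun t => √(1 + (ε * (2 * t - 1)) ^ 2) / 2)
    (u := fun t => a + pn * Real.arctan (ε * (2 * t - 1)) / (2 * Real.pi)) (by fun_prop)
    (fun t => by positivity) fun q => by
      rw [hz, polar_CWind, ee_add]
      push_cast
      ring
  have hp := Real.pi_ne_zero
  have e1 : a + pn * Real.arctan (ε * (2 * 1 - 1)) / (2 * Real.pi) = a + ε * (pn / 8) := by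
    rcases hε with rfl | rfl <;> norm_num [Real.arctan_neg, Real.arctan_one] <;> field_simp <;>
      ring
  have e0 : a + pn * Real.arctan (ε * (2 * 0 - 1)) / (2 * Real.pi) = a - ε * (pn / 8) := by
    rw [sub_eq_add_neg a]
    rcases hε with rfl | rfl <;> norm_num [Real.arctan_neg, Real.arctan_one] <;> field_simp <;>
      ring
  simpa only [e1, e0] using h

theorem ee_quarter_CWind : ee (pn / 4) = I := by
  have e : 2 * Real.pi * (pn / 4) / pn = Real.pi / 2 := by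
    have := pn_ne
    field_simp
    ring
  apply Complex.ext
  · rw [ee_re, e, Real.cos_pi_div_two, I_re]
  · rw [ee_im, e, Real.sin_pi_div_two, I_im]

theorem ee_sign_CWind {e : ℝ} (h : e = 1 ∨ e = -1) : ee (pn * (1 - e) / 4) = e := by
  rcases h with rfl | rfl
  · simp [ee_zero]
  · rw [show (pn * (1 - -1) / 4 : ℝ) = pn / 4 + pn / 4 by ring, ee_add, ee_quarter_CWind]
    simp

/-- `pn * tc` is the coboundary `dd 2` of `s x = (x 1 - x 0).valMinAbs` (up to sign), so by `stokes`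
and `II_mul` the value times `pn` is a signed sum of four values `II M 1` on the edges. On an edge
`z t = r t * ee (u t)` with `u` continuous, and `s (sec ∘ z)` agrees locally with the coboundary of
the integer function `⌊u t⌋` (`sec_ee`, `II_lz`), so the value is `⌊u 1⌋ - ⌊u 0⌋` by `stokes` with
`n = 0`. On each edge `u` is an explicit `arctan` plus a constant, or `arg` of a rotated point. -/
theorem wind (e₁ e₂ : ℝ) (h₁ : e₁ = 1 ∨ e₁ = -1) (h₂ : e₂ = 1 ∨ e₂ = -1) :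
    ∃ s : ℤ, (s = 1 ∨ s = -1) ∧ ∀ᶠ M in atTop,
      II M 2 (pb (fun q : Pt => sec ((e₁ * (q 0 - 1 / 2) : ℝ) + (e₂ * (q 1 - 1 / 2) : ℝ) * I)) tc) =
        s := by
  have n₁ : -e₁ = 1 ∨ -e₁ = -1 := by rcases h₁ with rfl | rfl <;> simp
  have n₂ : -e₂ = 1 ∨ -e₂ = -1 := by rcases h₂ with rfl | rfl <;> simp
  have hε : e₁ * e₂ = 1 ∨ e₁ * e₂ = -1 := by
    rcases h₁ with rfl | rfl <;> rcases h₂ with rfl | rfl <;> simp
  have nε : -(e₁ * e₂) = 1 ∨ -(e₁ * e₂) = -1 := by rcases hε with h | h <;> simp [h]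
  have s₁ : (e₁ : ℂ) * e₁ = 1 := by rcases h₁ with rfl | rfl <;> simp
  have s₂ : (e₂ : ℂ) * e₂ = 1 := by rcases h₂ with rfl | rfl <;> simp
  let Z : Pt → ℂ := fun q => (e₁ * (q 0 - 1 / 2) : ℝ) + (e₂ * (q 1 - 1 / 2) : ℝ) * I
  have a1 := edge_CWind (z := fun q => Z (ins 0 1 q)) (pn * (1 - e₁) / 4) hε fun q => by
    rw [ee_sign_CWind h₁]
    simp [Z, ins]
    linear_combination (-(e₂ : ℂ) * (q 0 - 1 / 2) * I) * s₁
  have a0 := edge_CWind (z := fun q => Z (ins 0 0 q)) (pn * (1 - -e₁) / 4) nε fun q => by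
    rw [ee_sign_CWind n₁]
    simp [Z, ins]
    linear_combination (-(e₂ : ℂ) * (q 0 - 1 / 2) * I) * s₁
  have b1 := edge_CWind (z := fun q => Z (ins 1 1 q)) (pn / 4 + pn * (1 - e₂) / 4) nε fun q => by
    rw [ee_add, ee_quarter_CWind, ee_sign_CWind h₂]
    simp [Z, ins]
    linear_combination (-(e₁ : ℂ) * (q 0 - 1 / 2)) * s₂ +
      ((e₁ : ℂ) * e₂ * e₂ * (q 0 - 1 / 2)) * I_mul_I
  have b0 := edge_CWind (z := fun q => Z (ins 1 0 q)) (pn / 4 + pn * (1 - -e₂) / 4) hε fun q => by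
    rw [ee_add, ee_quarter_CWind, ee_sign_CWind n₂]
    simp [Z, ins]
    linear_combination (-(e₁ : ℂ) * (q 0 - 1 / 2)) * s₂ +
      ((e₁ : ℂ) * e₂ * e₂ * (q 0 - 1 / 2)) * I_mul_I
  obtain ⟨s, hs, hsum⟩ : ∃ s : ℤ, (s = 1 ∨ s = -1) ∧
      (⌊pn * (1 - e₁) / 4 + e₁ * e₂ * (pn / 8)⌋ - ⌊pn * (1 - e₁) / 4 - e₁ * e₂ * (pn / 8)⌋ -
        (⌊pn * (1 - -e₁) / 4 + -(e₁ * e₂) * (pn / 8)⌋ -
          ⌊pn * (1 - -e₁) / 4 - -(e₁ * e₂) * (pn / 8)⌋)) -
      (⌊pn / 4 + pn * (1 - e₂) / 4 + -(e₁ * e₂) * (pn / 8)⌋ -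
          ⌊pn / 4 + pn * (1 - e₂) / 4 - -(e₁ * e₂) * (pn / 8)⌋ -
        (⌊pn / 4 + pn * (1 - -e₂) / 4 + e₁ * e₂ * (pn / 8)⌋ -
          ⌊pn / 4 + pn * (1 - -e₂) / 4 - e₁ * e₂ * (pn / 8)⌋)) = pn * s := by
    obtain ⟨F, hF⟩ : ∃ F : ℝ → ℤ, ∀ (j x : ℝ), x = j * (pn / 8) → ⌊x⌋ = F j :=
      ⟨fun j => ⌊j * (pn / 8)⌋, fun j x h => by rw [h]⟩
    have k7 : F 7 = F (-1) + pn := by
      rw [← hF 7 _ rfl, ← hF (-1) _ rfl, ← Int.floor_add_natCast]
      congr 1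
      ring
    rw [hF (2 * (1 - e₁) + e₁ * e₂) (pn * (1 - e₁) / 4 + e₁ * e₂ * (pn / 8)) (by ring),
      hF (2 * (1 - e₁) - e₁ * e₂) (pn * (1 - e₁) / 4 - e₁ * e₂ * (pn / 8)) (by ring),
      hF (2 * (1 + e₁) - e₁ * e₂) (pn * (1 - -e₁) / 4 + -(e₁ * e₂) * (pn / 8)) (by ring),
      hF (2 * (1 + e₁) + e₁ * e₂) (pn * (1 - -e₁) / 4 - -(e₁ * e₂) * (pn / 8)) (by ring),
      hF (2 + 2 * (1 - e₂) - e₁ * e₂) (pn / 4 + pn * (1 - e₂) / 4 + -(e₁ * e₂) * (pn / 8))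
        (by ring),
      hF (2 + 2 * (1 - e₂) + e₁ * e₂) (pn / 4 + pn * (1 - e₂) / 4 - -(e₁ * e₂) * (pn / 8))
        (by ring),
      hF (2 + 2 * (1 + e₂) + e₁ * e₂) (pn / 4 + pn * (1 - -e₂) / 4 + e₁ * e₂ * (pn / 8))
        (by ring),
      hF (2 + 2 * (1 + e₂) - e₁ * e₂) (pn / 4 + pn * (1 - -e₂) / 4 - e₁ * e₂ * (pn / 8))
        (by ring)]
    rcases h₁ with rfl | rfl <;> rcases h₂ with rfl | rfl
    · exact ⟨1, by simp, by norm_num; omega⟩
    · exact ⟨-1, by simp, by norm_num; omega⟩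
    · exact ⟨-1, by simp, by norm_num; omega⟩
    · exact ⟨1, by simp, by norm_num; omega⟩
  refine ⟨s, hs, ?_⟩
  filter_upwards [a1, a0, b1, b0, eventually_gt_atTop 0] with M a1 a0 b1 b0 hM
  have h := stokes hM 1 (sv_dg_CWind.pb fun q => sec (Z q))
  have e : dd (1 + 1) (pb (fun q => sec (Z q)) sv_CWind) =
      fun x => pn * pb (fun q => sec (Z q)) tc x := by
    rw [← pb_dd]
    exact funext fun x => dd_sv_CWind _
  rw [e, II_mul, Finset.sum_range_succ, Finset.sum_range_one, pb_pb, pb_pb, pb_pb, pb_pb,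
    a1, a0, b1, b0] at h
  refine mul_left_cancel₀ pn_neZ (h.trans ?_)
  rw [← hsum]
  ring

end
section

open scoped ComplexConjugate Topology

open Set Complex Filter

theorem th3_dg : Dg 3 th3 := (tc_dg.pb _).cup (dH_dg.pb _)

theorem th3_nm : Nm 3 th3 := (tc_nm.pb _).cup (dH_nm.pb _)

theorem th3_dd_CTh : dd 4 th3 = 0 :=
  dd_cup_zero (n := 2) (m := 1) (tc_dg.pb _) (closed_CTh tc_dd _) (closed_CTh dH_dd _)

theorem th3_lz_CTh {e : ℂ × ℝ} (he : e ≠ 0) : LZ th3 (𝓝 e) := by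
  by_cases h : e.1 = 0
  · have h2 : e.2 ≠ 0 := fun h2 => he (Prod.ext h h2)
    exact ((dH_lz h2).pb continuousAt_snd).cup_right 2 _
  · exact ((sec_lz h).pb (φ := Prod.fst) continuousAt_fst).cup_left 2 _

theorem thom_th6 : Thom 6 th6 := by
  refine ⟨(th3_dg.pb _).cup (th3_dg.pb _), dd_cup_zero (n := 3) (m := 3) (th3_dg.pb _)
    (closed_CTh th3_dd_CTh _) (closed_CTh th3_dd_CTh _), fun e he => ?_⟩
  by_cases h : e.2.2 = 0
  · have h2 : (e.1, e.2.1) ≠ 0 := fun h2 =>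
      he (Prod.ext (Prod.ext_iff.1 h2).1 (Prod.ext (Prod.ext_iff.1 h2).2 h))
    have hc : Continuous fun e : ℂ × ℝ × ℂ × ℝ => (e.1, e.2.1) := by fun_prop
    exact ((th3_lz_CTh h2).pb hc.continuousAt).cup_left 3 _
  · have hc : Continuous fun e : ℂ × ℝ × ℂ × ℝ => e.2.2 := by fun_prop
    exact ((th3_lz_CTh h).pb hc.continuousAt).cup_right 3 _

theorem three_CTh {a b c : ℝ} (ha : a = 1 ∨ a = -1) (hb : b = 1 ∨ b = -1) (hc : c = 1 ∨ c = -1) :
    ∃ s : ℤ, (s = 1 ∨ s = -1) ∧ ∀ᶠ M in atTop, II M 3 (pb (diag_CTh a b c) th3) = s := by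
  obtain ⟨s, hs, h1⟩ := wind a b ha hb
  obtain ⟨t, ht, h2⟩ := line_CTh hc
  refine ⟨s * t, sign_CTh hs ht, ?_⟩
  filter_upwards [h1, eventually_gt_atTop 0] with M h1 hM
  have e : pb (diag_CTh a b c) th3 = cup 2
      (pb (fun q : Pt => sec ((a * (q 0 - 1 / 2) : ℝ) + (b * (q 1 - 1 / 2) : ℝ) * I)) tc)
      (pb (shift 2) (pb (fun q : Pt => c * (q 0 - 1 / 2)) dH)) := rfl
  rw [e, II_prod M (m := 2) (n := 1) (tc_dg.pb _) (dH_nm.pb _) fun x y _ _ h => by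
    simp only [pb, h _ 0 (by norm_num), h _ 1 (by norm_num)], h1, h2 M hM]

/-- Identify the target with `Fin 6 → ℝ` (so `A` is bijective), deform `A` to a diagonal matrix of
signs (`gl_real`, `ldeg_path`), then `II_prod` three times, `wind`, and `stokes` for `dH`. -/
theorem ldeg_th6 (A : (Fin 6 → ℝ) →L[ℝ] ℂ × ℝ × ℂ × ℝ) (hA : Function.Injective A) :
    ∃ s : ℤ, (s = 1 ∨ s = -1) ∧ ∀ᶠ M in atTop, ldeg 6 th6 A M = s := by
  obtain ⟨e, P, he, hP, h0, hP0, hP1⟩ := gl_real 6 (co_CTh.comp A)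
    ((Function.LeftInverse.injective inv_co_CTh).comp hA)
  have hi : Continuous inv_CTh := by
    unfold inv_CTh
    fun_prop
  have h1 := ldeg_path thom_th6 (fun u y => inv_CTh (P u y)) (hi.comp hP) fun u hu y hy hz => by
    refine h0 u hu y (fun h => ?_) ?_
    · rw [h, norm_zero] at hy
      norm_num at hy
    · rw [← co_inv_CTh (P u y), hz, map_zero]
  obtain ⟨s, hs, h2⟩ := three_CTh (he 0) (he 1) (he 2)
  obtain ⟨t, ht, h3⟩ := three_CTh (he 3) (he 4) (he 5)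
  refine ⟨s * t, sign_CTh hs ht, ?_⟩
  filter_upwards [h1, h2, h3] with M h1 h2 h3
  have e0 : (fun y => inv_CTh (P 0 y)) = A := by
    funext y
    rw [hP0]
    exact inv_co_CTh _
  rw [e0, hP1] at h1
  have e1 : pb (fun q : Pt => inv_CTh fun j => e j * (res 6 q - fun _ => 1 / 2 : Fin 6 → ℝ) j) th6 =
      cup 3 (pb (diag_CTh (e 0) (e 1) (e 2)) th3)
        (pb (shift 3) (pb (diag_CTh (e 3) (e 4) (e 5)) th3)) := rfl
  rw [h1, ldeg, e1, II_prod M (m := 3) (n := 3) (th3_dg.pb _) (th3_nm.pb _) fun x y _ _ h => by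
    simp only [pb, diag_CTh, h _ 0 (by norm_num), h _ 1 (by norm_num), h _ 2 (by norm_num)],
    h2, h3]

end
section

open scoped ComplexConjugate Topology

open Set Complex Filter

variable {N : ℕ} {f : W → W} (L : LineFamily N f) {z₀ : W}

theorem aa_shift_CHit (T δ : ℝ) (k : Zp) (p : Fin 6 → ℝ) (i j : Fin 3) :
    ((Real.exp (hh T δ p j - hh T δ p i) : ℝ) : ℂ) • aa z₀ T δ k p i = aa z₀ T δ k p j := by
  rw [Complex.coe_smul, aa, aa, smul_smul, ← Real.exp_add, sub_add_cancel]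

theorem norm_aa_CHit (T δ : ℝ) (k : Zp) (p : Fin 6 → ℝ) (i : Fin 3) :
    ‖aa z₀ T δ k p i‖ = Real.exp (hh T δ p i) * ‖vv z₀ k p‖ := by
  rw [aa, norm_smul, Real.norm_of_nonneg (Real.exp_pos _).le]

theorem norm_vv_CHit (k : Zp) {p : Fin 6 → ℝ} (hp : p 0 ∈ Icc (0 : ℝ) 1) :
    min ‖z₀.1‖ ‖z₀.2‖ ≤ ‖vv z₀ k p‖ ∧ ‖vv z₀ k p‖ ≤ 2 * ‖z₀‖ := by
  have e : ‖vv z₀ k p‖ = max (2 * (1 - p 0) * ‖z₀.1‖) (2 * p 0 * ‖z₀.2‖) := by
    rw [vv, Prod.norm_mk]
    simp only [norm_mul, norm_ee, norm_rt, mul_one, Complex.norm_real]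
    rw [Real.norm_of_nonneg (sub_nonneg.2 hp.2), Real.norm_of_nonneg hp.1, Real.norm_ofNat]
  have n1 := norm_nonneg z₀.1
  have n2 := norm_nonneg z₀.2
  rw [e]
  constructor
  · rcases le_total (p 0) (1 / 2) with h | h
    · exact (min_le_left _ _).trans (le_trans (by nlinarith) (le_max_left _ _))
    · exact (min_le_right _ _).trans (le_trans (by nlinarith) (le_max_right _ _))
  · exact max_le (by nlinarith [norm_fst_le z₀, hp.1, hp.2])
      (by nlinarith [norm_snd_le z₀, hp.1, hp.2])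

theorem vv_ne_zero (h1 : z₀.1 ≠ 0) (h2 : z₀.2 ≠ 0) (k : Zp) (p : Fin 6 → ℝ) : vv z₀ k p ≠ 0 := by
  intro h
  have e1 := congrArg Prod.fst h
  have e2 := congrArg Prod.snd h
  simp only [vv, Prod.fst_zero, Prod.snd_zero, mul_eq_zero, ee_ne_zero, rt_ne_zero, h1, h2,
    or_false, ofReal_eq_zero, OfNat.ofNat_ne_zero, false_or] at e1 e2
  linarith

theorem aa_ne_zero (h1 : z₀.1 ≠ 0) (h2 : z₀.2 ≠ 0) (T δ : ℝ) (k : Zp) (p : Fin 6 → ℝ) (i : Fin 3) :
    aa z₀ T δ k p i ≠ 0 := smul_ne_zero (Real.exp_ne_zero _) (vv_ne_zero h1 h2 k p)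

theorem continuous_aa (T δ : ℝ) (k : Zp) (i : Fin 3) : Continuous fun p => aa z₀ T δ k p i := by
  have h1 := continuous_ee
  have h2 : Continuous fun p => hh T δ p i := by
    fin_cases i <;> simp only [hh, Fin.zero_eta, Fin.mk_one, Fin.reduceFinMk, Matrix.cons_val] <;>
      fun_prop
  have h3 : Continuous (vv z₀ k) := by
    unfold vv
    fun_prop
  exact (Real.continuous_exp.comp h2).smul h3

end
section

open scoped ComplexConjugate Topology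

open Set Complex Filter

theorem bounds_CSt {f : W → W} (hf : Sol f) {z : W} (hz : z ≠ 0) {α β : ℝ} (h0 : 0 ≤ α)
    (h1 : α < β) (h2 : nsq (f (Real.exp β • z)) ≤ nsq (f z))
    (h3 : nsq (f (Real.exp β • z)) ≤ nsq (f (Real.exp α • z))) :
    1 / 100 < nsq (f z) ∧ nsq (f (Real.exp β • z)) < 1000 := by
  have key : ∀ x, nsq (f x) ≤ 1 / 100 ∨ 1000 ≤ nsq (f x) → f x = x := fun x hx =>
    hf.inj (hf.supp _ hx)
  constructor
  · by_contra h
    rw [not_lt] at h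
    rw [key _ (Or.inl (h2.trans h)), key _ (Or.inl h)] at h2
    have := nsq_lt_CSt (h0.trans_lt h1) hz
    rw [Real.exp_zero, one_smul] at this
    exact absurd h2 this.not_ge
  · by_contra h
    rw [not_lt] at h
    rw [key _ (Or.inr (h.trans h3)), key _ (Or.inr h)] at h3
    exact absurd h3 (nsq_lt_CSt h1 hz).not_ge

theorem aa_one_CSt (z₀ : W) (T δ : ℝ) (k : Zp) (p : Fin 6 → ℝ) :
    aa z₀ T δ k p 1 = Real.exp (2 * T * p 4) • aa z₀ T δ k p 0 := by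
  rw [aa, aa, smul_smul, ← Real.exp_add, add_comm]
  rfl

theorem aa_two_CSt (z₀ : W) (T δ : ℝ) (k : Zp) (p : Fin 6 → ℝ) :
    aa z₀ T δ k p 2 = Real.exp (2 * T * p 4 + δ + 2 * T * p 5) • aa z₀ T δ k p 0 := by
  rw [aa, aa, smul_smul, ← Real.exp_add]
  congr 2
  change -T + 2 * T * p 3 + 2 * T * p 4 + δ + 2 * T * p 5 = _ + (-T + 2 * T * p 3)
  ring

theorem aa_half_CSt (z₀ : W) (T δ : ℝ) {p : Fin 6 → ℝ}
    (h : p 0 = 1 / 2 ∧ p 1 = 1 / 2 ∧ p 2 = 1 / 2 ∧ p 3 = 1 / 2) : aa z₀ T δ 0 p 0 = z₀ := by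
  have e : hh T δ p 0 = 0 := by
    change -T + 2 * T * p 3 = 0
    rw [h.2.2.2]
    ring
  rw [aa, e, Real.exp_zero, one_smul, vv, h.1, h.2.1, h.2.2.1, sub_self, ee_zero, rt_zero]
  norm_num

/-- The derivative of the parametrisation `p ↦ (a', α, β)` at a point with `p 0 = p 1 = p 2 = p 3 =
1 / 2` is injective. -/
theorem param_deriv {z₀ : W} (h1 : z₀.1 ≠ 0) (h2 : z₀.2 ≠ 0) {T : ℝ} (hT : 0 < T) (δ : ℝ)
    {p₀ : Fin 6 → ℝ} (h : p₀ 0 = 1 / 2 ∧ p₀ 1 = 1 / 2 ∧ p₀ 2 = 1 / 2 ∧ p₀ 3 = 1 / 2) :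
    ∃ B : (Fin 6 → ℝ) →L[ℝ] W × ℝ × ℝ, Function.Injective B ∧ HasFDerivAt
      (fun p => (aa z₀ T δ 0 p 0, 2 * T * p 4, 2 * T * p 4 + δ + 2 * T * p 5)) B p₀ := by
  obtain ⟨e0, e1, e2, e3⟩ := h
  have d : ∀ i, HasFDerivAt (fun p : Fin 6 → ℝ => p i)
      (ContinuousLinearMap.proj (R := ℝ) (φ := fun _ => ℝ) i) p₀ := fun i => hasFDerivAt_apply i p₀
  have dE := (((d 3).const_mul (2 * T)).const_add (-T)).exp
  have x0 : -T + 2 * T * p₀ 3 = 0 := by
    rw [e3]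
    ring
  have a1 := ofRealCLM.hasFDerivAt.comp p₀ (((d 0).const_sub 1).const_mul 2)
  have a2 := ofRealCLM.hasFDerivAt.comp p₀ ((d 0).const_mul 2)
  have b1 := (hasDerivAt_ee _).hasFDerivAt.comp p₀ ((d 1).sub_const (1 / 2))
  have b2 := (hasDerivAt_ee _).hasFDerivAt.comp p₀ ((d 2).sub_const (1 / 2))
  have hv := ((a1.mul b1).mul_const z₀.1).prodMk (((a2.mul_const (rt 0)).mul b2).mul_const z₀.2)
  have hw := (dE.smul hv).prodMk (((d 4).const_mul (2 * T)).prodMk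
    ((((d 4).const_mul (2 * T)).add_const δ).add ((d 5).const_mul (2 * T))))
  refine ⟨_, (injective_iff_map_eq_zero _).2 fun v hv => ?_, hw⟩
  simp only [Prod.ext_iff, x0, Real.exp_zero] at hv
  obtain ⟨⟨u1, u2⟩, u3, u4⟩ := hv
  have w1 : ((2 * T * v 3 - 2 * v 0 : ℝ) + (2 * Real.pi / pn * v 1 : ℝ) * I) * z₀.1 = 0 := by
    simp [e0, e1, ee_zero] at u1
    push_cast
    linear_combination u1
  have w2 : ((2 * T * v 3 + 2 * v 0 : ℝ) + (2 * Real.pi / pn * v 2 : ℝ) * I) * z₀.2 = 0 := by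
    simp [e0, e2, ee_zero, rt_zero] at u2
    push_cast
    linear_combination u2
  have key : ∀ a b : ℝ, (a : ℂ) + (2 * Real.pi / pn * b : ℝ) * I = 0 → a = 0 ∧ b = 0 := by
    intro a b h
    have h1 := congrArg re h
    have h2 := congrArg im h
    simp only [add_re, ofReal_re, mul_re, I_re, mul_zero, ofReal_im, I_im, mul_one, sub_self,
      add_zero, zero_re, add_im, mul_im, zero_add, zero_im] at h1 h2
    exact ⟨h1, (mul_eq_zero.1 h2).resolve_left (by have := pn_pos; positivity)⟩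
  obtain ⟨y1, y2⟩ := key _ _ ((mul_eq_zero.1 w1).resolve_right h1)
  obtain ⟨y3, y4⟩ := key _ _ ((mul_eq_zero.1 w2).resolve_right h2)
  have z4 : 2 * T * v 4 = 0 := u3
  have z5 : 2 * T * v 4 + 2 * T * v 5 = 0 := u4
  have hT' : 2 * T ≠ 0 := by positivity
  have z3 : v 3 = 0 := (mul_eq_zero.1 (show 2 * T * v 3 = 0 by linarith)).resolve_left hT'
  have z5' : v 5 = 0 := (mul_eq_zero.1 (show 2 * T * v 5 = 0 by linarith)).resolve_left hT'
  funext j
  fin_cases j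
  · show v 0 = 0
    linarith
  · exact y2
  · exact y4
  · exact z3
  · exact (mul_eq_zero.1 z4).resolve_left hT'
  · exact z5'

end
section

open scoped ComplexConjugate Topology

open Set Complex Filter

variable {f : W → W} (L : LineFamily NN f) {z₀ : W} (h1 : z₀.1 ≠ 0) (h2 : z₀.2 ≠ 0) (T δ : ℝ)
  (M : ℕ)

theorem aa_CFace {k k' : Zp} {p p' : Fin 6 → ℝ} {c : ℂ} (h : vv z₀ k p = c • vv z₀ k' p')
    (h3 : p 3 = p' 3) (h4 : p 4 = p' 4) (h5 : p 5 = p' 5) (i : Fin 3) :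
    aa z₀ T δ k p i = c • aa z₀ T δ k' p' i := by
  rw [aa, aa, h, hh, hh, h3, h4, h5, smul_comm]

theorem rt_one_CFace : rt 1 = ee 1 := by simpa using rt_intCast 1

theorem ee_half_CFace : ee (1 - 1 / 2) = rt 1 * ee (0 - 1 / 2) := by
  rw [rt_one_CFace, ← ee_add]
  norm_num

include h1 h2

end
section

open scoped ComplexConjugate Topology

open Set Complex Filter

/-- An equivariant family of maps of the punctured affine chart, from `f` to a linear map. -/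
structure EqFam (f : W → W) where
  h : ℝ → W → W
  ne : ∀ s ∈ Icc (0 : ℝ) 1, ∀ v, v ≠ 0 → h s v ≠ 0
  cont : ContinuousOn (fun q : ℝ × W => h q.1 q.2) (Icc 0 1 ×ˢ {0}ᶜ)
  inj : ∀ s ∈ Icc (0 : ℝ) 1, ∀ v (c c' : ℂ), v ≠ 0 → c ≠ 0 → c' ≠ 0 →
    h s (c • v) = h s (c' • v) → c = c'
  equiv : ∀ s ∈ Icc (0 : ℝ) 1, ∀ v k, v ≠ 0 → h s (rt k • v) = rt k • h s v
  start : ∀ v, v ≠ 0 → h 0 v = f v
  stop : ∃ L : W →ₗ[ℂ] W, ∀ v, v ≠ 0 → h 1 v = L v
  near0 : ∀ r : ℝ, 0 < r → ∃ τ : ℝ, 0 < τ ∧ ∀ s ∈ Icc (0 : ℝ) 1, ∀ a (l : ℝ), a ≠ 0 → ‖a‖ ≤ τ →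
    1 < l → ‖h s a‖ ≤ r ∧ ∀ μ, Chord μ → h s ((l : ℂ) • a) ≠ μ • h s a
  nearInf : ∀ r : ℝ, ∃ R : ℝ, ∀ s ∈ Icc (0 : ℝ) 1, ∀ b (l : ℝ), b ≠ 0 → R ≤ ‖b‖ → 0 < l → l < 1 →
    r ≤ ‖h s b‖ ∧ ∀ μ, Chord μ → h s b ≠ μ • h s ((l : ℂ) • b)

theorem kc_rt (c : ℝ) (k : Zp) (e : W × W) : kc c (rt k • e) = kc c e := by
  rw [kc, kc, smul_comm, k2_rt]

/-- The cochain of degree six on triples. -/
def yI (c : ℝ) : Co ((Fin 3 → W) × Zp) ℤ :=
  cup 3 (pb (fun e => ((e.1 0, e.1 2), e.2)) (yy k1 (-3)))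
    (pb (fun e => ((e.1 1, e.1 2), e.2)) (yy (kc c) 6))

variable (c : ℝ)

theorem yI_dg : Dg 6 (yI c) :=
  ((yy_dg _ _).pb _).cup ((yy_dg _ _).pb _)

theorem yI_nm : Nm 6 (yI c) :=
  ((yy_nm _ _).pb _).cup ((yy_nm _ _).pb _)

theorem yI_inv (k : Zp) :
    pb (fun e : (Fin 3 → W) × Zp => (fun i => rt k • e.1 i, e.2 + k)) (yI c) = yI c := by
  funext x
  exact congrArg₂ (· * ·)
    (congrFun (yy_inv k1_rt (-3) k) fun j => (((x j).1 0, (x j).1 2), (x j).2))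
    (congrFun (yy_inv (kc_rt c) 6 k) fun j =>
      (((shift 3 x j).1 1, (shift 3 x j).1 2), (shift 3 x j).2))

theorem yI_lz {x : Fin 3 → W} (hx : ∀ i, x i ≠ 0)
    (h : ¬ (CC k1 (-3) (x 0, x 2) ∧ CC (kc c) 6 (x 1, x 2))) :
    LZ (yI c) (comap Prod.fst (𝓝 x)) := by
  rcases not_and_or.1 h with h | h
  · exact ((yy_lz continuous_k1 (hx 0) h).pb (tend_CPair' x 0)).cup_left _ _
  · exact ((yy_lz (continuous_kc c) (hx 1) h).pb (tend_CPair' x 1)).cup_right _ _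

theorem yI_dd {x : Fin 3 → W} (hx : ∀ i, x i ≠ 0)
    (h : ∀ k, x 2 ≠ rt k • x 0 ∧ x 2 ≠ rt k • x 1) :
    LZ (dd 7 (yI c)) (comap Prod.fst (𝓝 x)) := by
  refine LZ.dd_cup (n := 3) (m := 3) ((yy_dg _ _).pb _) ?_ ?_
  · rw [← pb_dd]
    exact (yy_dd continuous_k1 k1_mem (e := (x 0, x 2)) (hx 0) fun k => (h k).1).pb
      (tend_CPair' x 0)
  · rw [← pb_dd]
    exact (yy_dd (continuous_kc c) (kc_mem c) (e := (x 1, x 2)) (hx 1) fun k => (h k).2).pb
      (tend_CPair' x 1)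

theorem yI_near {x : Fin 3 → W} (h0 : 1 / 5000 < nsq (x 0)) (h2 : nsq (c • x 2) < 10000)
    (h1 : x 1 ≠ 0) {D₁ D₂ : ℝ} (hD₁ : D₁ ∈ Ioo (-3 : ℝ) (-2)) (hD₂ : D₂ ∈ Ioo (6 : ℝ) 7)
    (e₁ : x 2 = ee D₁ • x 0) (e₂ : x 2 = ee D₂ • x 1) :
    LZ (pb (fun x' => (x', 0)) (yI c) - pb (fun x' : Fin 3 → W =>
      (det2 (x' 0) (x' 2), nsq (x' 2) - nsq (x' 0), det2 (x' 1) (x' 2), nsq (x' 2) - nsq (x' 1)))
      th6) (𝓝 x) := by
  have hx0 : x 0 ≠ 0 := by
    intro h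
    rw [h] at h0
    simp only [nsq, Prod.fst_zero, Prod.snd_zero, norm_zero] at h0
    norm_num at h0
  have c1 : ∀ᶠ e' in 𝓝 (x 0, x 2), k1 e' = 1 := by
    filter_upwards [((continuous_nsq.comp continuous_fst).tendsto (x 0, x 2)).eventually
      (lt_mem_nhds h0)] with e' he'
    exact k1_one he'.le
  have c2 : ∀ᶠ e' in 𝓝 (x 1, x 2), kc c e' = 1 := by
    filter_upwards [((continuous_nsq.comp ((continuous_const_smul c).comp continuous_snd)).tendsto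
      (x 1, x 2)).eventually (gt_mem_nhds h2)] with e' he'
    exact k2_one he'.le
  have a1 := (yy_near (m := -3) (e := (x 0, x 2)) hx0 (D := D₁)
    ⟨by simpa using hD₁.1, by push_cast; linarith [hD₁.2]⟩ e₁ c1).pb (tend_CPair x 0)
  have a2 := (yy_near (m := 6) (e := (x 1, x 2)) h1 (D := D₂)
    ⟨by simpa using hD₂.1, by push_cast; linarith [hD₂.2]⟩ e₂ c2).pb (tend_CPair x 1)
  exact LZ.cup_sub (a := pb (fun x' : Fin 3 → W => ((x' 0, x' 2), (0 : Zp))) (yy k1 (-3)))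
    (a' := pb (fun x' : Fin 3 → W => (det2 (x' 0) (x' 2), nsq (x' 2) - nsq (x' 0))) th3)
    (b := pb (fun x' : Fin 3 → W => ((x' 1, x' 2), (0 : Zp))) (yy (kc c) 6))
    (b' := pb (fun x' : Fin 3 → W => (det2 (x' 1) (x' 2), nsq (x' 2) - nsq (x' 1))) th3) a1 a2 3

/-- The cochain on the six-dimensional cube at time `0`. -/
def omI (g : W → W) (z₀ : W) (T δ : ℝ) (k : Zp) : Co (Fin 6 → ℝ) ℤ :=
  pb (fun p => (fun i => g (aa z₀ T δ k p i), bb k p)) (yI c)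

variable {g : W → W} (L : EqFam g) {z₀ : W}

/-- The map from the seven-dimensional cube to the data space. -/
def PsI (z₀ : W) (T δ : ℝ) (k : Zp) (q : Pt) : (Fin 3 → W) × Zp :=
  (fun i => L.h (q 0) (aa z₀ T δ k (res 6 (shift 1 q)) i), bb k (res 6 (shift 1 q)))

theorem PsI_tendsto (h1 : z₀.1 ≠ 0) (h2 : z₀.2 ≠ 0) (T δ : ℝ) (k : Zp) {q : Pt} (hq : q ∈ cube) :
    Tendsto (PsI L z₀ T δ k) (𝓝[cube] q) (comap Prod.fst (𝓝 (PsI L z₀ T δ k q).1)) := by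
  rw [tendsto_comap_iff]
  refine tendsto_pi_nhds.2 fun i => ?_
  have hc : Continuous fun q : Pt => (q 0, aa z₀ T δ k (res 6 (shift 1 q)) i) :=
    (continuous_apply 0).prodMk ((continuous_aa (z₀ := z₀) T δ k i).comp
      ((continuous_res 6).comp (continuous_shift 1)))
  exact (L.cont.comp (s := cube) hc.continuousOn
    fun q hq => ⟨hq 0, aa_ne_zero h1 h2 T δ k _ i⟩) q hq

theorem PsI_rg (h1 : z₀.1 ≠ 0) (h2 : z₀.2 ≠ 0) {T δ : ℝ} (hT : 0 ≤ T) (hδ : 0 < δ) (k : Zp)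
    {q : Pt} (hq : q ∈ cube) (l : Zp) :
    (PsI L z₀ T δ k q).1 2 ≠ rt l • (PsI L z₀ T δ k q).1 0 ∧
      (PsI L z₀ T δ k q).1 2 ≠ rt l • (PsI L z₀ T δ k q).1 1 := by
  have ha := aa_ne_zero h1 h2 T δ k (res 6 (shift 1 q))
  obtain ⟨-, l1, l2⟩ := hh_lt_CHit hT hδ (res_mem_cubeF 6 (shift_mem_cube 1 hq))
  have key : ∀ i : Fin 3, hh T δ (res 6 (shift 1 q)) i < hh T δ (res 6 (shift 1 q)) 2 →
      (PsI L z₀ T δ k q).1 2 ≠ rt l • (PsI L z₀ T δ k q).1 i := by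
    intro i hi h
    simp only [PsI] at h
    rw [← aa_shift_CHit T δ k _ i 2, ← L.equiv _ (hq 0) _ _ (ha i)] at h
    have h3 := congrArg norm (L.inj _ (hq 0) _ _ _ (ha i)
      (ofReal_ne_zero.2 (Real.exp_ne_zero _)) (rt_ne_zero l) h)
    rw [norm_rt, Complex.norm_real, Real.norm_of_nonneg (Real.exp_pos _).le,
      Real.exp_eq_one_iff] at h3
    linarith
  exact ⟨key 0 (l1.trans_lt l2), key 1 l2⟩

theorem no_close_I (r R : ℝ) (hr : 0 < r) : ∃ δ₀ : ℝ, 0 < δ₀ ∧ ∀ δ : ℝ, 0 < δ → δ ≤ δ₀ →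
    ∀ s ∈ Icc (0 : ℝ) 1, ∀ a : W, r ≤ ‖a‖ → ‖a‖ ≤ R →
      ¬ CC (kc c) 6 (L.h s a, L.h s (Real.exp δ • a)) := by
  set K : Set (ℝ × W) := Icc 0 1 ×ˢ (Metric.closedBall 0 R ∩ {a | r ≤ ‖a‖}) with hK
  have cK : IsCompact K := isCompact_Icc.prod
    ((isCompact_closedBall _ _).inter_right (isClosed_le continuous_const continuous_norm))
  have hne : ∀ w ∈ K, w.2 ≠ 0 := fun w hw => norm_pos_iff.1 (hr.trans_le hw.2.2)
  have key : ∀ᶠ δ in 𝓝 (0 : ℝ), ∀ w ∈ K, w ∈ K →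
      ¬ CC (kc c) 6 (L.h w.1 w.2, L.h w.1 (Real.exp δ • w.2)) := by
    refine cK.eventually_forall_of_forall_eventually fun w hw => ?_
    have cont : ∀ e : ℝ → ℝ, Continuous e → (∀ δ, e δ ≠ 0) →
        ContinuousWithinAt (fun z : ℝ × ℝ × W => L.h z.2.1 (e z.1 • z.2.2))
          {z | z.2 ∈ K} (0, w) := fun e he he0 =>
      (L.cont.comp (f := fun z : ℝ × ℝ × W => (z.2.1, e z.1 • z.2.2))
        (Continuous.continuousOn (by fun_prop))
        fun z hz => ⟨hz.1, smul_ne_zero (he0 _) (hne _ hz)⟩) (0, w) hw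
    have t1 := (cont (fun _ => 1) continuous_const fun _ => one_ne_zero).tendsto
    have t2 := (cont Real.exp Real.continuous_exp Real.exp_ne_zero).tendsto
    simp only [Real.exp_zero, one_smul] at t1 t2
    exact (eventually_nhdsWithin_iff (s := {z : ℝ × ℝ × W | z.2 ∈ K})).1
      ((t1.prodMk_nhds t2).eventually (CC_diag (kc c) (L.ne _ hw.1 _ (hne w hw))))
  obtain ⟨ε, hε, h⟩ := Metric.nhds_basis_closedBall.eventually_iff.1 key
  refine ⟨ε, hε, fun δ h0 h1 s hs a ha ha' => ?_⟩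
  have hw : (s, a) ∈ K := ⟨hs, mem_closedBall_zero_iff.2 ha', ha⟩
  exact h (mem_closedBall_zero_iff.2 (by rwa [Real.norm_of_nonneg h0.le])) _ hw hw

theorem no_hit_I (hc : 0 < c) (h1 : z₀.1 ≠ 0) (h2 : z₀.2 ≠ 0) : ∃ T₀ : ℝ, ∀ T, T₀ ≤ T →
    ∃ δ₀ : ℝ, 0 < δ₀ ∧ ∀ δ : ℝ, 0 < δ → δ ≤ δ₀ → ∀ k : Zp, ∀ q ∈ cube,
      (q 0 = 1 ∨ q 4 = 0 ∨ q 4 = 1 ∨ q 5 = 0 ∨ q 5 = 1 ∨ q 6 = 0 ∨ q 6 = 1) →
      ¬ (CC k1 (-3) ((PsI L z₀ T δ k q).1 0, (PsI L z₀ T δ k q).1 2) ∧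
        CC (kc c) 6 ((PsI L z₀ T δ k q).1 1, (PsI L z₀ T δ k q).1 2)) := by
  obtain ⟨τ, hτ, n0⟩ := L.near0 (1 / 200) (by norm_num)
  obtain ⟨R, nI⟩ := L.nearInf (200 / c)
  have hm : 0 < min ‖z₀.1‖ ‖z₀.2‖ := lt_min (norm_pos_iff.2 h1) (norm_pos_iff.2 h2)
  have e1 : ∀ᶠ T in atTop, Real.exp (-T) * (2 * ‖z₀‖) ≤ τ :=
    (Real.tendsto_exp_neg_atTop_nhds_zero.mul_const _).eventually_le_const (by simpa using hτ)
  have e2 : ∀ᶠ T in atTop, R ≤ Real.exp T * min ‖z₀.1‖ ‖z₀.2‖ :=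
    (Real.tendsto_exp_atTop.atTop_mul_const hm).eventually_ge_atTop R
  obtain ⟨T₀, hT₀⟩ := eventually_atTop.1 (e1.and (e2.and (eventually_ge_atTop 0)))
  refine ⟨T₀, fun T hT => ?_⟩
  obtain ⟨a1, a2, hT0⟩ := hT₀ T hT
  obtain ⟨δ₀, hδ₀, nc⟩ := no_close_I c L (Real.exp (-T) * min ‖z₀.1‖ ‖z₀.2‖)
    (Real.exp T * (2 * ‖z₀‖)) (by positivity)
  refine ⟨δ₀, hδ₀, fun δ hδ hδ' k q hq hb => ?_⟩
  rintro ⟨c1, c2⟩
  have hs := hq 0
  have hp := res_mem_cubeF 6 (shift_mem_cube 1 hq)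
  have p3 : res 6 (shift 1 q) 3 = q 4 := rfl
  have p4 : res 6 (shift 1 q) 4 = q 5 := rfl
  have p5 : res 6 (shift 1 q) 5 = q 6 := rfl
  simp only [PsI] at c1 c2
  generalize res 6 (shift 1 q) = p at *
  have ha := aa_ne_zero h1 h2 T δ k p
  obtain ⟨l0, l1, l2⟩ := hh_lt_CHit hT0 hδ hp
  obtain ⟨v1, v2⟩ := norm_vv_CHit (z₀ := z₀) k (hp 0)
  have g0 : hh T δ p 0 = -T + 2 * T * q 4 := by rw [← p3]; rfl
  have g1 : hh T δ p 1 = hh T δ p 0 + 2 * T * q 5 := by rw [← p4]; rfl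
  have g2 : hh T δ p 2 = hh T δ p 1 + δ + 2 * T * q 6 := by rw [← p5]; rfl
  rcases le_or_gt T (hh T δ p 2) with hi | hi
  · obtain ⟨b1, b2⟩ := nI _ hs _ _ (ha 2) (a2.trans (by rw [norm_aa_CHit]; gcongr))
      (Real.exp_pos _) (Real.exp_lt_one_iff.2 (sub_neg.2 l2))
    rw [aa_shift_CHit] at b2
    obtain ⟨μ, b3, b4⟩ := CC_chord (kc_zero hc b1) (Or.inr rfl) c2
    exact b2 μ b3 b4
  rcases hb with hb | hb | hb | hb | hb | hb | hb
  · obtain ⟨Li, hL⟩ := L.stop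
    rw [hb, hL _ (ha 2), ← aa_shift_CHit T δ k p 0 2, map_smul, ← hL _ (ha 0)] at c1
    exact CC_real (Or.inl rfl) (L.ne _ ⟨zero_le_one, le_rfl⟩ _ (ha 0)) (Real.exp_pos _) c1
  · obtain ⟨b1, b2⟩ := n0 _ hs _ _ (ha 0)
      (le_trans (by rw [norm_aa_CHit, g0, hb, mul_zero, add_zero]; gcongr) a1)
      (Real.one_lt_exp_iff.2 (sub_pos.2 (l1.trans_lt l2)))
    rw [aa_shift_CHit] at b2
    obtain ⟨μ, b3, b4⟩ := CC_chord (k1_zero b1) (Or.inl rfl) c1
    exact b2 μ b3 b4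
  · rw [hb] at g0
    linarith
  · rw [hb, mul_zero, add_zero] at g1
    have b1 : aa z₀ T δ k p 1 = aa z₀ T δ k p 0 := by rw [aa, aa, g1]
    rw [b1] at c2
    exact CC_disj (L.ne _ hs _ (ha 2)) c1 c2
  · rw [hb] at g1
    linarith
  · refine nc δ hδ hδ' _ hs (aa z₀ T δ k p 1) ?_ ?_ ?_
    · rw [norm_aa_CHit]
      gcongr
      linarith
    · rw [norm_aa_CHit]
      gcongr
      linarith
    · rwa [← aa_shift_CHit T δ k p 1 2, Complex.coe_smul, g2, hb, mul_zero, add_zero,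
        add_sub_cancel_left] at c2
  · rw [hb] at g2
    linarith

theorem congr_I (M : ℕ) {φ ψ : Pt → (Fin 3 → W) × Zp} (h : ∀ q ∈ cube, φ q = ψ q) :
    II M 6 (pb φ (yI c)) = II M 6 (pb ψ (yI c)) :=
  II_congr M _ fun _ hx => congrArg (yI c) (funext fun j => h _ (hx j))

theorem indep_I (M : ℕ) {φ : Pt → (Fin 3 → W) × Zp} {i : ℕ} (hi : i < 6)
    (h : ∀ q q' : Pt, (∀ j, j ≠ i → q j = q' j) → φ q = φ q') : II M 6 (pb φ (yI c)) = 0 :=
  II_indep M ((yI_nm c).pb φ) hi fun _ _ _ _ hxy =>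
    congrArg (yI c) (funext fun a => h _ _ (hxy a))

theorem face_r_I (T δ : ℝ) (M : ℕ) (k : Zp) {a : ℝ} (ha : a = 0 ∨ a = 1) :
    II M 6 (pb (ins 1 a) (pb (PsI L z₀ T δ k) (yI c))) = 0 := by
  rw [pb_pb]
  rcases ha with rfl | rfl
  · refine indep_I c M (i := 2) (by omega) fun q q' h => ?_
    have ea : ∀ i, aa z₀ T δ k (res 6 (shift 1 (ins 1 0 q))) i =
        aa z₀ T δ k (res 6 (shift 1 (ins 1 0 q'))) i := fun i => by
      rw [aa_CFace T δ (c := 1) (k' := k) (p' := res 6 (shift 1 (ins 1 0 q'))), one_smul] <;>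
        simp [vv, res, shift, ins, h]
    simp only [PsI, ins0_CFace (i := 1) (by omega), ea, h 0 (by omega)]
    simp [bb, res, shift, ins, h]
  · refine indep_I c M (i := 1) (by omega) fun q q' h => ?_
    have ea : ∀ i, aa z₀ T δ k (res 6 (shift 1 (ins 1 1 q))) i =
        aa z₀ T δ k (res 6 (shift 1 (ins 1 1 q'))) i := fun i => by
      rw [aa_CFace T δ (c := 1) (k' := k) (p' := res 6 (shift 1 (ins 1 1 q'))), one_smul] <;>
        simp [vv, res, shift, ins, h]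
    simp only [PsI, ins0_CFace (i := 1) (by omega), ea, h 0 (by omega)]
    simp [bb, res, shift, ins, h]

theorem face_th1_I (h1 : z₀.1 ≠ 0) (h2 : z₀.2 ≠ 0) (T δ : ℝ) (M : ℕ) (k : Zp) :
    II M 6 (pb (ins 2 1) (pb (PsI L z₀ T δ (k + 1)) (yI c))) =
      II M 6 (pb (ins 2 0) (pb (PsI L z₀ T δ k) (yI c))) := by
  conv_rhs => rw [← yI_inv c 1]
  rw [pb_pb, pb_pb, pb_pb]
  refine congr_I c M fun q hq => ?_
  have ea : ∀ i, aa z₀ T δ (k + 1) (res 6 (shift 1 (ins 2 1 q))) i =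
      rt 1 • aa z₀ T δ k (res 6 (shift 1 (ins 2 0 q))) i := fun i => by
    apply aa_CFace
    · have := ee_half_CFace
      refine Prod.ext ?_ ?_
      · simp only [vv, res, shift, ins, Prod.smul_fst, smul_eq_mul]
        simp only [Fin.val_one, Fin.val_zero, Nat.reduceAdd, lt_self_iff_false, if_false,
          if_true, this, Nat.reduceLT]
        ring
      · simp only [vv, res, shift, ins, Prod.smul_snd, smul_eq_mul, rt_add]
        simp
        ring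
    all_goals simp [res, shift, ins]
  simp only [PsI, ins0_CFace (i := 2) (by omega), ea]
  refine Prod.ext (funext fun i => L.equiv _ (hq 0) _ _ (aa_ne_zero h1 h2 T δ k _ i)) ?_
  simp only [bb, res, shift, ins]
  simp
  split_ifs <;> ring

theorem face_th2_I (T δ : ℝ) (M : ℕ) (k : Zp) :
    II M 6 (pb (ins 3 1) (pb (PsI L z₀ T δ k) (yI c))) =
      II M 6 (pb (ins 3 0) (pb (PsI L z₀ T δ (k + 1)) (yI c))) := by
  rw [pb_pb, pb_pb]
  refine congr_I c M fun q _ => ?_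
  have ea : ∀ i, aa z₀ T δ k (res 6 (shift 1 (ins 3 1 q))) i =
      aa z₀ T δ (k + 1) (res 6 (shift 1 (ins 3 0 q))) i := fun i => by
    rw [aa_CFace T δ (c := 1) (k' := k + 1) (p' := res 6 (shift 1 (ins 3 0 q))), one_smul]
    · have := ee_half_CFace
      rw [one_smul]
      refine Prod.ext ?_ ?_
      · simp [vv, res, shift, ins]
      · simp only [vv, res, shift, ins, rt_add]
        simp only [Fin.val_two, Fin.val_zero, Nat.reduceAdd, lt_self_iff_false, if_false,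
          if_true, this, Nat.reduceLT]
        ring
    all_goals simp [res, shift, ins]
  simp only [PsI, ins0_CFace (i := 3) (by omega), ea]
  refine Prod.ext rfl ?_
  simp [bb, res, shift, ins]

include L in
/-- The integral count vanishes for a map that is joined to a linear map by an equivariant
family. -/

theorem stokes_I (hc : 0 < c) (h1 : z₀.1 ≠ 0) (h2 : z₀.2 ≠ 0) : ∃ T₀ : ℝ, ∀ T, T₀ ≤ T → 0 ≤ T →
    ∃ δ₀ : ℝ, 0 < δ₀ ∧ ∀ δ : ℝ, 0 < δ → δ ≤ δ₀ →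
      ∀ᶠ M in atTop, ∑ k : Zp, II M 6 (pb (res 6) (omI c g z₀ T δ k)) = 0 := by
  obtain ⟨T₀, HT⟩ := no_hit_I c L hc h1 h2
  refine ⟨T₀, fun T hT Tpos => ?_⟩
  obtain ⟨δ₀, hδ₀, Hn⟩ := HT T hT
  refine ⟨δ₀, hδ₀, fun δ δpos hδ => ?_⟩
  replace Hn := Hn δ δpos hδ
  set C : Zp → Co Pt ℤ := fun k => pb (PsI L z₀ T δ k) (yI c) with hC
  have o : (1 : ℝ) ∈ Icc (0 : ℝ) 1 := ⟨zero_le_one, le_rfl⟩
  have z : (0 : ℝ) ∈ Icc (0 : ℝ) 1 := ⟨le_rfl, zero_le_one⟩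
  have hne : ∀ k, ∀ q ∈ cube, ∀ i, (PsI L z₀ T δ k q).1 i ≠ 0 := fun k q hq i =>
    L.ne _ (hq 0) _ (aa_ne_zero h1 h2 T δ k _ i)
  have face : ∀ k i a, a ∈ Icc (0 : ℝ) 1 → (∀ q : Pt, q i = a →
      q 0 = 1 ∨ q 4 = 0 ∨ q 4 = 1 ∨ q 5 = 0 ∨ q 5 = 1 ∨ q 6 = 0 ∨ q 6 = 1) →
      ∀ᶠ M in atTop, II M 6 (pb (ins i a) (C k)) = 0 := by
    intro k i a ha h
    refine II_lz _ fun q hq => LZ.pb ?_ (tendsto_ins i ha q)
    have hq' := ins_mem_cube i ha hq
    exact (yI_lz c (hne k _ hq') (Hn k _ hq' (h _ (by simp [ins])))).pb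
      (PsI_tendsto L h1 h2 T δ k hq')
  have b0 : ∀ k, ∀ᶠ M in atTop, II M (6 + 1) (dd (6 + 1) (C k)) = 0 := by
    intro k
    refine II_lz _ fun q hq => ?_
    rw [hC, ← pb_dd]
    exact (yI_dd c (hne k q hq) (PsI_rg L h1 h2 Tpos δpos k hq)).pb (PsI_tendsto L h1 h2 T δ k hq)
  filter_upwards [eventually_all.2 b0, eventually_gt_atTop 0,
    eventually_all.2 fun k => face k 0 1 o (by tauto),
    eventually_all.2 fun k => face k 4 0 z (by tauto),
    eventually_all.2 fun k => face k 4 1 o (by tauto),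
    eventually_all.2 fun k => face k 5 0 z (by tauto),
    eventually_all.2 fun k => face k 5 1 o (by tauto),
    eventually_all.2 fun k => face k 6 0 z (by tauto),
    eventually_all.2 fun k => face k 6 1 o (by tauto)]
    with M a0 hM a01 a40 a41 a50 a51 a60 a61
  have e0 : ∀ k, II M 6 (pb (ins 0 0) (C k)) = II M 6 (pb (res 6) (omI c g z₀ T δ k)) := by
    intro k
    rw [hC, omI, pb_pb, pb_pb]
    refine congr_I c M fun q _ => ?_
    rw [ins_zero]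
    exact Prod.ext (funext fun i => L.start _ (aa_ne_zero h1 h2 T δ k _ i)) rfl
  have st : ∀ k, (0 : ℤ) = -II M 6 (pb (res 6) (omI c g z₀ T δ k)) +
      (II M 6 (pb (ins 2 1) (C k)) - II M 6 (pb (ins 2 0) (C k))) -
      (II M 6 (pb (ins 3 1) (C k)) - II M 6 (pb (ins 3 0) (C k))) := by
    intro k
    have hdg : Dg 6 (C k) := (yI_dg c).pb _
    have r0 := face_r_I c L (z₀ := z₀) T δ M k (Or.inl rfl)
    have r1 := face_r_I c L (z₀ := z₀) T δ M k (Or.inr rfl)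
    rw [← a0 k, stokes hM _ hdg, ← e0]
    simp only [Finset.sum_range_succ, Finset.sum_range_zero, a01, a40, a41, a50, a51, a60, a61]
    simp only [hC, r0, r1]
    ring
  have s2 : ∑ k : Zp, II M 6 (pb (ins 2 1) (C k)) = ∑ k : Zp, II M 6 (pb (ins 2 0) (C k)) := by
    rw [← Equiv.sum_comp (Equiv.addRight 1)]
    exact Finset.sum_congr rfl fun k _ => face_th1_I c L h1 h2 T δ M k
  have s3 : ∑ k : Zp, II M 6 (pb (ins 3 1) (C k)) = ∑ k : Zp, II M 6 (pb (ins 3 0) (C k)) := by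
    rw [← Equiv.sum_comp (Equiv.addRight 1) fun k => II M 6 (pb (ins 3 0) (C k))]
    exact Finset.sum_congr rfl fun k _ => face_th2_I c L T δ M k
  have tot := Finset.sum_congr (rfl : (Finset.univ : Finset Zp) = _) fun k _ => st k
  simp only [Finset.sum_sub_distrib, Finset.sum_add_distrib, Finset.sum_neg_distrib, s2, s3,
    Finset.sum_const_zero] at tot
  linear_combination tot

end
section

open scoped ComplexConjugate Topology

open Set Complex Filter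

theorem Sol.sh {f : W → W} (hf : Sol f) (z : W) :
    1 / 100 < nsq (f z) ∧ nsq (f z) < 1000 ↔ 1 / 100 < nsq z ∧ nsq z < 1000 := by
  have key : ∀ y, ¬ (1 / 100 < nsq y ∧ nsq y < 1000) → f y = y := fun y hy =>
    hf.supp y (by rwa [not_and_or, not_lt, not_lt] at hy)
  constructor
  · intro h
    by_contra h'
    exact h' (key z h' ▸ h)
  · intro h
    by_contra h'
    exact h' ((hf.inj (key _ h')).symm ▸ h)

theorem Sol.sh' {f : W → W} (hf : Sol f) (j : ℕ) (z : W) :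
    Sh j (Real.exp (6 * j) • f (Real.exp (-(6 * j)) • z)) ↔ Sh j z := by
  rw [Sh, exp_neg_smul_I, hf.sh]
  rfl

theorem stack_sh {f g : W → W} {S : Finset ℕ} (hg : Stack f g S) (hf : Sol f) {j : ℕ} {z : W}
    (h : Sh j (g z)) : Sh j z := by
  by_cases h1 : ∃ i ∈ S, Sh i z
  · obtain ⟨i, hi, h1⟩ := h1
    have h2 := (hf.sh' i z).2 h1
    rw [← hg.inn i hi z h1] at h2
    exact h2.eq h ▸ h1
  · push Not at h1
    rwa [hg.out z h1] at h

theorem vv_eq_I {z₀ : W} (h1 : z₀.1 ≠ 0) (h2 : z₀.2 ≠ 0) {E : ℝ} (hE : 0 < E)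
    {k k' : Zp} {p : Fin 6 → ℝ} (hp : p ∈ cubeF 6) (h : E • vv z₀ k p = rt k' • z₀) :
    k = 0 ∧ p 0 = 1 / 2 ∧ p 1 = 1 / 2 ∧ p 2 = 1 / 2 ∧ E = 1 := by
  have a1 : ((E * (2 * (1 - p 0)) : ℝ) : ℂ) * ee (p 1 - 1 / 2) = rt k' := by
    refine mul_right_cancel₀ h1 ?_
    have := congrArg Prod.fst h
    simp only [vv, Prod.smul_fst, smul_eq_mul, real_smul] at this
    rw [← this, ofReal_mul E]
    ring
  have a2 : ((E * (2 * p 0) : ℝ) : ℂ) * (rt k * ee (p 2 - 1 / 2)) = rt k' := by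
    refine mul_right_cancel₀ h2 ?_
    have := congrArg Prod.snd h
    simp only [vv, Prod.smul_snd, smul_eq_mul, real_smul] at this
    rw [← this, ofReal_mul E]
    ring
  have b1 : E * (2 * (1 - p 0)) = 1 := by
    have := congrArg norm a1
    rwa [norm_mul, norm_ee, norm_rt, mul_one, norm_real,
      Real.norm_of_nonneg (mul_nonneg hE.le (by linarith [(hp 0).2]))] at this
  have b2 : E * (2 * p 0) = 1 := by
    have := congrArg norm a2
    rwa [norm_mul, norm_mul, norm_ee, norm_rt, norm_rt, mul_one, mul_one, norm_real,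
      Real.norm_of_nonneg (mul_nonneg hE.le (by linarith [(hp 0).1]))] at this
  rw [b1, ofReal_one, one_mul] at a1
  rw [b2, ofReal_one, one_mul] at a2
  have hab : ∀ j, |p j - 1 / 2| < 1 := fun j => by
    rw [abs_lt]
    constructor <;> linarith [(hp j).1, (hp j).2]
  obtain ⟨c1, rfl⟩ := ee_eq_rt (hab 1) a1
  have a3 : ee (p 2 - 1 / 2) = rt (-k) :=
    mul_left_cancel₀ (rt_ne_zero k) (by rw [a2, ← rt_add, add_neg_cancel])
  obtain ⟨c2, c3⟩ := ee_eq_rt (hab 2) a3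
  have hE1 : E = 1 := by linarith
  rw [hE1] at b2
  exact ⟨neg_eq_zero.1 c3, by linarith, by linarith, by linarith, hE1⟩

/-- Translation in the direction of the first height. -/
theorem aa_add_I (z₀ : W) (T δ x : ℝ) (k : Zp) (p : Fin 6 → ℝ) (i : Fin 3) :
    aa z₀ T δ k (p + Pi.single 3 x) i = Real.exp (2 * T * x) • aa z₀ T δ k p i := by
  have e1 : vv z₀ k (p + Pi.single 3 x) = vv z₀ k p := by simp [vv]
  have e2 : hh T δ (p + Pi.single 3 x) i = 2 * T * x + hh T δ p i := by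
    fin_cases i <;> simp [hh] <;> ring
  rw [aa, aa, e1, e2, Real.exp_add, mul_smul]

theorem start_I {f g : W → W} (hf : Sol f) {S : Finset ℕ} (hg : Stack f g S) {n : ℕ}
    (hn : ∀ j ∈ S, j ≤ n) : ∃ z₀ : W, z₀.1 ≠ 0 ∧ z₀.2 ≠ 0 ∧ ∃ T₁ δ₁ : ℝ, 0 < T₁ ∧
    0 < δ₁ ∧ ∀ T δ : ℝ, T₁ ≤ T → 0 < δ → δ ≤ δ₁ → ∃ s : ℤ, (s = 1 ∨ s = -1) ∧ ∀ᶠ M in atTop,
      ∑ k : Zp, II M 6 (pb (res 6) (omI (Real.exp (-(6 * n))) g z₀ T δ k)) = S.card * s := by
  classical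
  obtain ⟨z₀, α₀, β₀, h1, h2, hα, hβ, ⟨D₁, hD₁, D₂, hD₂, e₁, e₂⟩, huniq, L, hL, hLi⟩ :=
    hf.sol
  have hn0 : (0 : ℝ) ≤ n := Nat.cast_nonneg n
  refine ⟨z₀, h1, h2, β₀ + 6 * n, (β₀ - α₀) / 2, by linarith, by linarith,
    fun T δ hT hδ hδ' => ?_⟩
  set c := Real.exp (-(6 * (n : ℝ))) with hc
  have hT0 : 0 < T := by linarith
  have hT2 : 0 < 2 * T := by linarith
  have hz₀ : z₀ ≠ 0 := fun h => h1 (by rw [h]; rfl)
  obtain ⟨p₀, q0, q1, q2, q3, q4, q5⟩ : ∃ p₀ : Fin 6 → ℝ, p₀ 0 = 1 / 2 ∧ p₀ 1 = 1 / 2 ∧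
      p₀ 2 = 1 / 2 ∧ p₀ 3 = 1 / 2 ∧ 2 * T * p₀ 4 = α₀ ∧ 2 * T * p₀ 5 = β₀ - α₀ - δ :=
    ⟨![1 / 2, 1 / 2, 1 / 2, 1 / 2, α₀ / (2 * T), (β₀ - α₀ - δ) / (2 * T)], rfl, rfl, rfl, rfl,
      mul_div_cancel₀ _ hT2.ne', mul_div_cancel₀ _ hT2.ne'⟩
  obtain ⟨P, hP⟩ : ∃ P : ℕ → Fin 6 → ℝ, ∀ j, P j = p₀ + Pi.single 3 (6 * j / (2 * T)) :=
    ⟨_, fun _ => rfl⟩
  have hx6 : ∀ j : ℕ, 2 * T * (6 * j / (2 * T)) = 6 * j := fun j => mul_div_cancel₀ _ hT2.ne'
  have P3 : ∀ j, 2 * T * P j 3 = T + 6 * j := fun j => by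
    rw [hP, Pi.add_apply, Pi.single_eq_same, mul_add, hx6, q3]
    ring
  have Pn : ∀ j i, i ≠ 3 → P j i = p₀ i := fun j i hi => by
    rw [hP, Pi.add_apply, Pi.single_eq_of_ne hi, add_zero]
  have hp₀ : ∀ j ∈ S, ∀ i, P j i ∈ Ioo (0 : ℝ) 1 := by
    have k : ∀ x y : ℝ, 2 * T * x = y → 0 < y → y < 2 * T → x ∈ Ioo (0 : ℝ) 1 := fun x y e a b =>
      ⟨pos_of_mul_pos_left (show 0 < x * (2 * T) by linarith) hT2.le,
        lt_of_mul_lt_mul_left (by linarith) hT2.le⟩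
    intro j hj i
    have hj0 : (0 : ℝ) ≤ j := Nat.cast_nonneg j
    have hjn : (j : ℝ) ≤ n := by exact_mod_cast hn j hj
    fin_cases i
    · exact (show P j 0 ∈ Ioo (0 : ℝ) 1 by rw [Pn j 0 (by decide), q0]; norm_num)
    · exact (show P j 1 ∈ Ioo (0 : ℝ) 1 by rw [Pn j 1 (by decide), q1]; norm_num)
    · exact (show P j 2 ∈ Ioo (0 : ℝ) 1 by rw [Pn j 2 (by decide), q2]; norm_num)
    · exact k _ _ (P3 j) (by linarith) (by linarith)
    · exact (show P j 4 ∈ Ioo (0 : ℝ) 1 by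
        rw [Pn j 4 (by decide)]; exact k _ _ q4 hα (by linarith))
    · exact (show P j 5 ∈ Ioo (0 : ℝ) 1 by
        rw [Pn j 5 (by decide)]; exact k _ _ q5 (by linarith) (by linarith))
  have hlow : ∀ y, nsq (g y) ≤ 1 / 100 → g y = y := fun y hy =>
    hg.fix fun j _ h => absurd h.low hy.not_gt
  have hhigh : ∀ y, 1000 ≤ nsq (c • g y) → g y = y := fun y hy =>
    hg.fix fun j hj h => absurd (h.high (hn j hj)) hy.not_gt
  have hg0 : ∀ x, x ≠ 0 → g x ≠ 0 := fun x hx h =>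
    hx ((hlow x (by rw [h]; norm_num [nsq])).symm.trans h)
  have hX : ∀ k, Continuous fun p i => g (aa z₀ T δ k p i) := fun k =>
    continuous_pi fun i => hg.cont.comp (continuous_aa T δ k i)
  have hlz : ∀ k, ∀ p ∈ cubeF 6, k ≠ 0 ∨ p ∉ S.image P →
      LZ (omI c g z₀ T δ k) (𝓝[cubeF 6] p) := by
    intro k p hp hne
    have ha := aa_ne_zero h1 h2 T δ k p
    refine (yI_lz c (x := fun i => g (aa z₀ T δ k p i)) (fun i => hg0 _ (ha i)) ?_).pb
      (tendsto_comap_iff.2 (((hX k).tendsto p).mono_left nhdsWithin_le_nhds))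
    rintro ⟨c1, c2⟩
    simp only [aa_one_CSt, aa_two_CSt] at c1 c2
    have g0 : 0 ≤ 2 * T * p 4 := mul_nonneg hT2.le (hp 4).1
    have g1 : 2 * T * p 4 < 2 * T * p 4 + δ + 2 * T * p 5 := by
      have := mul_nonneg hT2.le (hp 5).1
      linarith
    have ha0 := ha 0
    have e0 : aa z₀ T δ k p 0 = Real.exp (-T + 2 * T * p 3) • vv z₀ k p := rfl
    generalize aa z₀ T δ k p 0 = z at c1 c2 ha0 e0
    generalize hα' : 2 * T * p 4 = α at c1 c2 g0 g1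
    generalize hβ' : α + δ + 2 * T * p 5 = β at c1 c2 g1
    have l1 : nsq (g (Real.exp β • z)) ≤ nsq (g z) := CC_le (k1_mem _) c1
    have l2 : nsq (g (Real.exp β • z)) ≤ nsq (g (Real.exp α • z)) := CC_le (kc_mem c _) c2
    have lt0 : nsq z < nsq (Real.exp β • z) := by
      simpa only [Real.exp_zero, one_smul] using nsq_lt_CSt (g0.trans_lt g1) ha0
    have b1 : 1 / 100 < nsq (g z) := by
      by_contra! h
      rw [hlow _ (l1.trans h), hlow _ h] at l1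
      exact absurd l1 lt0.not_ge
    have b2 : nsq (c • g (Real.exp β • z)) < 1000 := by
      by_contra! h
      have h' : 1000 ≤ nsq (c • g (Real.exp α • z)) := by
        rw [hc, nsq_exp_CSt] at h ⊢
        exact h.trans (mul_le_mul_of_nonneg_left l2 (by positivity))
      rw [hhigh _ h, hhigh _ h'] at l2
      exact absurd l2 (nsq_lt_CSt g1 ha0).not_ge
    obtain ⟨E₁, hE₁, r1⟩ := CC_arc (k1_one (by dsimp only; linarith)) (hg0 _ ha0) c1
    obtain ⟨E₂, hE₂, r2⟩ := CC_arc (kc_one (by dsimp only; linarith))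
      (hg0 _ (smul_ne_zero (Real.exp_pos _).ne' ha0)) c2
    dsimp only at r1 r2
    have n1 : nsq (g z) = nsq (g (Real.exp β • z)) := by
      rw [r1, nsq_smul, norm_ee, one_pow, one_mul]
    have n2 : nsq (g (Real.exp α • z)) = nsq (g (Real.exp β • z)) := by
      rw [r2, nsq_smul, norm_ee, one_pow, one_mul]
    obtain ⟨j, hj, sj⟩ : ∃ j ∈ S, Sh j (g (Real.exp β • z)) := by
      by_contra! h
      have h3 : g z = z := hg.fix fun j hj h' => h j hj (h'.congr n1.symm)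
      rw [hg.fix h, h3] at n1
      exact lt0.ne n1
    rw [hg.inn j hj _ (stack_sh hg hf sj), hg.inn j hj _ (stack_sh hg hf (sj.congr n1)), smul_comm (ee E₁),
      smul_comm _ (Real.exp β)] at r1
    rw [hg.inn j hj _ (stack_sh hg hf sj), hg.inn j hj _ (stack_sh hg hf (sj.congr n2)), smul_comm (ee E₂),
      smul_comm _ (Real.exp β), smul_comm _ (Real.exp α)] at r2
    obtain ⟨k', s1, s2, s3⟩ := huniq _ _ _ (smul_ne_zero (Real.exp_ne_zero _) ha0) g0 g1 E₁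
      (by norm_num at hE₁ ⊢; exact hE₁) E₂ (by norm_num at hE₂ ⊢; exact hE₂)
      (smul_right_injective W (Real.exp_ne_zero _) r1)
      (smul_right_injective W (Real.exp_ne_zero _) r2)
    rw [e0, smul_smul, ← Real.exp_add] at s1
    obtain ⟨t0, t1, t2, t3, t4⟩ := vv_eq_I h1 h2 (Real.exp_pos _) hp s1
    rw [Real.exp_eq_one_iff] at t4
    refine hne.elim (fun h => h t0) fun h => h (Finset.mem_image.2 ⟨j, hj, funext fun i => ?_⟩)
    fin_cases i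
    · exact (Pn j 0 (by decide)).trans (q0.trans t1.symm)
    · exact (Pn j 1 (by decide)).trans (q1.trans t2.symm)
    · exact (Pn j 2 (by decide)).trans (q2.trans t3.symm)
    · exact mul_left_cancel₀ hT2.ne' (show 2 * T * P j 3 = 2 * T * p 3 by linarith [P3 j])
    · exact (Pn j 4 (by decide)).trans
        (mul_left_cancel₀ hT2.ne' (show 2 * T * p₀ 4 = 2 * T * p 4 by linarith))
    · exact (Pn j 5 (by decide)).trans
        (mul_left_cancel₀ hT2.ne' (show 2 * T * p₀ 5 = 2 * T * p 5 by linarith))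
  obtain ⟨B, hBi, hB⟩ := param_deriv h1 h2 hT0 δ ⟨q0, q1, q2, q3⟩
  have x0 : aa z₀ T δ 0 p₀ 0 = z₀ := aa_half_CSt z₀ T δ ⟨q0, q1, q2, q3⟩
  have y5 : 2 * T * p₀ 4 + δ + 2 * T * p₀ 5 = β₀ := by linarith
  have x1 : aa z₀ T δ 0 p₀ 1 = Real.exp α₀ • z₀ := by rw [aa_one_CSt, x0, q4]
  have x2 : aa z₀ T δ 0 p₀ 2 = Real.exp β₀ • z₀ := by rw [aa_two_CSt, x0, y5]
  let N : ℂ × ℝ × ℂ × ℝ →L[ℝ] ℂ × ℝ × ℂ × ℝ := (ContinuousLinearMap.id ℝ ℂ).prodMap
    ((ContinuousLinearMap.id ℝ ℝ).prodMap (-ContinuousLinearMap.id ℝ (ℂ × ℝ)))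
  have hN : ∀ e, N e = (e.1, e.2.1, -e.2.2) := fun _ => rfl
  have hNi : Function.Injective N := fun a b h => by
    simp only [hN, Prod.mk.injEq, neg_inj] at h
    exact Prod.ext h.1 (Prod.ext h.2.1 h.2.2)
  have hΦ : HasFDerivAt (fun p => PsiI fun i => f (aa z₀ T δ 0 p i)) (N.comp (L.comp B)) p₀ := by
    have hL' : HasFDerivAt (Phi f) L
        (aa z₀ T δ 0 p₀ 0, 2 * T * p₀ 4, 2 * T * p₀ 4 + δ + 2 * T * p₀ 5) := by
      rwa [x0, y5, q4]
    refine (N.hasFDerivAt.comp p₀ (hL'.comp p₀ hB)).congr_of_eventuallyEq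
      (Eventually.of_forall fun p => ?_)
    simp only [PsiI, Function.comp, hN, Phi, aa_one_CSt, aa_two_CSt, Prod.neg_mk, neg_sub, det2,
      Prod.mk.injEq, true_and, and_true]
    ring
  have n1 : nsq (f (Real.exp β₀ • z₀)) = nsq (f z₀) := by
    rw [e₁, nsq_smul, norm_ee, one_pow, one_mul]
  have n2 : nsq (f (Real.exp β₀ • z₀)) = nsq (f (Real.exp α₀ • z₀)) := by
    rw [e₂, nsq_smul, norm_ee, one_pow, one_mul]
  have hdet : ∀ (c : ℂ) (x : W), det2 x (c • x) = 0 := fun c x => by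
    rw [← one_smul ℂ x, smul_smul, det2_smul, det2_self, mul_zero]
  have hΦ0 : (PsiI fun i => f (aa z₀ T δ 0 p₀ i)) = 0 := by
    simp only [PsiI, x0, x1, x2, Prod.mk_eq_zero]
    exact ⟨by rw [e₁, hdet], sub_eq_zero.2 n1, by rw [e₂, hdet], sub_eq_zero.2 n2⟩
  obtain ⟨b1, b2⟩ := bounds_CSt hf hz₀ hα.le hβ n1.le n2.le
  have hsh : ∀ i, 1 / 100 < nsq (f (aa z₀ T δ 0 p₀ i)) ∧ nsq (f (aa z₀ T δ 0 p₀ i)) < 1000 := by
    intro i
    fin_cases i
    · exact (show 1 / 100 < nsq (f (aa z₀ T δ 0 p₀ 0)) ∧ nsq (f (aa z₀ T δ 0 p₀ 0)) < 1000 by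
        rw [x0]; exact ⟨b1, by linarith⟩)
    · exact (show 1 / 100 < nsq (f (aa z₀ T δ 0 p₀ 1)) ∧ nsq (f (aa z₀ T δ 0 p₀ 1)) < 1000 by
        rw [x1]; exact ⟨by linarith, by linarith⟩)
    · exact (show 1 / 100 < nsq (f (aa z₀ T δ 0 p₀ 2)) ∧ nsq (f (aa z₀ T δ 0 p₀ 2)) < 1000 by
        rw [x2]; exact ⟨by linarith, b2⟩)
  have hAi : Function.Injective (N.comp (L.comp B)) := hNi.comp (hLi.comp hBi)
  generalize N.comp (L.comp B) = A at hΦ hAi
  obtain ⟨s, hs, hM⟩ := ldeg_th6 A hAi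
  refine ⟨s, hs, ?_⟩
  have hcard : (S.image P).card = S.card := Finset.card_image_of_injective _ fun j j' h => by
    have := P3 j
    rw [h, P3] at this
    exact_mod_cast (show (j : ℝ) = j' by linarith)
  have e2 : ∀ k ∈ (Finset.univ : Finset Zp).erase 0, ∀ᶠ M in atTop,
      II M 6 (pb (res 6) (omI c g z₀ T δ k)) = 0 := fun k hk =>
    II_lz _ fun q hq => (hlz k _ (res_mem_cubeF 6 hq)
      (Or.inl (Finset.ne_of_mem_erase hk))).pb (tendsto_res 6 q)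
  have e3 := local_sum (c := omI c g z₀ T δ 0) ((yI_dg c).pb _) (S.image P)
    (fun x hx h => hlz 0 x hx (Or.inr h)) s fun z hz c' d1 d2 d3 => ?_
  · filter_upwards [(Finset.eventually_all _).2 e2, e3] with M a2 a3
    rw [← Finset.add_sum_erase _ _ (Finset.mem_univ (0 : Zp)), Finset.sum_eq_zero a2, add_zero,
      a3, hcard]
  obtain ⟨j, hj, rfl⟩ := Finset.mem_image.1 hz
  have u1 : ∀ p i, aa z₀ T δ 0 p i =
      Real.exp (6 * j) • aa z₀ T δ 0 (p - Pi.single 3 (6 * j / (2 * T))) i := fun p i => by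
    rw [← hx6 j, ← aa_add_I, hx6, sub_add_cancel]
  have u2 : P j - Pi.single 3 (6 * j / (2 * T)) = p₀ := by rw [hP, add_sub_cancel_right]
  have u3 : ∀ᶠ p in 𝓝 (P j), ∀ i, g (aa z₀ T δ 0 p i) =
      Real.exp (6 * j) • f (aa z₀ T δ 0 (p - Pi.single 3 (6 * j / (2 * T))) i) := by
    refine eventually_all.2 fun i => ?_
    have o : Sh j (aa z₀ T δ 0 (P j) i) := by
      rw [Sh, u1, exp_neg_smul_I, u2]
      exact (hf.sh _).1 (hsh i)
    filter_upwards [((continuous_aa T δ 0 i).tendsto (P j)).eventually ((isOpen_Sh j).mem_nhds o)]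
      with p hp
    rw [hg.inn j hj _ hp, u1 p, exp_neg_smul_I]
  have u4 : ∀ i, g (aa z₀ T δ 0 (P j) i) = Real.exp (6 * j) • f (aa z₀ T δ 0 p₀ i) := fun i => by
    rw [u3.self_of_nhds, u2]
  have u5 : ∀ i, Sh j (g (aa z₀ T δ 0 (P j) i)) := fun i => by
    rw [Sh, u4, exp_neg_smul_I]
    exact hsh i
  have hΦj : HasFDerivAt (fun p => PsiI fun i => g (aa z₀ T δ 0 p i))
      (Real.exp (6 * j) ^ 2 • A) (P j) := by
    rw [← u2] at hΦ
    refine (((hasFDerivAt_comp_sub _).2 hΦ).const_smul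
      (Real.exp (6 * j) ^ 2)).congr_of_eventuallyEq (u3.mono fun p hp => ?_)
    simp only [hp, PsiI_smul, Pi.smul_apply]
  have hΦj0 : (PsiI fun i => g (aa z₀ T δ 0 (P j) i)) = 0 := by
    simp only [u4, PsiI_smul, hΦ0, smul_zero]
  have hnr := (yI_near c (x := fun i => g (aa z₀ T δ 0 (P j) i)) (by linarith [(u5 0).low])
    (by linarith [(u5 2).high (hn j hj)]) (hg0 _ (aa_ne_zero h1 h2 T δ 0 _ 1)) hD₁ hD₂
    (by simp only [u4, x0, x2]; rw [e₁, smul_comm])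
    (by simp only [u4, x1, x2]; rw [e₂, smul_comm])).pb ((hX 0).tendsto (P j))
  have hb : (fun p => (fun i => g (aa z₀ T δ 0 p i), bb 0 p)) =ᶠ[𝓝 (P j)]
      fun p => (fun i => g (aa z₀ T δ 0 p i), (0 : Zp)) := by
    have k : ∀ i, ∀ᶠ p : Fin 6 → ℝ in 𝓝 (P j), p i ≠ 1 := fun i =>
      (continuous_apply i).continuousAt.eventually_ne (hp₀ j hj i).2.ne
    filter_upwards [k 0, k 1] with p a b
    rw [bb, if_neg a, if_neg b]
  have hcz : LZ (c' - pb (fun p => PsiI fun i => g (aa z₀ T δ 0 p i)) th6) (𝓝 (P j)) := by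
    have := d2.add ((LZ.pb_congr (yI c) hb).add hnr)
    rw [← sub_add_sub_cancel _ (omI c g z₀ T δ 0),
      ← sub_add_sub_cancel (omI c g z₀ T δ 0)
        (pb (fun p => (fun i => g (aa z₀ T δ 0 p i), (0 : Zp))) (yI c))]
    exact this
  have hr : 0 < Real.exp (6 * j) ^ 2 := by positivity
  have hA0 : ∀ y, y ≠ 0 → A y ≠ 0 := fun y hy h => hy (hAi (h.trans (map_zero A).symm))
  have hloc := local_deg thom_th6 d1 (hp₀ j hj) (fun x hx => ?_) d3 hΦj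
    (Eventually.of_forall fun x => (continuous_PsiI.comp (hX 0)).continuousAt) hΦj0
    ((injective_iff_map_eq_zero _).2 fun y hy => by
      by_contra h
      exact smul_ne_zero hr.ne' (hA0 y h) hy) hcz
  · have hpath := ldeg_path thom_th6 (fun u y => ((1 - u) + u * Real.exp (6 * j) ^ 2) • A y)
      (by unfold Function.uncurry; fun_prop) fun u hu y hy => smul_ne_zero
        (by nlinarith [hu.1, hu.2, mul_nonneg hu.1 hr.le, mul_pos hr hr])
        (hA0 y fun h => by rw [h, norm_zero] at hy; norm_num at hy)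
    filter_upwards [hloc, hM, hpath] with M a b d
    simp only [sub_zero, zero_mul, add_zero, one_smul, sub_self, one_mul, zero_add] at d
    exact a.trans (d.symm.trans b)
  · rcases eq_or_ne x (P j) with rfl | h
    · have := hcz.dd (6 + 1)
      rw [dd_sub, ← pb_dd, thom_th6.closed] at this
      exact (this.of_sub (LZ.zero _)).mono nhdsWithin_le_nhds
    · exact (d3 x hx h).dd _

/-- A nonempty stack is not joined to a linear map by an equivariant family. -/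
theorem core_I {f g : W → W} (hf : Sol f) {S : Finset ℕ} (hg : Stack f g S) (hS : S.Nonempty)
    (L : EqFam g) : False := by
  obtain ⟨z₀, h1, h2, T₁, δ₁, hT₁, hδ₁, Hs⟩ := start_I hf hg (n := S.sup id)
    fun j hj => Finset.le_sup (f := id) hj
  obtain ⟨T₀, HT⟩ := stokes_I _ L (Real.exp_pos (-(6 * ((S.sup id : ℕ) : ℝ)))) h1 h2
  obtain ⟨δ₀, hδ₀, Hn⟩ := HT (max T₀ T₁) (le_max_left _ _) (hT₁.le.trans (le_max_right _ _))
  obtain ⟨s, hs, Hv⟩ := Hs (max T₀ T₁) (min δ₀ δ₁) (le_max_right _ _) (lt_min hδ₀ hδ₁)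
    (min_le_right _ _)
  obtain ⟨M, a, b⟩ := (Hv.and (Hn _ (lt_min hδ₀ hδ₁) (min_le_left _ _))).exists
  have h3 := hS.card_pos
  rw [b] at a
  rcases hs with rfl | rfl <;> omega

end
end Pool.Agent.MP_2fc7fa_gt.N.Fp.Q
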