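import Pool.Agent.Mg.F2fc7fa.Gd54744

noncomputable section

/-! The part of the library that depends on the order of the cyclic group, for any large order. -/

namespace Pool.Agent.MP_2fc7fa_gt.N.Fp.Q

/-- The order of the cyclic group. -/
class PO where
  p : ℕ
  le : 26 ≤ p

variable [PO]

abbrev pn : ℕ := PO.p

theorem pn_le : 26 ≤ pn := PO.le

theorem pn_ge : (26 : ℝ) ≤ pn := by exact_mod_cast pn_le

theorem pn_pos : (0 : ℝ) < pn := by linarith [pn_ge]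

theorem pn_ne : (pn : ℝ) ≠ 0 := pn_pos.ne'

theorem pn_neC : (pn : ℂ) ≠ 0 := by exact_mod_cast pn_ne

theorem pn_neZ : (pn : ℤ) ≠ 0 := by exact_mod_cast pn_ne

instance : NeZero pn := ⟨by have := pn_le; omega⟩

instance : Fact (1 < pn) := ⟨by have := pn_le; omega⟩

section

open scoped ContDiff ComplexConjugate Topology

open Set Complex

abbrev Zp : Type := ZMod pn

/-- The root of unity `exp (2 π i k / pn)`. -/
def rt (k : Zp) : ℂ := ZMod.stdAddChar k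

/-- `exp (2 π i u / pn)`. -/
def ee (u : ℝ) : ℂ := exp (2 * Real.pi * I * u / pn)

def wt : Fin 3 → Zp := ![0, 1, 1]

/-- The action of `k` on `ℂ³`. -/
def hat (k : Zp) (x : V) : V := fun a => rt (k * wt a) * x a

/-- The action of `k` on matrices. -/
def actM (k : Zp) (P : Mat) : Mat := fun a b => rt (k * (wt a - wt b)) * P a b

/-- A point of the chord between two roots of unity different from `1`. -/
def Chord (μ : ℂ) : Prop :=
  ∃ k₁ k₂ : Zp, ∃ u : ℝ, k₁ ≠ 0 ∧ k₂ ≠ 0 ∧ u ∈ Icc (0 : ℝ) 1 ∧ μ = (1 - u) * rt k₁ + u * rt k₂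

/-- The counting problem for `f` has exactly one orbit of solutions, and it is transverse. -/
structure Sol (f : W → W) : Prop where
  cont : Continuous f
  inj : Function.Injective f
  supp : ∀ z, nsq z ≤ 1 / 100 ∨ 1000 ≤ nsq z → f z = z
  equiv : ∀ k z, f (rt k • z) = rt k • f z
  sol : ∃ (z₀ : W) (α₀ β₀ : ℝ), z₀.1 ≠ 0 ∧ z₀.2 ≠ 0 ∧ 0 < α₀ ∧ α₀ < β₀ ∧
    (∃ D₁ ∈ Ioo (-3 : ℝ) (-2), ∃ D₂ ∈ Ioo (6 : ℝ) 7,
      f (Real.exp β₀ • z₀) = ee D₁ • f z₀ ∧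
      f (Real.exp β₀ • z₀) = ee D₂ • f (Real.exp α₀ • z₀)) ∧
    (∀ (z : W) (α β : ℝ), z ≠ 0 → 0 ≤ α → α < β →
      ∀ D₁ ∈ Icc (-3 : ℝ) (-2), ∀ D₂ ∈ Icc (6 : ℝ) 7,
      f (Real.exp β • z) = ee D₁ • f z → f (Real.exp β • z) = ee D₂ • f (Real.exp α • z) →
      ∃ k, z = rt k • z₀ ∧ α = α₀ ∧ β = β₀) ∧
    ∃ L : W × ℝ × ℝ →L[ℝ] ℂ × ℝ × ℂ × ℝ,
      HasFDerivAt (Phi f) L (z₀, α₀, β₀) ∧ Function.Injective L

/-- Part F. -/
def FStmt : Prop := ∃ f f' : W → W, Sol f ∧ ContDiff ℝ ∞ f ∧ ContDiff ℝ ∞ f' ∧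
  Function.LeftInverse f' f ∧ Function.RightInverse f' f

end
section

open scoped ComplexConjugate

theorem cast_pn : ((pn : ℕ) : Zp) = 0 := ZMod.natCast_self _

theorem intCast_ne {m : ℤ} (h0 : m ≠ 0) (h : |m| < 26) : (m : Zp) ≠ 0 := fun e => by
  have h1 := Int.le_of_dvd (abs_pos.2 h0)
    ((dvd_abs _ _).2 ((ZMod.intCast_zmod_eq_zero_iff_dvd m pn).1 e))
  have h2 := pn_le
  omega

theorem rt_zero : rt 0 = 1 := AddChar.map_zero_eq_one _

theorem rt_add (k l : Zp) : rt (k + l) = rt k * rt l := AddChar.map_add_eq_mul _ _ _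

theorem norm_rt (k : Zp) : ‖rt k‖ = 1 := Circle.norm_coe (ZMod.toCircle k)

theorem conj_rt (k : Zp) : conj (rt k) = rt (-k) := by
  have h0 : rt k * rt (-k) = 1 := by rw [← rt_add, add_neg_cancel, rt_zero]
  have h : rt k * conj (rt k) = 1 := by rw [Complex.mul_conj', norm_rt]; simp
  exact mul_left_cancel₀ (left_ne_zero_of_mul_eq_one h0) (h.trans h0.symm)

end
end Pool.Agent.MP_2fc7fa_gt.N.Fp.Q
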