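import Pool.Agent.MP_2fc7fa_gt.Q.Defs
import Pool.Agent.Mg.F2fc7fa.Gfb698a

noncomputable section

namespace Pool.Agent.MP_2fc7fa_gt.N.Fp.Q

variable [PO]

section

open scoped ContDiff Topology

open Set

/-- The chart. -/
def Lam (p : P4) : W :=
  ((Real.exp p.2.2.2 : ℂ) * ee p.1,
    (Real.exp p.2.2.2 : ℂ) * ee p.1 * ((p.2.1 : ℂ) + (p.2.2.1 : ℂ) * Complex.I))

def Lam' (z : W) : P4 :=
  (pn / (2 * Real.pi) * Complex.arg z.1, (z.2 / z.1).re, (z.2 / z.1).im, Real.log ‖z.1‖)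

/-- The properties of the diffeomorphism of `ℂ²` that the count uses. -/
structure IsF (k e : ℝ) (F : W → W) : Prop where
  smooth : ContDiff ℝ ∞ F
  equiv : ∀ j z, F (rt j • z) = rt j • F z
  mv : ∀ p, f0 p ≠ p → F (Lam (io k e p)) = Lam (io k e (f0 p))
  fix : ∀ z, F z = z ∨ ∃ j p, f0 p ≠ p ∧ rt j • z = Lam (io k e p)

/-- The triple `(z, α, β)` with reduced coordinates `X`. -/
def Xi (k e : ℝ) (X : E6) : W × ℝ × ℝ :=
  (Lam (cA k e X), k * X.2.2.2.2.1 - k * X.2.2.2.1, -X.1 + e * X.2.2.2.2.2 - k * X.2.2.2.1)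

def LamStmt : Prop :=
  ContDiff ℝ ∞ Lam ∧ ContDiffOn ℝ ∞ Lam' {z | z.1 ∈ Complex.slitPlane} ∧
    (∀ z : W, z.1 ≠ 0 → Lam (Lam' z) = z) ∧
    (∀ p : P4, |p.1| < pn / 2 → Lam' (Lam p) = p ∧ (Lam p).1 ∈ Complex.slitPlane ∧
      Complex.arg (Lam p).1 = 2 * Real.pi * p.1 / pn) ∧
    (∀ p p' : P4, Lam p = Lam p' → p.2 = p'.2 ∧ ∃ n : ℤ, p'.1 = p.1 + pn * n) ∧
    (∀ (D : ℝ) (p : P4), ee D • Lam p = Lam (sh D p)) ∧
    (∀ (a : ℝ) (p : P4), Real.exp a • Lam p = Lam (p.1, p.2.1, p.2.2.1, p.2.2.2 + a)) ∧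
    (∀ n : ℤ, rt (n : Zp) = ee n) ∧ (∀ p : P4, (Lam p).1 ≠ 0) ∧
    (∀ p : P4, nsq (Lam p) = Real.exp (2 * p.2.2.2) * (1 + p.2.1 ^ 2 + p.2.2.1 ^ 2)) ∧
    (∀ D : ℝ, ‖ee D‖ = 1) ∧
    ∀ p : P4, |p.1| ≤ 1 / 10 → |p.2.1 - 1| ≤ 1 / 100 → |p.2.2.1| ≤ 1 / 100 →
      (Lam p).2 ≠ 0

/-- Transplanting a compactly supported diffeomorphism through the chart. -/
def TransStmt : Prop :=
  ∀ h h' : P4 → P4, ContDiff ℝ ∞ h → ContDiff ℝ ∞ h' → Function.LeftInverse h' h →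
    Function.RightInverse h' h → (∀ p, h p ≠ p → ‖p‖ ≤ 10) →
    ∃ g g' : W → W, ContDiff ℝ ∞ g ∧ ContDiff ℝ ∞ g' ∧ Function.LeftInverse g' g ∧
      Function.RightInverse g' g ∧ (∀ z, g z ≠ z → ∃ p, h p ≠ p ∧ z = Lam p) ∧
      ∀ p, h p ≠ p → g (Lam p) = Lam (h p) ∧ g (Lam p) ≠ Lam p

/-- Making a diffeomorphism equivariant. -/
def EqvStmt : Prop :=
  ∀ g g' : W → W, ContDiff ℝ ∞ g → ContDiff ℝ ∞ g' → Function.LeftInverse g' g →
    Function.RightInverse g' g →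
    (∀ (z : W) (j : Zp), g z ≠ z → g (rt j • z) ≠ rt j • z → j = 0) →
    ∃ F F' : W → W, ContDiff ℝ ∞ F ∧ ContDiff ℝ ∞ F' ∧ Function.LeftInverse F' F ∧
      Function.RightInverse F' F ∧ (∀ j z, F (rt j • z) = rt j • F z) ∧
      (∀ z, g z ≠ z → F z = g z) ∧ ∀ z, F z = z ∨ ∃ j : Zp, g (rt j • z) ≠ rt j • z

def BuildStmt : Prop :=
  ∀ k e : ℝ, Par k e → ∃ F F' : W → W, IsF k e F ∧ ContDiff ℝ ∞ F' ∧
    Function.LeftInverse F' F ∧ Function.RightInverse F' F ∧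
    ∀ z, nsq z ≤ 1 / 100 ∨ 1000 ≤ nsq z → F z = z

/-- Reduction of the counting problem to the reduced system. -/
def ReduceStmt : Prop :=
  ∀ (k e : ℝ) (F : W → W), Par k e → IsF k e F →
    ∀ (z : W) (α β : ℝ), z ≠ 0 → 0 ≤ α → α < β →
      ∀ D₁ ∈ Icc (-3 : ℝ) (-2), ∀ D₂ ∈ Icc (6 : ℝ) 7,
      F (Real.exp β • z) = ee D₁ • F z → F (Real.exp β • z) = ee D₂ • F (Real.exp α • z) →
      ∃ (X : E6) (j : Zp), (e / k, X) ∈ KK ∧ Red k (e / k, X) = 0 ∧
        z = rt j • (Xi k e X).1 ∧ α = (Xi k e X).2.1 ∧ β = (Xi k e X).2.2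

def LocalStmt : Prop :=
  ∀ (k e : ℝ) (F : W → W) (X : E6), Par k e → IsF k e F → (e / k, X) ∈ Good k →
    F (Lam (cA k e X)) = Lam (tA k e X) ∧ F (Lam (cM k e X)) = Lam (tM k e X) ∧
      F (Lam (cB e X)) = Lam (tB k X)

/-- Two curves in the chart: vanishing of the derivative of the equations. -/
def PairStmt : Prop :=
  ∀ (c c' : ℝ → P4) (v v' : P4), HasDerivAt c v 0 → HasDerivAt c' v' 0 → (c 0).2 = (c' 0).2 →
    HasDerivAt (fun τ => det2 (Lam (c τ)) (Lam (c' τ))) 0 0 →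
    HasDerivAt (fun τ => nsq (Lam (c' τ)) - nsq (Lam (c τ))) 0 0 → v.2 = v'.2

/-- Transfer of transversality. -/
def NondegStmt : Prop :=
  ∀ (k e : ℝ) (F : W → W) (X : E6), Par k e → IsF k e F → (e / k, X) ∈ Good k →
    Red k (e / k, X) = 0 → Function.Injective (fderiv ℝ (fun Y => Red k (e / k, Y)) X) →
    ∃ L : W × ℝ × ℝ →L[ℝ] ℂ × ℝ × ℂ × ℝ,
      HasFDerivAt (Phi F) L (Xi k e X) ∧ Function.Injective L

end
section

open scoped ContDiff Topology

open Set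

theorem ee_eq_FLam (u : ℝ) : ee u = Complex.exp ((2 * Real.pi * u / pn : ℝ) * Complex.I) := by
  unfold ee
  congr 1
  push_cast
  ring

theorem ee_norm_FLam (u : ℝ) : ‖ee u‖ = 1 := by
  rw [ee_eq_FLam, Complex.norm_exp_ofReal_mul_I]

theorem ee_add_FLam (u v : ℝ) : ee (u + v) = ee u * ee v := by
  unfold ee
  rw [← Complex.exp_add]
  congr 1
  push_cast
  ring

theorem ne_FLam (p : P4) : (Lam p).1 ≠ 0 :=
  mul_ne_zero (Complex.ofReal_ne_zero.2 (Real.exp_ne_zero _)) (Complex.exp_ne_zero _)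

theorem norm_FLam (p : P4) : ‖(Lam p).1‖ = Real.exp p.2.2.2 := by
  show ‖(Real.exp p.2.2.2 : ℂ) * ee p.1‖ = _
  rw [norm_mul, ee_norm_FLam, mul_one, Complex.norm_real, Real.norm_of_nonneg (Real.exp_pos _).le]

theorem quot_FLam (p : P4) :
    (Lam p).2 / (Lam p).1 = (p.2.1 : ℂ) + (p.2.2.1 : ℂ) * Complex.I :=
  mul_div_cancel_left₀ _ (ne_FLam p)

theorem arg_FLam (p : P4) (hp : |p.1| < pn / 2) :
    Complex.arg (Lam p).1 = 2 * Real.pi * p.1 / pn := by
  show Complex.arg ((Real.exp p.2.2.2 : ℂ) * ee p.1) = _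
  have hπ := Real.pi_pos
  obtain ⟨h1, h2⟩ := abs_lt.1 hp
  rw [ee_eq_FLam, Complex.exp_mul_I]
  apply Complex.arg_mul_cos_add_sin_mul_I (Real.exp_pos _)
  rw [mem_Ioc, lt_div_iff₀ pn_pos, div_le_iff₀ pn_pos]
  constructor <;> nlinarith

theorem smooth_FLam : ContDiff ℝ ∞ Lam := by
  have h0 : ContDiff ℝ ∞ fun p : P4 => Real.exp p.2.2.2 := by fun_prop
  have h1 : ContDiff ℝ ∞ fun p : P4 => (Real.exp p.2.2.2 : ℂ) :=
    Complex.ofRealCLM.contDiff.comp h0
  have h2 : ContDiff ℝ ∞ fun p : P4 => ee p.1 := by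
    have a : ContDiff ℝ ∞ fun p : P4 => (p.1 : ℂ) := Complex.ofRealCLM.contDiff.comp contDiff_fst
    exact Complex.contDiff_exp.comp ((contDiff_const.mul a).div_const _)
  have h3 : ContDiff ℝ ∞ fun p : P4 => (p.2.1 : ℂ) := Complex.ofRealCLM.contDiff.comp (by fun_prop)
  have h4 : ContDiff ℝ ∞ fun p : P4 => (p.2.2.1 : ℂ) :=
    Complex.ofRealCLM.contDiff.comp (by fun_prop)
  exact (h1.mul h2).prodMk ((h1.mul h2).mul (h3.add (h4.mul contDiff_const)))

theorem smooth'_FLam : ContDiffOn ℝ ∞ Lam' {z | z.1 ∈ Complex.slitPlane} := by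
  intro z hz
  apply ContDiffAt.contDiffWithinAt
  have hl : ContDiffAt ℝ ∞ (fun z : W => Complex.log z.1) z :=
    ((Complex.contDiffAt_log hz).restrict_scalars ℝ).comp z contDiffAt_fst
  have hq : ContDiffAt ℝ ∞ (fun z : W => z.2 / z.1) z :=
    (ContDiffAt.div (𝕜 := ℂ) contDiffAt_snd contDiffAt_fst
      (Complex.slitPlane_ne_zero hz)).restrict_scalars ℝ
  have e : Lam' = fun z : W => (pn / (2 * Real.pi) * (Complex.log z.1).im, (z.2 / z.1).re,
      (z.2 / z.1).im, (Complex.log z.1).re) := by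
    funext z
    rw [Complex.log_im, Complex.log_re]
    rfl
  rw [e]
  exact (contDiffAt_const.mul (Complex.imCLM.contDiff.contDiffAt.comp z hl)).prodMk
    ((Complex.reCLM.contDiff.contDiffAt.comp z hq).prodMk
      ((Complex.imCLM.contDiff.contDiffAt.comp z hq).prodMk
        (Complex.reCLM.contDiff.contDiffAt.comp z hl)))

theorem right_FLam (z : W) (hz : z.1 ≠ 0) : Lam (Lam' z) = z := by
  have h1 : (Lam (Lam' z)).1 = z.1 := by
    show ((Real.exp (Real.log ‖z.1‖) : ℝ) : ℂ) * ee (pn / (2 * Real.pi) * Complex.arg z.1) = z.1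
    have : 2 * Real.pi * (pn / (2 * Real.pi) * Complex.arg z.1) / pn = Complex.arg z.1 := by
      have := pn_ne
      field_simp
    rw [Real.exp_log (norm_pos_iff.2 hz), ee_eq_FLam, this, Complex.norm_mul_exp_arg_mul_I]
  refine Prod.ext h1 ?_
  show (Lam (Lam' z)).1 * (((z.2 / z.1).re : ℂ) + ((z.2 / z.1).im : ℂ) * Complex.I) = z.2
  rw [h1, Complex.re_add_im, mul_div_cancel₀ _ hz]

theorem left_FLam (p : P4) (hp : |p.1| < pn / 2) : Lam' (Lam p) = p := by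
  unfold Lam'
  rw [arg_FLam p hp, quot_FLam, norm_FLam, Real.log_exp]
  refine Prod.ext ?_ (Prod.ext ?_ (Prod.ext ?_ rfl))
  · simp only
    have := pn_ne
    field_simp
  · simp
  · simp

theorem inj_FLam (p p' : P4) (h : Lam p = Lam p') : p.2 = p'.2 ∧ ∃ n : ℤ, p'.1 = p.1 + pn * n := by
  have h1 : p.2.2.2 = p'.2.2.2 := by
    apply Real.exp_injective
    rw [← norm_FLam, h, norm_FLam]
  have h2 := quot_FLam p
  rw [h, quot_FLam] at h2
  have h3 : p.2.1 = p'.2.1 := by simpa using (congrArg Complex.re h2).symm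
  have h4 : p.2.2.1 = p'.2.2.1 := by simpa using (congrArg Complex.im h2).symm
  refine ⟨Prod.ext h3 (Prod.ext h4 h1), ?_⟩
  have h5 : (Real.exp p.2.2.2 : ℂ) * ee p.1 = (Real.exp p'.2.2.2 : ℂ) * ee p'.1 :=
    congrArg Prod.fst h
  rw [h1] at h5
  have h6 := mul_left_cancel₀ (Complex.ofReal_ne_zero.2 (Real.exp_ne_zero _)) h5
  rw [ee_eq_FLam, ee_eq_FLam, eq_comm, Complex.exp_eq_exp_iff_exists_int] at h6
  obtain ⟨n, hn⟩ := h6
  refine ⟨n, ?_⟩
  have h7 : 2 * Real.pi * p'.1 / pn = 2 * Real.pi * p.1 / pn + n * (2 * Real.pi) := by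
    simpa using congrArg Complex.im hn
  have hπ := Real.pi_pos
  have := pn_ne
  field_simp at h7
  linarith

theorem last_FLam (p : P4) (_h1 : |p.1| ≤ 1 / 10) (h2 : |p.2.1 - 1| ≤ 1 / 100)
    (_h3 : |p.2.2.1| ≤ 1 / 100) : (Lam p).2 ≠ 0 := by
  refine mul_ne_zero (ne_FLam p) fun h => ?_
  have h4 : p.2.1 = 0 := by simpa using congrArg Complex.re h
  linarith [(abs_le.1 h2).1]

theorem lamS : LamStmt := by
  refine ⟨smooth_FLam, smooth'_FLam, right_FLam, fun p hp => ⟨left_FLam p hp, ?_, arg_FLam p hp⟩,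
    inj_FLam, fun D p => ?_, fun a p => ?_, fun n => ?_, ne_FLam, fun p => ?_, ee_norm_FLam,
    last_FLam⟩
  · refine Complex.mem_slitPlane_iff_arg.2 ⟨?_, ne_FLam p⟩
    rw [arg_FLam p hp]
    have hπ := Real.pi_pos
    apply ne_of_lt
    rw [div_lt_iff₀ pn_pos]
    nlinarith [(abs_lt.1 hp).2]
  · simp only [Lam, sh, ee_add_FLam, Prod.smul_mk, smul_eq_mul]
    refine Prod.ext ?_ ?_ <;> simp only <;> ring
  · simp only [Lam, Real.exp_add, Prod.smul_mk, Complex.real_smul, Complex.ofReal_mul]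
    refine Prod.ext ?_ ?_ <;> simp only <;> ring
  · unfold rt ee
    rw [ZMod.stdAddChar_coe]
    simp
  · have e : (Lam p).2 = (Lam p).1 * ((p.2.1 : ℂ) + (p.2.2.1 : ℂ) * Complex.I) := rfl
    unfold nsq
    rw [e, norm_mul, norm_FLam, mul_pow, Complex.sq_norm, Complex.normSq_add_mul_I, two_mul,
      Real.exp_add]
    ring

end
section

open scoped ContDiff Topology

open Set

open Classical in
/-- The transplant of `h`. -/

def tr_FTrans (h : P4 → P4) (z : W) : W :=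
  if z.1 ∈ Complex.slitPlane then Lam (h (Lam' z)) else z

theorem tr_pos_FTrans (h : P4 → P4) {z : W} (hz : z.1 ∈ Complex.slitPlane) :
    tr_FTrans h z = Lam (h (Lam' z)) := by
  unfold tr_FTrans
  rw [if_pos hz]

theorem tr_neg_FTrans (h : P4 → P4) {z : W} (hz : z.1 ∉ Complex.slitPlane) :
    tr_FTrans h z = z := by
  unfold tr_FTrans
  rw [if_neg hz]

theorem fst_lt_FTrans {p : P4} (hp : ‖p‖ ≤ 10) : |p.1| < pn / 2 := by
  have h1 : ‖p.1‖ ≤ ‖p‖ := norm_fst_le p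
  rw [Real.norm_eq_abs] at h1
  linarith [pn_ge]

theorem moved_FTrans (hL : LamStmt) (h : P4 → P4) (z : W) (hz : tr_FTrans h z ≠ z) :
    ∃ p, h p ≠ p ∧ z = Lam p := by
  by_cases hs : z.1 ∈ Complex.slitPlane
  · have h0 : z.1 ≠ 0 := Complex.slitPlane_ne_zero hs
    have h1 : Lam (Lam' z) = z := hL.2.2.1 z h0
    refine ⟨Lam' z, ?_, h1.symm⟩
    intro he
    apply hz
    rw [tr_pos_FTrans h hs, he, h1]
  · exact absurd (tr_neg_FTrans h hs) hz

theorem act_FTrans (hL : LamStmt) (h : P4 → P4) (hi : Function.Injective h)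
    (hb : ∀ p, h p ≠ p → ‖p‖ ≤ 10) (p : P4) (hp : h p ≠ p) :
    tr_FTrans h (Lam p) = Lam (h p) ∧ tr_FTrans h (Lam p) ≠ Lam p := by
  have h1 := hL.2.2.2.1 p (fst_lt_FTrans (hb p hp))
  have hp' : h (h p) ≠ h p := fun he => hp (hi he)
  have h2 := hL.2.2.2.1 (h p) (fst_lt_FTrans (hb _ hp'))
  have h3 : tr_FTrans h (Lam p) = Lam (h p) := by
    rw [tr_pos_FTrans h h1.2.1, h1.1]
  refine ⟨h3, ?_⟩
  rw [h3]
  intro he
  apply hp
  rw [← h2.1, he, h1.1]

theorem inv_FTrans (hL : LamStmt) (h h' : P4 → P4) (hl : Function.LeftInverse h' h)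
    (hr : Function.RightInverse h' h) (hb : ∀ p, h p ≠ p → ‖p‖ ≤ 10)
    (hb' : ∀ p, h' p ≠ p → ‖p‖ ≤ 10) :
    Function.LeftInverse (tr_FTrans h') (tr_FTrans h) := by
  intro z
  by_cases hz : tr_FTrans h z = z
  · rw [hz]
    by_contra hne
    obtain ⟨p, hp, rfl⟩ := moved_FTrans hL h' z hne
    have hp' : h p ≠ p := by
      intro he
      apply hp
      have := hl p
      rwa [he] at this
    exact (act_FTrans hL h hl.injective hb p hp').2 hz
  · obtain ⟨p, hp, rfl⟩ := moved_FTrans hL h z hz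
    have h1 : h' (h p) ≠ h p := by
      rw [hl p]
      exact fun he => hp he.symm
    rw [(act_FTrans hL h hl.injective hb p hp).1,
      (act_FTrans hL h' hr.injective hb' (h p) h1).1, hl p]

theorem smooth_FTrans (hL : LamStmt) (h : P4 → P4) (hs : ContDiff ℝ ∞ h)
    (hb : ∀ p, h p ≠ p → ‖p‖ ≤ 10) : ContDiff ℝ ∞ (tr_FTrans h) := by
  rw [contDiff_iff_contDiffAt]
  intro z
  have hU : IsOpen {z : W | z.1 ∈ Complex.slitPlane} :=
    Complex.isOpen_slitPlane.preimage continuous_fst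
  by_cases hz : z.1 ∈ Complex.slitPlane
  · have hn : {z : W | z.1 ∈ Complex.slitPlane} ∈ 𝓝 z := hU.mem_nhds hz
    have h1 : ContDiffAt ℝ ∞ Lam' z := hL.2.1.contDiffAt hn
    have h2 : ContDiffAt ℝ ∞ (fun w => Lam (h (Lam' w))) z :=
      hL.1.contDiffAt.comp z (hs.contDiffAt.comp z h1)
    refine h2.congr_of_eventuallyEq ?_
    filter_upwards [hn] with w hw
    exact tr_pos_FTrans h hw
  · have hK : IsCompact (Lam '' Metric.closedBall (0 : P4) 10) :=
      (isCompact_closedBall (0 : P4) 10).image hL.1.continuous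
    have hzK : z ∈ (Lam '' Metric.closedBall (0 : P4) 10)ᶜ := by
      rintro ⟨p, hp, rfl⟩
      rw [mem_closedBall_zero_iff] at hp
      exact hz (hL.2.2.2.1 p (fst_lt_FTrans hp)).2.1
    have hn : (Lam '' Metric.closedBall (0 : P4) 10)ᶜ ∈ 𝓝 z :=
      hK.isClosed.isOpen_compl.mem_nhds hzK
    refine (contDiffAt_id (𝕜 := ℝ) (n := ∞) (x := z)).congr_of_eventuallyEq ?_
    filter_upwards [hn] with w hw
    by_contra hne
    obtain ⟨p, hp, rfl⟩ := moved_FTrans hL h w hne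
    exact hw ⟨p, mem_closedBall_zero_iff.2 (hb p hp), rfl⟩

theorem transS (hL : LamStmt) : TransStmt := by
  intro h h' hs hs' hl hr hb
  have hb' : ∀ p, h' p ≠ p → ‖p‖ ≤ 10 := by
    intro p hp
    apply hb
    intro he
    apply hp
    have := hl p
    rwa [he] at this
  exact ⟨tr_FTrans h, tr_FTrans h', smooth_FTrans hL h hs hb, smooth_FTrans hL h' hs' hb',
    inv_FTrans hL h h' hl hr hb hb', inv_FTrans hL h' h hr hl hb' hb, moved_FTrans hL h,
    act_FTrans hL h hl.injective hb⟩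

end
section

open scoped ContDiff

/-- The equivariant version of `g`. -/
noncomputable def av_FEqv (g : W → W) (z : W) : W := z + ∑ j : Zp, (rt (-j) • g (rt j • z) - z)

theorem add_FEqv (j k : Zp) (z : W) : rt j • rt k • z = rt (j + k) • z := by
  rw [smul_smul, rt, rt, rt, AddChar.map_add_eq_mul]

theorem zero_FEqv (z : W) : rt 0 • z = z := by
  rw [rt, AddChar.map_zero_eq_one, one_smul]

theorem none_FEqv {g : W → W} {z : W} (h : ∀ j, g (rt j • z) = rt j • z) : av_FEqv g z = z := by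
  simp [av_FEqv, h, add_FEqv, zero_FEqv]

theorem one_FEqv {g : W → W}
    (hd : ∀ (z : W) (j : Zp), g z ≠ z → g (rt j • z) ≠ rt j • z → j = 0) {z : W} {j : Zp}
    (h : g (rt j • z) ≠ rt j • z) : av_FEqv g z = rt (-j) • g (rt j • z) := by
  rw [av_FEqv, Finset.sum_eq_single j (fun k _ hk => ?_) (by simp), add_sub_cancel]
  have h1 : g (rt k • z) = rt k • z := by
    by_contra h1
    exact hk (sub_eq_zero.1 (hd _ (k - j) h (by rwa [add_FEqv, sub_add_cancel])))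
  rw [h1, add_FEqv, neg_add_cancel, zero_FEqv, sub_self]

theorem inv_FEqv {g g' : W → W} (h1 : Function.LeftInverse g' g)
    (hd : ∀ (z : W) (j : Zp), g z ≠ z → g (rt j • z) ≠ rt j • z → j = 0)
    (hd' : ∀ (z : W) (j : Zp), g' z ≠ z → g' (rt j • z) ≠ rt j • z → j = 0) :
    Function.LeftInverse (av_FEqv g') (av_FEqv g) := fun z => by
  by_cases h : ∀ j, g (rt j • z) = rt j • z
  · rw [none_FEqv h, none_FEqv fun j => by rw [← h j, h1, h j]]
  · obtain ⟨j, hj⟩ := not_forall.1 h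
    have e : rt j • rt (-j) • g (rt j • z) = g (rt j • z) := by
      rw [add_FEqv, add_neg_cancel, zero_FEqv]
    rw [one_FEqv hd hj, one_FEqv hd' (j := j) (by rw [e, h1]; exact Ne.symm hj), e, h1, add_FEqv,
      neg_add_cancel, zero_FEqv]

theorem smooth_FEqv {g : W → W} (h : ContDiff ℝ ∞ g) : ContDiff ℝ ∞ (av_FEqv g) :=
  contDiff_id.add (ContDiff.sum fun j _ =>
    ((h.comp (contDiff_id.const_smul (rt j))).const_smul (rt (-j))).sub contDiff_id)

theorem eqvS : EqvStmt := by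
  intro g g' hg hg' h1 h2 hd
  have hm : ∀ z, g' z ≠ z → g z ≠ z := fun z h e => h (by rw [← e, h1, e])
  have hd' : ∀ (z : W) (j : Zp), g' z ≠ z → g' (rt j • z) ≠ rt j • z → j = 0 := fun z j a b =>
    hd z j (hm _ a) (hm _ b)
  refine ⟨av_FEqv g, av_FEqv g', smooth_FEqv hg, smooth_FEqv hg', inv_FEqv h1 hd hd',
    inv_FEqv h2 hd' hd, fun j z => ?_, fun z h => ?_, fun z => ?_⟩
  · rw [av_FEqv, av_FEqv, smul_add, Finset.smul_sum, ← Equiv.sum_comp (Equiv.subRight j)]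
    simp only [Equiv.subRight_apply, add_FEqv, smul_sub, sub_add_cancel, neg_sub, sub_eq_add_neg j]
  · rw [one_FEqv hd (j := 0) (by rwa [zero_FEqv]), neg_zero, zero_FEqv, zero_FEqv]
  · by_cases h : ∀ j, g (rt j • z) = rt j • z
    · exact Or.inl (none_FEqv h)
    · exact Or.inr (not_forall.1 h)

end
section

open scoped ContDiff Topology

open Set

theorem buildS (hM : ModelStmt) (hP : ProfStmt) (hL : LamStmt) (hT : TransStmt) (hE : EqvStmt)
    (hD : DisjStmt) : BuildStmt := by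
  intro k e h
  have hek : e ≤ k := by linarith [h.le, h.pos]
  obtain ⟨i1, i2, i3, i4⟩ := hP.2.2.2.2.2.2.2.2.2 k e h.pos hek
  obtain ⟨m1, m2, m3, m4, -, m6, -⟩ := hM
  obtain ⟨-, -, -, -, l5, l6, -, l8, -, l10, l11, -⟩ := hL
  have hrt : ∀ j : Zp, rt j = ee ((j.val : ℤ) : ℝ) := fun j => by
    rw [← l8]
    simp
  have hmv : ∀ q, (io k e ∘ f0 ∘ io' k e) q ≠ q → ∃ p, f0 p ≠ p ∧ q = io k e p := by
    intro q hq
    refine ⟨io' k e q, fun h0 => hq ?_, (i4 q).symm⟩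
    simp only [Function.comp_apply, h0]
    exact i4 q
  obtain ⟨g, g', g1, g2, g3, g4, g5, g6⟩ := hT (io k e ∘ f0 ∘ io' k e) (io k e ∘ f0' ∘ io' k e)
    (i1.comp (m1.comp i2)) (i1.comp (m2.comp i2))
    (fun q => by simp only [Function.comp_apply]; rw [i3, m3, i4])
    (fun q => by simp only [Function.comp_apply]; rw [i3, m4, i4])
    (fun q hq => by
      obtain ⟨p, hp, rfl⟩ := hmv q hq
      obtain ⟨b1, b2, b3, b4⟩ := bound_FBuild hP h (m6 p hp)
      simp only [Prod.norm_def, Real.norm_eq_abs, max_le_iff]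
      exact ⟨b1, by linarith, by linarith, by linarith⟩)
  have g7 : ∀ z, g z ≠ z → ∃ p, f0 p ≠ p ∧ z = Lam (io k e p) := by
    intro z hz
    obtain ⟨q, hq, rfl⟩ := g5 z hz
    obtain ⟨p, hp, rfl⟩ := hmv q hq
    exact ⟨p, hp, rfl⟩
  obtain ⟨F, F', f1, f2, f3, f4, f5, f6, f7⟩ := hE g g' g1 g2 g3 g4 (by
    intro z j hz hj
    obtain ⟨p, hp, rfl⟩ := g7 z hz
    obtain ⟨p', hp', e'⟩ := g7 _ hj
    rw [hrt, l6] at e'
    obtain ⟨e1, n, e2⟩ := l5 _ _ e'
    have h0 := hD k e p p' ((j.val : ℤ) + pn * n) h (m6 p hp) (m6 p' hp') (by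
      simp only [sh, io] at e2
      rw [e2]
      push_cast
      ring) e1
    have h1 : (((j.val : ℤ) + pn * n : ℤ) : Zp) = 0 := by rw [h0]; simp
    have h37 : (pn : Zp) = 0 := cast_pn
    push_cast at h1
    rw [h37] at h1
    simpa using h1)
  have fx : ∀ z, F z = z ∨ ∃ j p, f0 p ≠ p ∧ rt j • z = Lam (io k e p) := by
    intro z
    rcases f7 z with h0 | ⟨j, hj⟩
    · exact .inl h0
    · obtain ⟨p, hp, e'⟩ := g7 _ hj
      exact .inr ⟨j, p, hp, e'⟩
  refine ⟨F, F', ⟨f1, f5, fun p hp => ?_, fx⟩, f2, f3, f4, fun z hz => ?_⟩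
  · have e1 : (io k e ∘ f0 ∘ io' k e) (io k e p) = io k e (f0 p) := by
      simp only [Function.comp_apply]
      rw [i3]
    obtain ⟨a1, a2⟩ := g6 (io k e p) (by rw [e1]; exact fun h0 => hp (i3.injective h0))
    rw [f6 _ a2, a1, e1]
  · rcases fx z with h0 | ⟨j, p, hp, e'⟩
    · exact h0
    exfalso
    have n1 : nsq z = nsq (Lam (io k e p)) := by
      rw [← e', nsq_FBuild _ (by rw [hrt, l11])]
    rw [l10] at n1
    obtain ⟨-, b2, b3, b4⟩ := bound_FBuild hP h (m6 p hp)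
    set a := (io k e p).2.1
    set b := (io k e p).2.2.1
    set r := (io k e p).2.2.2
    have c2 : a ^ 2 ≤ 16 := by nlinarith [abs_nonneg a, sq_abs a]
    have c3 : b ^ 2 ≤ 4 := by nlinarith [abs_nonneg b, sq_abs b]
    have x2 : Real.exp 2 < 9 := by
      have := Real.exp_one_lt_d9
      have h2 : Real.exp 2 = Real.exp 1 * Real.exp 1 := by rw [← Real.exp_add]; norm_num
      nlinarith [Real.exp_pos 1]
    rw [abs_le] at b4
    have x3 : Real.exp (2 * r) < 9 :=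
      (Real.exp_le_exp.2 (by linarith [b4.2])).trans_lt x2
    have x4 : 1 / 9 < Real.exp (2 * r) := by
      have h3 : Real.exp (-(2 * r)) < 9 := (Real.exp_le_exp.2 (by linarith [b4.1])).trans_lt x2
      have h4 : Real.exp (2 * r) * Real.exp (-(2 * r)) = 1 := by
        rw [← Real.exp_add]; simp
      nlinarith [Real.exp_pos (2 * r), Real.exp_pos (-(2 * r))]
    rcases hz with hz | hz
    · nlinarith [sq_nonneg a, sq_nonneg b]
    · nlinarith [sq_nonneg a, sq_nonneg b]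

end
section

open Set

lemma lift_FReduce (hM : ModelStmt) (hL : LamStmt) {k e : ℝ} {F : W → W} (hF : IsF k e F)
    (x : P4) : ∃ y, Lf k e x y ∧ F (Lam x) = Lam y ∧ |y.1 - x.1| ≤ 9 := by
  obtain ⟨-, -, hl, -, -, hS, -⟩ := hM
  obtain ⟨-, -, -, -, l5, l6, -, l8, -, -, l11, -⟩ := hL
  rcases hF.fix (Lam x) with h | ⟨j, p, hp, h⟩
  · exact ⟨x, Or.inl rfl, h, by simp⟩
  have hj : rt j = ee ((j.val : ℤ) : ℝ) := by rw [← l8]; simp
  have h' := h
  rw [hj, l6] at h'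
  obtain ⟨a1, n, a2⟩ := l5 _ _ h'
  have a3 : io k e p = sh ((j.val + pn * n : ℤ) : ℝ) x := by
    refine Prod.ext ?_ a1.symm
    rw [a2]
    simp only [sh]
    push_cast
    ring
  have a4 : io k e (f0 p) =
      sh ((j.val + pn * n : ℤ) : ℝ) (sh (-((j.val + pn * n : ℤ) : ℝ)) (io k e (f0 p))) :=
    Prod.ext (neg_add_cancel_right _ _).symm rfl
  have a5 : rt j = ee ((j.val + pn * n : ℤ) : ℝ) := by
    rw [← l8]
    have : (pn : Zp) = 0 := cast_pn
    simp [this]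
  have a6 : rt j ≠ 0 := by
    rw [hj, ← norm_ne_zero_iff, l11]
    exact one_ne_zero
  refine ⟨_, Or.inr ⟨p, _, hp, a3, a4⟩, smul_right_injective W a6 ?_, ?_⟩
  · change rt j • F (Lam x) = rt j • Lam _
    rw [← hF.equiv, h, hF.mv p hp, a5, l6, ← a4]
  · have b1 := (hS p hp).1
    have b2 := (hS (f0 p) fun h => hp (hl.injective h)).1
    have b3 : p.1 = x.1 + ((j.val + pn * n : ℤ) : ℝ) := congrArg Prod.fst a3
    have b4 : ∀ q : P4, qq (17 / 4) q ≤ (173 / 40) ^ 2 → |q.1 - 17 / 4| ≤ 173 / 40 := fun q hq =>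
      abs_le_of_sq_le_sq (by unfold qq at hq; nlinarith [sq_nonneg q.2.1, sq_nonneg q.2.2.1])
        (by norm_num)
    have b5 := abs_le.1 (b4 _ b1)
    have b6 := abs_le.1 (b4 _ b2)
    change |(f0 p).1 + -((j.val + pn * n : ℤ) : ℝ) - x.1| ≤ 9
    rw [abs_le]
    constructor <;> linarith [b5.1, b5.2, b6.1, b6.2]

lemma cmp_FReduce (hL : LamStmt) {y y' : P4} {t D : ℝ} (h1 : |y.1 - t| ≤ 9) (h2 : |y'.1 - t| ≤ 9)
    (hD : |D| ≤ 7) (h : Lam y' = ee D • Lam y) : y.2 = y'.2 ∧ y'.1 - y.1 = D := by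
  obtain ⟨-, -, -, -, l5, l6, -⟩ := hL
  rw [l6] at h
  obtain ⟨a1, n, a2⟩ := l5 _ _ h.symm
  change y'.1 = y.1 + D + pn * n at a2
  rw [abs_le] at h1 h2 hD
  have b1 : (n : ℝ) < 1 := by nlinarith [h1.1, h2.2, hD.1, pn_ge]
  have b2 : (-1 : ℝ) < n := by nlinarith [h1.2, h2.1, hD.2, pn_ge]
  have b3 : n = 0 := by
    have c1 : n < 1 := by exact_mod_cast b1
    have c2 : -1 < n := by exact_mod_cast b2
    omega
  rw [b3] at a2
  exact ⟨a1, by rw [a2]; simp⟩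

theorem reduceS (hM : ModelStmt) (hP : ProfStmt) (hL : LamStmt) (hC : CoarseStmt) :
    ReduceStmt := by
  intro k e F hk hF z α β hz hα hβ D₁ hD₁ D₂ hD₂ e1 e2
  obtain ⟨-, -, l3, -, -, l6, l7, l8, l9, -, l11, -⟩ := id hL
  by_cases h0 : z.1 = 0
  · exfalso
    have hfix : ∀ w : W, w.1 = 0 → F w = w := fun w hw => (hF.fix w).resolve_right (by
      rintro ⟨j, p, -, h⟩
      refine l9 (io k e p) ?_
      rw [← h, Prod.smul_fst, hw, smul_zero])
    rw [hfix z h0, hfix _ (by rw [Prod.smul_fst, h0, smul_zero])] at e1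
    have := congrArg norm e1
    rw [norm_smul, norm_smul, l11, Real.norm_eq_abs, abs_of_pos (Real.exp_pos β)] at this
    have h1 := mul_right_cancel₀ (norm_ne_zero_iff.2 hz) this
    rw [Real.exp_eq_one_iff] at h1
    linarith
  obtain ⟨⟨θ, a, b, ρ⟩, rfl⟩ : ∃ x, Lam x = z := ⟨_, l3 z h0⟩
  rw [l7] at e1 e2
  rw [l7] at e2
  obtain ⟨y₁, a1, a2, a3⟩ := lift_FReduce hM hL hF (θ, a, b, ρ)
  obtain ⟨y₂, b1, b2, b3⟩ := lift_FReduce hM hL hF (θ, a, b, ρ + α)
  obtain ⟨y₃, c1, c2, c3⟩ := lift_FReduce hM hL hF (θ, a, b, ρ + β)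
  obtain ⟨d1, d2⟩ := cmp_FReduce hL a3 c3 (abs_le.2 ⟨by linarith [hD₁.1], by linarith [hD₁.2]⟩)
    (c2.symm.trans (e1.trans (congrArg _ a2)))
  obtain ⟨d3, d4⟩ := cmp_FReduce hL b3 c3 (abs_le.2 ⟨by linarith [hD₂.1], hD₂.2⟩)
    (c2.symm.trans (e2.trans (congrArg _ b2)))
  obtain ⟨X, n, x1, x2, x3, x4, x5⟩ := hC k e θ a b ρ (ρ + α) (ρ + β) y₁ y₂ y₃ hk (by linarith)
    (by linarith) a1 b1 c1 d1 d3 (d2 ▸ hD₁) (d4 ▸ hD₂)
  have x6 : ρ = k * X.2.2.2.1 := congrArg (fun p : P4 => p.2.2.2) x3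
  refine ⟨X, n, x1, x2, ?_, ?_, ?_⟩
  · rw [x3, ← l6, l8]
    rfl
  · change α = k * X.2.2.2.2.1 - k * X.2.2.2.1
    change _ = k * X.2.2.2.2.1 at x4
    linarith
  · change β = -X.1 + e * X.2.2.2.2.2 - k * X.2.2.2.1
    change _ = -X.1 + e * X.2.2.2.2.2 at x5
    linarith

end
section

open scoped ContDiff Topology

open Set

theorem localS (hM : ModelStmt) (hP : ProfStmt) (hL : LamStmt) : LocalStmt := by
  intro k e F X hp hF hG
  obtain ⟨-, -, -, -, -, -, -, mO, -, mW, -⟩ := hM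
  obtain ⟨-, kK, kE, d1, d2, r0, r2, r1, -⟩ := hP
  obtain ⟨-, -, -, -, -, lS, -, lR, -, -, lN, -⟩ := hL
  obtain ⟨g1, g2, -, -, g5, g6, g7, g8, -, -, g11, -⟩ := hG
  dsimp only at g1 g2 g5 g6 g7 g8 g11
  have hk : 0 < k := by linarith [hp.pos, hp.le]
  have hke : ∀ x : ℝ, k * (e / k * x) = e * x := fun x => by field_simp
  have g11' := abs_lt.1 g11
  have low : ∀ p : P4, p.1 < 0 → io k e p = (p.1, 1 + k * p.2.1, k * p.2.2.1, k * p.2.2.2) := by
    intro p h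
    rw [io, kK k e _ (Or.inl (by linarith)), (d1 _ (Or.inl (by linarith))).1,
      (d1 _ (Or.inl (by linarith))).2, r0 _ (Or.inl (by linarith)), zero_add, zero_add]
  have high : ∀ p : P4, 42 / 5 < p.1 →
      io k e p = (p.1, 2 + k * p.2.1, k * p.2.2.1, k * p.2.2.2) := by
    intro p h
    rw [io, kK k e _ (Or.inr h.le), (d2 _ (Or.inr h.le)).1, (d2 _ (Or.inr h.le)).2,
      r0 _ (Or.inr (by linarith)), zero_add, zero_add]
  have mv : ∀ p : P4, 1849 / 100 < qq (17 / 4) p → p.1 < (Fo p).1 →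
      F (Lam (io k e p)) = Lam (io k e (Fo p)) := by
    intro p h h'
    have h1 := mO p h.le
    rw [← h1] at h' ⊢
    exact hF.mv p fun h2 => by rw [h2] at h'; exact lt_irrefl _ h'
  refine ⟨?_, ?_, ?_⟩
  · have h := mv (pA (e / k) X) g5 (by change X.1 < _; linarith)
    rw [low _ g2, high _ (g7.trans g8), mW] at h
    simp only [pA, hke] at h
    exact h
  · have h := mv (pM (e / k) X) g5 (by change X.1 < _; linarith)
    rw [low _ g2, io, kE k e _ (by linarith) (by linarith), (d2 _ (Or.inl g11.le)).1,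
      (d2 _ (Or.inl g11.le)).2, r1 _ (by linarith), zero_add, mW] at h
    simp only [pM, hke] at h
    exact h
  · have h := mv (pB X) g6 (by change X.1 + 2 < _; linarith)
    have hb : |(pB X).1 - 2| ≤ 1 / 10 := by
      change |X.1 + 2 - 2| ≤ _
      rw [abs_le]
      constructor <;> linarith
    rw [high _ g7, io, kE k e _ (by change _ ≤ X.1 + 2; linarith)
      (by change X.1 + 2 ≤ _; linarith), (d1 _ (Or.inr hb)).1, (d1 _ (Or.inr hb)).2,
      r2 _ (by linarith), zero_add, mW] at h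
    have h2 : rt ((2 : ℤ) : Zp) = ee 2 := by simpa using lR 2
    have h3 : ee 2 ≠ 0 := norm_ne_zero_iff.1 (by rw [lN]; exact one_ne_zero)
    apply smul_right_injective W h3
    change ee 2 • F (Lam (cB e X)) = ee 2 • Lam (tB k X)
    conv_lhs => rw [← h2, ← hF.equiv, h2]
    rw [lS, lS]
    simp only [sh, cB, tB, sub_add_cancel]
    simp only [pB, add_sub_cancel_right] at h
    exact h

end
section

open scoped ContDiff Topology

open Set

lemma nsq_FPair (hL : LamStmt) {c : ℝ → P4} {v : P4} (h : HasDerivAt c v 0) :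
    HasDerivAt (fun τ => nsq (Lam (c τ)))
      (Real.exp (2 * (c 0).2.2.2) * (2 * v.2.2.2) * (1 + (c 0).2.1 ^ 2 + (c 0).2.2.1 ^ 2) +
        Real.exp (2 * (c 0).2.2.2) * (2 * (c 0).2.1 * v.2.1 + 2 * (c 0).2.2.1 * v.2.2.1)) 0 := by
  obtain ⟨h1, h2, h3⟩ := comp_FPair h
  simp only [hL.2.2.2.2.2.2.2.2.2.1]
  refine ((h3.const_mul 2).exp.mul (((h1.pow 2).const_add 1).add (h2.pow 2))).congr_deriv ?_
  simp

theorem pairS (hL : LamStmt) : PairStmt := by
  intro c c' v v' hc hc' e hd hn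
  obtain ⟨h1, h2, h3⟩ := comp_FPair hc
  obtain ⟨h1', h2', h3'⟩ := comp_FPair hc'
  have hz : ∀ {c : ℝ → P4} {v : P4}, HasDerivAt c v 0 →
      DifferentiableAt ℝ (fun τ => (Lam (c τ)).1) 0 := fun h =>
    ((hL.1.differentiable (by simp) _).comp 0 h.differentiableAt).fst
  have h4 := ((hz hc).hasDerivAt.mul (hz hc').hasDerivAt).mul
    ((h1'.ofReal_comp.add (h2'.ofReal_comp.mul_const Complex.I)).sub
      (h1.ofReal_comp.add (h2.ofReal_comp.mul_const Complex.I)))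
  have h5 := hd.unique (h4.congr_of_eventuallyEq (Filter.Eventually.of_forall fun τ => by
    simp only [det2, Lam, Pi.mul_apply, Pi.sub_apply, Pi.add_apply]
    ring))
  simp only [Pi.mul_apply, Pi.sub_apply, Pi.add_apply, e, sub_self, mul_zero, zero_add] at h5
  have h6 := (mul_eq_zero.1 h5.symm).resolve_left
    (mul_ne_zero (hL.2.2.2.2.2.2.2.2.1 _) (hL.2.2.2.2.2.2.2.2.1 _))
  have e1 : v.2.1 = v'.2.1 := by
    have := congrArg Complex.re h6
    simp at this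
    linarith
  have e2 : v.2.2.1 = v'.2.2.1 := by
    have := congrArg Complex.im h6
    simp at this
    linarith
  have h7 := hn.unique ((nsq_FPair hL hc').sub (nsq_FPair hL hc))
  rw [e, e1, e2] at h7
  have hp : 0 < Real.exp (2 * (c' 0).2.2.2) * (1 + (c' 0).2.1 ^ 2 + (c' 0).2.2.1 ^ 2) := by
    positivity
  have e3 : v.2.2.2 = v'.2.2.2 := mul_left_cancel₀ hp.ne' (by linarith)
  exact Prod.ext e1 (Prod.ext e2 e3)

end
section

open scoped ContDiff Topology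

open Set Filter

/-- The inverse of the parametrisation of triples. -/
def Ups_FNondeg (k e : ℝ) (y : W × ℝ × ℝ) : E6 :=
  ((Lam' y.1).1, ((Lam' y.1).2.1 - 1) / e, (Lam' y.1).2.2.1 / e, (Lam' y.1).2.2.2 / k,
    ((Lam' y.1).2.2.2 + y.2.1) / k, ((Lam' y.1).2.2.2 + y.2.2 + (Lam' y.1).1) / e)

theorem xi_ups_FNondeg (hL : LamStmt) {k e : ℝ} (hk : k ≠ 0) (he : e ≠ 0) (y : W × ℝ × ℝ)
    (hy : y.1.1 ≠ 0) : Xi k e (Ups_FNondeg k e y) = y := by
  have h1 : cA k e (Ups_FNondeg k e y) = Lam' y.1 := by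
    simp only [cA, Ups_FNondeg]
    ext <;> simp only <;> field_simp
    ring
  unfold Xi
  rw [h1, hL.2.2.1 _ hy]
  simp only [Ups_FNondeg]
  refine Prod.ext rfl (Prod.ext ?_ ?_) <;> simp only <;> field_simp <;> ring

theorem ups_xi_FNondeg (hL : LamStmt) {k e : ℝ} (hk : k ≠ 0) (he : e ≠ 0) (X : E6)
    (hX : |X.1| < pn / 2) : Ups_FNondeg k e (Xi k e X) = X := by
  have h1 : Lam' (Xi k e X).1 = cA k e X := (hL.2.2.2.1 (cA k e X) hX).1
  unfold Ups_FNondeg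
  rw [h1]
  simp only [cA, Xi]
  ext <;> simp only <;> field_simp <;> ring

theorem ups_diff_FNondeg (hL : LamStmt) (k e : ℝ) (y : W × ℝ × ℝ)
    (hy : y.1.1 ∈ Complex.slitPlane) : DifferentiableAt ℝ (Ups_FNondeg k e) y := by
  have ho : IsOpen {z : W | z.1 ∈ Complex.slitPlane} :=
    Complex.isOpen_slitPlane.preimage continuous_fst
  have h1 : DifferentiableAt ℝ Lam' y.1 :=
    (hL.2.1.contDiffAt (ho.mem_nhds hy)).differentiableAt (by simp)
  unfold Ups_FNondeg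
  generalize Lam' = G at h1 ⊢
  fun_prop

theorem phi_xi_FNondeg (hL : LamStmt) (hLoc : LocalStmt) {k e : ℝ} {F : W → W} (hp : Par k e)
    (hF : IsF k e F) (Y : E6) (hY : (e / k, Y) ∈ Good k) :
    Phi F (Xi k e Y) = (det2 (Lam (tA k e Y)) (Lam (tB k Y)),
      nsq (Lam (tB k Y)) - nsq (Lam (tA k e Y)), det2 (Lam (tB k Y)) (Lam (tM k e Y)),
      nsq (Lam (tM k e Y)) - nsq (Lam (tB k Y))) := by
  obtain ⟨h1, h2, h3⟩ := hLoc k e F Y hp hF hY
  have a1 : Real.exp (Xi k e Y).2.1 • (Xi k e Y).1 = Lam (cM k e Y) := by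
    simp only [Xi]
    rw [hL.2.2.2.2.2.2.1]
    simp only [cA, cM, add_sub_cancel]
  have a2 : Real.exp (Xi k e Y).2.2 • (Xi k e Y).1 = Lam (cB e Y) := by
    simp only [Xi]
    rw [hL.2.2.2.2.2.2.1]
    simp only [cA, cB, add_sub_cancel]
  have a3 : (Xi k e Y).1 = Lam (cA k e Y) := rfl
  unfold Phi
  rw [a1, a2, a3, h1, h2, h3]

theorem nondegS (hM : ModelStmt) (hP : ProfStmt) (hL : LamStmt) (hLoc : LocalStmt)
    (hTop : TopStmt) (hPair : PairStmt) : NondegStmt := by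
  intro k e F X hp hF hG hR hinj
  have he : e ≠ 0 := hp.pos.ne'
  have hk : k ≠ 0 := by
    have := hp.pos
    have := hp.le
    exact ne_of_gt (by linarith)
  have hX : |X.1| < pn / 2 := by
    have h1 : -1 / 10 < X.1 := hG.1
    have h2 : X.1 < 0 := hG.2.1
    rw [abs_lt]
    constructor <;> linarith [pn_ge]
  have hPhi := (phi_FNondeg (hF.smooth.differentiable (by simp)) (Xi k e X)).hasFDerivAt
  refine ⟨_, hPhi, (injective_iff_map_eq_zero _).2 fun v hv => ?_⟩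
  let γ : ℝ → W × ℝ × ℝ := fun τ => Xi k e X + τ • v
  have hγ0 : γ 0 = Xi k e X := by simp [γ]
  have hγ : HasDerivAt γ v 0 := by
    have := ((hasDerivAt_id (0 : ℝ)).smul_const v).const_add (Xi k e X)
    rwa [one_smul] at this
  have hU : DifferentiableAt ℝ (Ups_FNondeg k e) (γ 0) :=
    ups_diff_FNondeg hL k e _ (by rw [hγ0]; exact (hL.2.2.2.1 (cA k e X) hX).2.1)
  let Y : ℝ → E6 := fun τ => Ups_FNondeg k e (γ τ)
  have hY0 : Y 0 = X := by
    simp only [Y]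
    rw [hγ0, ups_xi_FNondeg hL hk he X hX]
  have hYd : DifferentiableAt ℝ Y 0 := hU.comp 0 hγ.differentiableAt
  have e1 : ∀ᶠ τ in 𝓝 (0 : ℝ), Xi k e (Y τ) = γ τ := by
    have hc : ContinuousAt (fun τ => (γ τ).1.1) 0 := hγ.continuousAt.fst.fst
    refine (hc.eventually_ne (y := 0) ?_).mono fun τ hτ => xi_ups_FNondeg hL hk he _ hτ
    rw [hγ0]
    exact hL.2.2.2.2.2.2.2.2.1 _
  have e2 : ∀ᶠ τ in 𝓝 (0 : ℝ), (e / k, Y τ) ∈ Good k := by
    have hc : ContinuousAt (fun τ => (e / k, Y τ)) 0 :=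
      continuousAt_const.prodMk hYd.continuousAt
    exact hc.eventually_mem ((hTop.2 k).1.mem_nhds (by rw [hY0]; exact hG))
  have d1 : HasDerivAt (fun τ => Phi F (γ τ)) 0 0 := by
    have := HasFDerivAt.comp_hasDerivAt (0 : ℝ) (hγ0.symm ▸ hPhi) hγ
    rwa [hγ0, hv] at this
  have d2 : HasDerivAt (fun τ => (det2 (Lam (tA k e (Y τ))) (Lam (tB k (Y τ))),
      nsq (Lam (tB k (Y τ))) - nsq (Lam (tA k e (Y τ))),
      det2 (Lam (tB k (Y τ))) (Lam (tM k e (Y τ))),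
      nsq (Lam (tM k e (Y τ))) - nsq (Lam (tB k (Y τ))))) 0 0 := by
    refine d1.congr_of_eventuallyEq ?_
    filter_upwards [e1, e2] with τ h1 h2
    rw [← h1, phi_xi_FNondeg hL hLoc hp hF _ h2]
  have hFo : Differentiable ℝ Fo := hM.2.2.2.2.1.differentiable (by simp)
  have dA : DifferentiableAt ℝ (fun τ => tA k e (Y τ)) 0 := by
    unfold tA pA
    generalize Fo = G at hFo ⊢
    fun_prop
  have dM : DifferentiableAt ℝ (fun τ => tM k e (Y τ)) 0 := by
    unfold tM pM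
    generalize Fo = G at hFo ⊢
    fun_prop
  have dB : DifferentiableAt ℝ (fun τ => tB k (Y τ)) 0 := by
    unfold tB pB
    generalize Fo = G at hFo ⊢
    fun_prop
  rw [red_FNondeg hk] at hR
  simp only [Prod.mk_eq_zero, div_eq_zero_iff, hk, or_false] at hR
  have z1 : (tA k e (Y 0)).2 = (tB k (Y 0)).2 := by
    rw [hY0]
    exact (sub_eq_zero.1 (Prod.ext hR.1 (Prod.ext hR.2.1 hR.2.2.1))).symm
  have z2 : (tB k (Y 0)).2 = (tM k e (Y 0)).2 := by
    rw [hY0]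
    exact sub_eq_zero.1 (Prod.ext hR.2.2.2.1 (Prod.ext hR.2.2.2.2.1 hR.2.2.2.2.2))
  have p1 := hPair _ _ _ _ dA.hasDerivAt dB.hasDerivAt z1 (fst_FNondeg d2)
    (fst_FNondeg (snd_FNondeg d2))
  have p2 := hPair _ _ _ _ dB.hasDerivAt dM.hasDerivAt z2
    (fst_FNondeg (snd_FNondeg (snd_FNondeg d2))) (snd_FNondeg (snd_FNondeg (snd_FNondeg d2)))
  have q1 : HasDerivAt (fun τ => (tB k (Y τ)).2 - (tA k e (Y τ)).2) 0 0 := by
    have := (snd_FNondeg dB.hasDerivAt).sub (snd_FNondeg dA.hasDerivAt)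
    rwa [p1, sub_self] at this
  have q2 : HasDerivAt (fun τ => (tB k (Y τ)).2 - (tM k e (Y τ)).2) 0 0 := by
    have := (snd_FNondeg dB.hasDerivAt).sub (snd_FNondeg dM.hasDerivAt)
    rwa [p2, sub_self] at this
  have r1 : HasDerivAt (fun τ => Red k (e / k, Y τ)) 0 0 := by
    simp only [red_FNondeg hk]
    have := ((fst_FNondeg q1).div_const k).prodMk
      (((fst_FNondeg (snd_FNondeg q1)).div_const k).prodMk
      (((snd_FNondeg (snd_FNondeg q1)).div_const k).prodMk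
      (((fst_FNondeg q2).div_const k).prodMk
      (((fst_FNondeg (snd_FNondeg q2)).div_const k).prodMk (snd_FNondeg (snd_FNondeg q2))))))
    simp only [Prod.fst_zero, Prod.snd_zero, zero_div] at this
    exact this
  have hRd : DifferentiableAt ℝ (fun Y => Red k (e / k, Y)) (Y 0) :=
    (((hTop.2 k).2.differentiable one_ne_zero) _).comp _
      ((differentiableAt_const _).prodMk differentiableAt_id)
  have r2 := (hRd.hasFDerivAt.comp_hasDerivAt (0 : ℝ) hYd.hasDerivAt).unique r1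
  rw [hY0] at r2
  have hu : deriv Y 0 = 0 := hinj (r2.trans (map_zero _).symm)
  have hLam : Differentiable ℝ Lam := hL.1.differentiable (by simp)
  have hXi : DifferentiableAt ℝ (Xi k e) (Y 0) := by
    unfold Xi cA
    fun_prop
  have r3 := hXi.hasFDerivAt.comp_hasDerivAt (0 : ℝ) hYd.hasDerivAt
  rw [hu, map_zero] at r3
  exact (hγ.congr_of_eventuallyEq e1).unique r3

end
section

open Set

theorem asmF (hL : LamStmt) (hC : ClusStmt) (hB : BuildStmt) (hR : ReduceStmt) (hLoc : LocalStmt)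
    (hEx : LimExStmt) (hCh : LimCharStmt) (hG : LimGoodStmt) (hJ : LimJacStmt) (hT : TopStmt)
    (hI : IftStmt) (hN : NondegStmt) : FStmt := by
  obtain ⟨c, hc, hcl⟩ := hC
  obtain ⟨⟨X₀, hX₀⟩, huq⟩ := hEx
  set k : ℝ := min (c / 10) (1 / 160) with hk
  have hk0 : 0 < k := lt_min (by positivity) (by norm_num)
  have hk1 : k ≤ 1 / 160 := min_le_right _ _
  have hk2 : 10 * k ≤ c := by linarith [min_le_left (c / 10) (1 / 160)]
  obtain ⟨hz, hg⟩ := hG k X₀ hk0 hk1 hX₀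
  obtain ⟨δ₀, hδ₀, hδ⟩ := hI (Red k) KK (Good k) X₀ (hT.2 k).2 hT.1 (hT.2 k).1 hg hz
    (fun X h1 h2 => huq _ _ (hCh k X h1 h2) hX₀) (hJ k X₀ hX₀)
  set δ : ℝ := min (δ₀ / 2) (1 / 400) with hd
  have hd0 : 0 < δ := lt_min (by positivity) (by norm_num)
  have hd1 : δ ≤ 1 / 400 := min_le_right _ _
  have hd2 : |δ| < δ₀ := by
    rw [abs_of_pos hd0]; linarith [min_le_left (δ₀ / 2) (1 / 400)]
  obtain ⟨X, hXg, hXz, hXj, hXu⟩ := hδ δ hd2
  have hek : k * δ / k = δ := by field_simp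
  have hp : Par k (k * δ) := ⟨by positivity, by nlinarith, hk1, fun u hu v hv h1 h2 =>
    hcl u hu v hv (h1.trans hk2) (h2.trans hk2)⟩
  obtain ⟨F, F', hF, hF', hl, hr, hs⟩ := hB k _ hp
  rw [← hek] at hXg hXz hXj hXu
  generalize k * δ = e at *
  refine ⟨F, F', ⟨hF.smooth.continuous, hl.injective, hs, hF.equiv, ?_⟩, hF.smooth, hF', hl, hr⟩
  obtain ⟨l1, l2, l3⟩ := hLoc k e F X hp hF hXg
  have hnd := hN k e F X hp hF hXg hXz hXj
  obtain ⟨-, -, -, La, -, Le, Lr, -, Ln, -, -, Lz⟩ := hL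
  obtain ⟨g1, g2, g3, g4, -, -, g7, g8, g9, g10, g11, g12, g13, g14⟩ := hXg
  have he := hp.pos
  have he' : e ≤ 1 / 64000 := by linarith [hp.le]
  have hke : k * (e / k) = e := by field_simp
  simp only at g1 g2 g3 g4 g7 g8 g9 g10 g11 g12 g13 g14
  rw [hke] at g14
  have z2 := Lz (cA k e X) (by show |X.1| ≤ 1 / 10; rw [abs_le]; constructor <;> linarith)
    (by
      show |1 + e * X.2.1 - 1| ≤ 1 / 100
      rw [add_sub_cancel_left, abs_mul, abs_of_pos he]; nlinarith [abs_nonneg X.2.1])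
    (by
      show |e * X.2.2.1| ≤ 1 / 100
      rw [abs_mul, abs_of_pos he]; nlinarith [abs_nonneg X.2.2.1])
  have eM : Real.exp (Xi k e X).2.1 • (Xi k e X).1 = Lam (cM k e X) := by
    show Real.exp _ • Lam (cA k e X) = _
    rw [Lr]; simp [cA, cM, Xi]
  have eB : Real.exp (Xi k e X).2.2 • (Xi k e X).1 = Lam (cB e X) := by
    show Real.exp _ • Lam (cA k e X) = _
    rw [Lr]; simp [cA, cB, Xi]
  have r1 := congrArg (fun y : E6 => y.1) hXz
  have r2 := congrArg (fun y : E6 => y.2.1) hXz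
  have r3 := congrArg (fun y : E6 => y.2.2.1) hXz
  have r4 := congrArg (fun y : E6 => y.2.2.2.1) hXz
  have r5 := congrArg (fun y : E6 => y.2.2.2.2.1) hXz
  have r6 := congrArg (fun y : E6 => y.2.2.2.2.2) hXz
  simp only [Red, Prod.fst_zero, Prod.snd_zero] at r1 r2 r3 r4 r5 r6
  rw [hke] at r6
  have r4' : k * (Fo (pB X)).2.1 = e * (Fo (pM (e / k) X)).2.1 := by
    rw [sub_eq_zero.1 r4, ← mul_assoc, hke]
  have r5' : k * (Fo (pB X)).2.2.1 = e * (Fo (pM (e / k) X)).2.2.1 := by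
    rw [sub_eq_zero.1 r5, ← mul_assoc, hke]
  refine ⟨(Xi k e X).1, (Xi k e X).2.1, (Xi k e X).2.2, Ln _, z2, ?_, ?_,
    ⟨(tB k X).1 - (tA k e X).1, ?_, (tB k X).1 - (tM k e X).1, ?_, ?_, ?_⟩, ?_, hnd⟩
  · show 0 < k * X.2.2.2.2.1 - k * X.2.2.2.1
    nlinarith
  · show k * X.2.2.2.2.1 - k * X.2.2.2.1 < -X.1 + e * X.2.2.2.2.2 - k * X.2.2.2.1
    linarith
  · simp only [tA, tB]; constructor <;> linarith
  · simp only [tM, tB]; constructor <;> linarith [(abs_lt.1 g11).1]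
  · rw [eB, l3]
    show _ = ee _ • F (Lam (cA k e X))
    rw [l1, Le]
    congr 1
    simp only [tA, tB, sh, Prod.mk.injEq]
    refine ⟨by ring, ?_, ?_, ?_⟩
    · rw [sub_eq_zero.1 r1]
    · rw [sub_eq_zero.1 r2]
    · rw [sub_eq_zero.1 r3]
  · rw [eB, eM, l3, l2, Le]
    congr 1
    simp only [tM, tB, sh, Prod.mk.injEq]
    exact ⟨by ring, by rw [r4'], r5', by linarith⟩
  · intro z α β h0 h1 h2 D₁ hD₁ D₂ hD₂ q1 q2
    obtain ⟨Y, j, y1, y2, y3, y4, y5⟩ := hR k e F hp hF z α β h0 h1 h2 D₁ hD₁ D₂ hD₂ q1 q2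
    rw [hXu Y y1 y2] at y3 y4 y5
    exact ⟨j, y3, y4, y5⟩

end
section

open Fp

theorem fS : FStmt :=
  asmF lamS (clusS stS profS) (buildS modelS profS lamS (transS lamS) eqvS (disjS profS))
    (reduceS modelS profS lamS (coarseS modelS profS (holeS profS) (nearS profS)))
    (localS modelS profS lamS) (limExS stS) (limCharS stS modelS) (limGoodS stS modelS)
    (limJacS stS modelS) (topS modelS) iftS
    (nondegS modelS profS lamS (localS modelS profS lamS) (topS modelS) (pairS lamS))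

end
end Pool.Agent.MP_2fc7fa_gt.N.Fp.Q
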