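import Pool.Agent.MP_2fc7fa_gt.Q.F
import Pool.Agent.MP_2fc7fa_gt.Q.A
import Pool.Agent.MP_2fc7fa_gt.Q.C
import Pool.Agent.MP_2fc7fa_gt.I.Top
import Pool.Agent.MP_2fc7fa_gt.QDefs

noncomputable section

namespace Pool.Agent.MP_2fc7fa_gt.N.Fp.Q

variable [PO]

section

open scoped ContDiff ComplexConjugate Topology

open Set Complex Filter Metric

theorem eqfam_I {f : W → W} {F F' : V → V} (hL : Lf f F F')
    {ac : Zp → Symp 1 → Symp 1} {om0 om1 : Symp 1} {J : Symp 1 × UI → V → Op}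
    (hJ : JFam F ac om0 om1 J) {γ : UI → Symp 1} (hγ : Continuous γ) (h0 : γ 0 = om0)
    (h1 : γ 1 = om1) (hinv : ∀ k s, ac k (γ s) = γ s) : Nonempty (EqFam f) := by
  let om : Unit × UI → Symp 1 := fun a => γ a.2
  have hom : Continuous om := hγ.comp continuous_snd
  obtain ⟨φ, C, Y, hS, hφJ, hCn⟩ := sys_Glue gromov_B frameS hL hJ hom (fun _ => h0) fun _ => h1
  obtain ⟨k1, k2, k3⟩ := keyS uniq_B lin _ φ C Y hS
  have tr : ∀ k (c : ℂ) v, c ≠ 0 → v ≠ 0 →
      ∀ s, Y ((), s) (rt k • c • v) (1, 1) = hat k (Y ((), s) v (1, c)) := by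
    intro k c v hc hv s
    have h : ∀ s, om ((), s) = ac k (om ((), s)) := fun s => (hinv k s).symm
    have := k1 () () (hatL k) c v (rt k • c • v) (hat_e0 k) (fun s x hx u => by
      simp only [hatL_apply]
      rw [hφJ _ _ (hat_ne k hx), hφJ _ _ hx]
      conv_lhs => rw [h]
      exact hJ.equiv k _ s x hx u) (hCn () () k h) hc hv (hat_vec k 0 _).symm s (1, 1)
    simpa only [mul_one, hatL_apply] using this
  have hR : Ray Y :=
    ⟨hS.fam, fun a v hv => ⟨⟨(hS.line a v hv).1.c1, (hS.line a v hv).1.hom⟩, (hS.line a v hv).2.1,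
      (hS.line a v hv).1.ne⟩, fun a v hv => congrArg Prod.fst (hS.line a v hv).2.2,
      fun a v c hv hc => by simpa only [rt_zero, one_smul, hat_zero] using tr 0 c v hc hv a.2⟩
  have h11 : ∀ c : ℂ, ((1, c) : W) ≠ 0 := fun c e => one_ne_zero (congrArg Prod.fst e)
  have hinj : ∀ a v (c c' : ℂ), v ≠ 0 → c ≠ 0 → c' ≠ 0 →
      pr (Y a (c • v) (1, 1)) = pr (Y a (c' • v) (1, 1)) → c = c' := by
    intro a v c c' hv hc hc' e
    rw [hR.par _ v c hv hc, hR.par _ v c' hv hc'] at e
    obtain ⟨b1, b2, b3⟩ := hR.emb a v hv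
    obtain ⟨d, hd, e⟩ := exists_smul_of_pr_eq (b3 _ (h11 c)) (b3 _ (h11 c')) e
    rw [← b1.2] at e
    have e' := b2.inj (h11 c) (smul_ne_zero hd (h11 c')) e
    have e1 : (1 : ℂ) = d * 1 := congrArg Prod.fst e'
    have e2 : c = d * c' := congrArg Prod.snd e'
    rw [e2, ← mul_one d, ← e1, one_mul]
  have heq : ∀ a v k, v ≠ 0 → pr (Y a (rt k • v) (1, 1)) = actM k (pr (Y a v (1, 1))) := by
    intro a v k hv
    rw [← pr_hat_Glue, ← tr k 1 v one_ne_zero hv, one_smul]
  have hpt : ∀ a v, v ≠ 0 → aff (pr (Y a v (1, 1))) ≠ 0 ∧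
      pr (Y a v (1, 1)) = pt (aff (pr (Y a v (1, 1)))) := by
    intro a v hv
    obtain ⟨y, hy, e⟩ := exists_pt ((hR.emb a v hv).2.2 _ (h11 1)) fun h =>
      absurd (rt_injective (hinj a v _ _ hv (rt_ne_zero 1) (rt_ne_zero 0)
        (by rw [heq a v 1 hv, h, rt_zero, one_smul]))) one_ne_zero
    rw [e, aff_pt]
    exact ⟨hy, rfl⟩
  have horb : ∀ a v, v ≠ 0 → ∀ k,
      pr (Y a (rt k • v) (1, 1)) = pt (rt k • aff (pr (Y a v (1, 1)))) := fun a v hv k => by
    rw [heq a v k hv, ← actM_pt, ← (hpt a v hv).2]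
  refine ⟨{ h := fun s v => aff (pr (Y ((), projIcc 0 1 zero_le_one s) v (1, 1)))
            ne := fun s _ v hv => (hpt _ v hv).1
            cont := ?_
            inj := fun s _ v c c' hv hc hc' e => hinj ((), projIcc 0 1 zero_le_one s) v c c' hv hc hc' ?_
            equiv := fun s _ v k hv => by rw [horb _ v hv, aff_pt]
            start := fun v hv => ?_
            stop := ?_
            near0 := fun r hr => ?_
            nearInf := fun r => ?_ }⟩
  · rw [continuousOn_iff_continuous_domRestrict]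
    have c0 : Continuous fun q : (Icc (0 : ℝ) 1 ×ˢ ({0}ᶜ : Set W) : Set (ℝ × W)) =>
        (((((), projIcc 0 1 zero_le_one q.1.1), ⟨q.1.2, q.2.2⟩), (1, 1)) :
          ((Unit × UI) × ({0}ᶜ : Set W)) × W) :=
      ((continuous_const.prodMk (continuous_projIcc.comp (by fun_prop))).prodMk
        (by fun_prop)).prodMk continuous_const
    have c1 := hS.fam.jc.comp_continuous c0 fun _ => ⟨mem_univ _, h11 1⟩
    have c2 := continuousOn_pr_Glue.comp_continuous c1
      fun q => (hR.emb _ _ q.2.2).2.2 _ (h11 1)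
    refine continuous_iff_continuousAt.2 fun q => ContinuousAt.comp (g := aff) ?_ c2.continuousAt
    have := continuousAt_aff (aff (pr (Y ((), projIcc 0 1 zero_le_one q.1.1) q.1.2 (1, 1))))
    rwa [← (hpt _ _ q.2.2).2] at this
  · rw [(hpt _ _ (smul_ne_zero hc hv)).2, (hpt _ _ (smul_ne_zero hc' hv)).2]
    exact congrArg pt e
  · rw [projIcc_left]
    refine (congrArg (fun x => aff (pr x)) (k2 _ f F F' hL (fun y hy u => ?_) v hv)).trans
      (aff_pt _)
    rw [hφJ _ _ (hL.ne hy)]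
    have e : om ((), 0) = om0 := h0
    rw [e]
    exact hJ.start y hy u
  · obtain ⟨L, -, hL2⟩ := k3 ()
    refine ⟨L, fun v hv => ?_⟩
    rw [projIcc_right]
    exact (congrArg (fun x => aff (pr x)) (hL2 v hv)).trans (aff_pt _)
  · obtain ⟨τ, hτ, h⟩ := near0S chord _ Y hR r hr
    exact ⟨τ, hτ, fun s _ a l ha h1 h2 => h _ a _ _ l ha h1 h2 (horb _ a ha)
      (hpt _ _ (smul_ne_zero (ofReal_ne_zero.2 (by linarith)) ha)).2⟩
  · obtain ⟨R, h⟩ := nearInfS chord _ Y hR r
    exact ⟨R, fun s _ b l hb h1 h2 h3 => h _ b _ _ l hb h1 h2 h3 (horb _ b hb)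
      (hpt _ _ (smul_ne_zero (ofReal_ne_zero.2 h2.ne') hb)).2⟩

theorem Lf.comp {f g : W → W} {F F' G G' : V → V} (h : Lf f F F') (h' : Lf g G G') :
    Lf (f ∘ g) (F ∘ G) (G' ∘ F') :=
  ⟨h.toHDiff.comp h'.toHDiff, fun k x => by simp only [Function.comp_apply, h.equiv, h'.equiv],
    fun y => by simp only [Function.comp_apply, h.aff, h'.aff],
    (h.near.and h'.near).mono fun x hx => by rw [Function.comp_apply, hx.2, hx.1],
    (h.near'.and h'.near').mono fun x hx => by rw [Function.comp_apply, hx.1, hx.2]⟩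

theorem lf_id : Lf id id id :=
  ⟨⟨contDiffOn_id, contDiffOn_id, fun _ => rfl, fun _ => rfl, fun _ _ => rfl⟩, fun _ _ => rfl,
    fun _ => rfl, .of_forall fun _ => rfl, .of_forall fun _ => rfl⟩

theorem dgI_hat (a : ℝ) (k : Zp) (x : V) : dgI a (hat k x) = hat k (dgI a x) := by
  ext i
  fin_cases i <;> simp [dgI, hat, mul_left_comm]

theorem Lf.conj {f : W → W} {F F' : V → V} (h : Lf f F F') (a : ℝ) :
    Lf (fun z => Real.exp a • f (Real.exp (-a) • z)) (dgI a ∘ F ∘ dgI (-a))
      (dgI a ∘ F' ∘ dgI (-a)) := by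
  have t : Tendsto (dgI (-a)) (𝓝 e0) (𝓝 e0) := by
    have := (contDiff_dgI (-a)).continuous.tendsto e0
    rwa [e0, dgI_vec, smul_zero] at this
  exact ⟨(hdiff_dgI a).comp (h.toHDiff.comp (hdiff_dgI a).symm),
    fun k x => by simp only [Function.comp_apply, h.equiv, dgI_hat],
    fun y => by simp only [Function.comp_apply, h.aff, dgI_vec],
    (t.eventually h.near).mono fun x hx => by
      rw [Function.comp_apply, Function.comp_apply, hx, (hdiff_dgI a).right],
    (t.eventually h.near').mono fun x hx => by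
      rw [Function.comp_apply, Function.comp_apply, hx, (hdiff_dgI a).right]⟩

theorem lf_gI {f : W → W} {F F' : V → V} (h : Lf f F F') (m r : ℕ) :
    Lf (gI f m r) (GI F m r) (GI' F' m r) := by
  induction r with
  | zero => exact lf_id
  | succ r ih => exact ih.comp (h.conj _)

theorem stack_gI {f : W → W} (hf : Sol f) (m r : ℕ) :
    Stack f (gI f m r) (Finset.Ico m (m + r)) := by
  induction r with
  | zero => exact ⟨continuous_id, Function.injective_id, fun j hj => by simp at hj, fun _ _ => rfl⟩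
  | succ r ih =>
    have key : ∀ z, ¬ Sh (m + r) z →
        Real.exp (6 * (m + r : ℕ)) • f (Real.exp (-(6 * (m + r : ℕ))) • z) = z := fun z hz => by
      rw [hf.supp _ (by rwa [Sh, not_and_or, not_lt, not_lt] at hz), exp_smul_neg_I]
    have hc := hf.cont
    refine ⟨ih.cont.comp (by fun_prop),
      ih.inj.comp ((smul_right_injective W (Real.exp_ne_zero _)).comp
        (hf.inj.comp (smul_right_injective W (Real.exp_ne_zero _)))), fun j hj z hz => ?_,
      fun z hz => ?_⟩
    · rw [gI, Function.comp_apply]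
      rcases eq_or_ne j (m + r) with rfl | h
      · refine ih.out _ fun i hi h => ?_
        have := h.eq ((hf.sh' _ z).2 hz)
        have := Finset.mem_Ico.1 hi
        omega
      · rw [key z fun h' => h (hz.eq h')]
        have := Finset.mem_Ico.1 hj
        exact ih.inn j (Finset.mem_Ico.2 (by omega)) z hz
    · rw [gI, Function.comp_apply, key z (hz _ (Finset.mem_Ico.2 (by omega)))]
      refine ih.out z fun j hj => hz j ?_
      have := Finset.mem_Ico.1 hj
      exact Finset.mem_Ico.2 (by omega)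

end
section

open scoped ContDiff ComplexConjugate Topology Matrix

open Set Complex Filter Metric

/-- Invariance under the action of `ZMod pn`. -/
def InvF {l : ℝ} (σ : Symp l) : Prop :=
  ∀ k x, x ≠ 0 → ∀ u v, σ.form (hat k x) ![hat k u, hat k v] = σ.form x ![u, v]

theorem diag_mulVec_I (k : Zp) (x : V) : Matrix.diagonal ![1, rt k, rt k] *ᵥ x = hat k x := by
  ext i
  rw [Matrix.mulVec_diagonal]
  fin_cases i <;> simp [hat, wt, rt_zero]

theorem rt_pow_I (k : Zp) : rt k ^ pn = 1 := by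
  rw [rt, ← AddChar.map_nsmul_eq_pow, nsmul_eq_mul,
    show ((pn : ℕ) : Zp) = 0 from ZMod.natCast_self pn, zero_mul, AddChar.map_zero_eq_one]

theorem exists_rt_I {ζ : ℂ} (h : ζ ^ pn = 1) : ∃ k, ζ = rt k := by
  obtain ⟨i, -, hi⟩ := (Complex.isPrimitiveRoot_exp pn (NeZero.ne _)).eq_pow_of_pow_eq_one h
  refine ⟨((i : ℤ) : Zp), ?_⟩
  rw [rt_intCast, ← hi, ← Complex.exp_nat_mul, ee]
  congr 1
  push_cast
  ring

theorem invariant_iff {l : ℝ} (σ : Symp l) : Invariant (Cyc pn) σ.form ↔ InvF σ := by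
  constructor
  · intro h k x _ u v
    rw [← h _ ⟨rt k, rt_pow_I k, rfl⟩ x ![u, v], diag_mulVec_I]
    congr 1
    ext1 i
    fin_cases i <;> exact (diag_mulVec_I k _).symm
  · rintro h _ ⟨ζ, hζ, rfl⟩ z v
    obtain ⟨k, rfl⟩ := exists_rt_I hζ
    rcases eq_or_ne z 0 with rfl | hz
    · rw [Matrix.mulVec_zero, σ.isForm.zero]
      rfl
    · rw [eq_bilL, eq_bilL, bilL_apply, bilL_apply, ← h k z hz]
      simp only [diag_mulVec_I]

theorem pull_inv {F F' : V → V} (hF : HDiff F F') (he : ∀ k x, F (hat k x) = hat k (F x))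
    {σ τ : Symp 1} (h : IsPull F σ τ) (hσ : InvF σ) : InvF τ := by
  intro k x hx u v
  have e2 : ∀ u, fderiv ℝ F (hat k x) (hat k u) = hat k (fderiv ℝ F x u) :=
    hF.fderiv_comm ((hatL k).toLinearEquiv.restrictScalars ℝ).toContinuousLinearEquiv (he k) hx
  rw [h _ hx, h _ (hat_ne k hx), he, e2, e2, hσ k _ (hF.ne hx)]

theorem Lf.equiv' {f : W → W} {F F' : V → V} (h : Lf f F F') (k : Zp) (x : V) :
    F' (hat k x) = hat k (F' x) := by
  conv_lhs => rw [← h.right x, ← h.equiv, h.left]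

/-- The standard form and its image under a nonempty stack are not joined by invariant forms. -/
theorem not_joined_I {f g : W → W} (hf : Sol f) {S : Finset ℕ} (hg : Stack f g S)
    (hS : S.Nonempty) {K K' : V → V} (hL : Lf g K K') {γ : UI → Symp 1} (hγ : Continuous γ)
    (hinv : ∀ s, InvF (γ s)) (h1 : ∀ x, x ≠ 0 → ∀ u v, (γ 1).form x ![u, v] = omS (g1 x) x u v)
    (h0 : IsPull K' (γ 1) (γ 0)) : False := by
  obtain ⟨ac, om0, om1, hFo⟩ := formsS pullS stdFS g K K' hL
  obtain ⟨J, hJ⟩ := jFamS jInvS jAlgS jSmS gsS g K K' ac om0 om1 hL hFo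
  have e1 : γ 1 = om1 := Symp.ext' fun x hx u v => by rw [h1 x hx, hFo.std x hx]
  have e0 : γ 0 = om0 := Symp.ext' fun x hx u v => by rw [h0 x hx, hFo.pull x hx, e1]
  obtain ⟨L⟩ := eqfam_I hL hJ hγ e0 e1 fun k s => Symp.ext' fun x hx u v => by
    have a := hFo.spec k (γ s) _ (hat_ne (-k) hx) (hat (-k) u) (hat (-k) v)
    simp only [(hdiff_hat k).right] at a
    rw [a, hinv s (-k) x hx]
  exact core_I hf hg hS L

theorem infinite_cc (l : ℝ) (hl : l ≠ 0) :
    Infinite (ConnectedComponents {σ : Symp l // Invariant (Cyc pn) σ.form}) := by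
  obtain ⟨f, f', hs, s1, s2, s3, s4⟩ := fS
  obtain ⟨F, F', hL⟩ := liftFS f f' hs s1 s2 s3 s4
  obtain ⟨om1, h1⟩ := stdFS
  have i1 : InvF om1 := fun k x hx u v => by rw [h1 _ hx, h1 _ (hat_ne k hx), omS_AForms]
  choose P hP hP' using fun n => pullS _ _ (lf_gI hL 0 n).toHDiff
  choose Q hQ hQ' using fun n => pullS _ _ (lf_gI hL 0 n).toHDiff.symm
  have i2 : ∀ n, InvF (Q n om1) := fun n =>
    pull_inv (lf_gI hL 0 n).toHDiff.symm (lf_gI hL 0 n).equiv' (hQ' n om1) i1
  let τ : ℕ → {σ : Symp l // Invariant (Cyc pn) σ.form} := fun n =>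
    ⟨sc_AStd hl (mul_one l).symm (Q n om1), (invariant_iff _).2 fun k x hx u v =>
      congrArg (l * ·) (i2 n k x hx u v)⟩
  have key : ∀ m r, 0 < r → ¬ Joined (τ (m + r)) (τ m) := by
    rintro m r hr ⟨γ⟩
    have hm := (lf_gI hL 0 m).toHDiff
    have back : ∀ n, sc_AStd (inv_ne_zero hl) (inv_mul_cancel₀ hl).symm (τ n).1 = Q n om1 :=
      fun n => Symp.ext' fun x _ u v => inv_mul_cancel_left₀ hl _
    have e1 : P m (Q m om1) = om1 := Symp.ext' fun x hx u v => by
      have := (hQ' m om1).comp hm.symm hm (hP' m _) x hx u v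
      rwa [show GI' F' 0 m ∘ GI F 0 m = id from funext hm.left, fderiv_id] at this
    refine not_joined_I hs (stack_gI hs m r) ⟨m, Finset.mem_Ico.2 (by omega)⟩ (lf_gI hL m r)
      (γ := fun s => P m (sc_AStd (inv_ne_zero hl) (inv_mul_cancel₀ hl).symm (γ s).1))
      ((hP m).comp ((cont_AStd _ _).comp (continuous_subtype_val.comp γ.continuous)))
      (fun s => pull_inv hm (lf_gI hL 0 m).equiv (hP' m _) fun k x hx u v =>
        congrArg (l⁻¹ * ·) ((invariant_iff _).1 (γ s).2 k x hx u v)) ?_ ?_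
    · simp only [γ.target, back, e1]
      exact h1
    · simp only [γ.target, γ.source, back, e1]
      have := (hQ' (m + r) om1).comp (lf_gI hL 0 (m + r)).toHDiff.symm hm (hP' m _)
      rwa [GI'_add, Function.comp_assoc, show GI' F' 0 m ∘ GI F 0 m = id from funext hm.left,
        Function.comp_id] at this
  refine Infinite.of_injective (fun n => ConnectedComponents.mk (τ n)) fun m n h => ?_
  have h2 := joined_of_cc near_joined (ConnectedComponents.coe_eq_coe'.1 h)
  by_contra hne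
  rcases lt_or_gt_of_ne hne with h3 | h3
  · obtain ⟨r, rfl⟩ := Nat.exists_eq_add_of_le h3.le
    exact key m r (by omega) h2
  · obtain ⟨r, rfl⟩ := Nat.exists_eq_add_of_le h3.le
    exact key n r (by omega) h2.symm

end
end Pool.Agent.MP_2fc7fa_gt.N.Fp.Q
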